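import Mathlib

set_option autoImplicit false

open Finset

namespace Pool.Agent.Lib.MP_f8e628_co

/-- Indicator of a proposition, as a real number. -/
noncomputable def ind (P : Prop) : ℝ := by classical exact if P then 1 else 0

lemma ind_pos {P : Prop} (h : P) : ind P = 1 := by simp [ind, h]

lemma ind_neg {P : Prop} (h : ¬ P) : ind P = 0 := by simp [ind, h]

lemma ind_nonneg (P : Prop) : 0 ≤ ind P := by
  by_cases h : P
  · rw [ind_pos h]; norm_num
  · rw [ind_neg h]

lemma ind_le_one (P : Prop) : ind P ≤ 1 := by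
  by_cases h : P
  · rw [ind_pos h]
  · rw [ind_neg h]; norm_num

lemma ind_mono {P Q : Prop} (h : P → Q) : ind P ≤ ind Q := by
  by_cases hP : P
  · rw [ind_pos hP, ind_pos (h hP)]
  · rw [ind_neg hP]; exact ind_nonneg _

lemma ind_congr {P Q : Prop} (h : P ↔ Q) : ind P = ind Q := by rw [propext h]

lemma ind_and (P Q : Prop) : ind (P ∧ Q) = ind P * ind Q := by
  by_cases hP : P <;> by_cases hQ : Q <;> simp [ind, hP, hQ]

lemma ind_not (P : Prop) : ind (¬ P) = 1 - ind P := by
  by_cases hP : P <;> simp [ind, hP]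

lemma ind_mul_self (P : Prop) : ind P * ind P = ind P := by
  by_cases hP : P <;> simp [ind, hP]

lemma ind_forall_mem {α : Type*} (s : Finset α) (P : α → Prop) :
    ind (∀ a ∈ s, P a) = ∏ a ∈ s, ind (P a) := by
  by_cases h : ∀ a ∈ s, P a
  · rw [ind_pos h, Finset.prod_eq_one fun a ha => ind_pos (h a ha)]
  · rw [ind_neg h]
    push Not at h
    obtain ⟨a, ha, hPa⟩ := h
    exact (Finset.prod_eq_zero ha (ind_neg hPa)).symm

lemma sum_ind_eq_card {α : Type*} (s : Finset α) (P : α → Prop) [DecidablePred P] :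
    ∑ a ∈ s, ind (P a) = ((s.filter P).card : ℝ) := by
  rw [Finset.card_filter]
  push_cast
  refine Finset.sum_congr rfl fun a _ => ?_
  by_cases h : P a
  · rw [ind_pos h, if_pos h]
  · rw [ind_neg h, if_neg h]

lemma sum_mul_ind_eq_filter {α : Type*} (s : Finset α) (P : α → Prop) [DecidablePred P]
    (f : α → ℝ) : ∑ a ∈ s, f a * ind (P a) = ∑ a ∈ s.filter P, f a := by
  rw [Finset.sum_filter]
  refine Finset.sum_congr rfl fun a _ => ?_
  by_cases h : P a
  · rw [ind_pos h, if_pos h, mul_one]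
  · rw [ind_neg h, if_neg h, mul_zero]

lemma one_sub_sum_le_ind {α : Type*} (s : Finset α) (P : α → Prop) :
    1 - ∑ a ∈ s, ind (P a) ≤ ind (∀ a ∈ s, ¬ P a) := by
  have hnn : ∀ a ∈ s, 0 ≤ ind (P a) := fun a _ => ind_nonneg _
  by_cases h : ∀ a ∈ s, ¬ P a
  · rw [ind_pos h]
    have := Finset.sum_nonneg hnn
    linarith
  · rw [ind_neg h]
    push Not at h
    obtain ⟨a, ha, hPa⟩ := h
    have := Finset.single_le_sum hnn ha
    simp only [ind_pos hPa] at this
    linarith

/-- Mass of an event in a finite weighted space. -/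
noncomputable def mass {Ω : Type*} [Fintype Ω] (w : Ω → ℝ) (A : Ω → Prop) : ℝ :=
  ∑ ω, w ω * ind (A ω)

section
variable {Ω : Type*} [Fintype Ω]

lemma mass_nonneg {w : Ω → ℝ} (hw : ∀ ω, 0 ≤ w ω) (A : Ω → Prop) : 0 ≤ mass w A :=
  Finset.sum_nonneg fun ω _ => mul_nonneg (hw ω) (ind_nonneg _)

lemma mass_mono {w : Ω → ℝ} (hw : ∀ ω, 0 ≤ w ω) {A B : Ω → Prop} (h : ∀ ω, A ω → B ω) :
    mass w A ≤ mass w B :=
  Finset.sum_le_sum fun ω _ => mul_le_mul_of_nonneg_left (ind_mono (h ω)) (hw ω)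

lemma mass_congr {w : Ω → ℝ} {A B : Ω → Prop} (h : ∀ ω, A ω ↔ B ω) :
    mass w A = mass w B := by
  have : A = B := funext fun ω => propext (h ω)
  rw [this]

lemma mass_split (w : Ω → ℝ) (A B : Ω → Prop) :
    mass w B = mass w (fun ω => A ω ∧ B ω) + mass w (fun ω => ¬ A ω ∧ B ω) := by
  unfold mass
  rw [← Finset.sum_add_distrib]
  refine Finset.sum_congr rfl fun ω _ => ?_
  rw [ind_and, ind_and, ind_not]
  ring

lemma mass_union_le {w : Ω → ℝ} (hw : ∀ ω, 0 ≤ w ω) {J : Type*} (S : Finset J)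
    (A : J → Ω → Prop) (B : Ω → Prop) :
    mass w B ≤ mass w (fun ω => (∀ i ∈ S, ¬ A i ω) ∧ B ω) +
      ∑ i ∈ S, mass w (fun ω => A i ω ∧ B ω) := by
  unfold mass
  rw [Finset.sum_comm, ← Finset.sum_add_distrib]
  refine Finset.sum_le_sum fun ω _ => ?_
  rw [← Finset.mul_sum, ← mul_add]
  refine mul_le_mul_of_nonneg_left ?_ (hw ω)
  simp only [ind_and]
  rw [← Finset.sum_mul, ← add_mul]
  have h1 := one_sub_sum_le_ind S (fun i => A i ω)
  have h2 := ind_nonneg (B ω)
  nlinarith

lemma exists_of_mass_pos {w : Ω → ℝ} (hw : ∀ ω, 0 ≤ w ω) {A : Ω → Prop} (h : 0 < mass w A) :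
    ∃ ω, 0 < w ω ∧ A ω := by
  by_contra hne
  push Not at hne
  have : mass w A ≤ 0 := by
    unfold mass
    refine Finset.sum_nonpos fun ω _ => ?_
    by_cases hA : A ω
    · have h1 : ¬ 0 < w ω := fun h => hne ω h hA
      have h2 : w ω = 0 := le_antisymm (not_lt.mp h1) (hw ω)
      simp [h2]
    · rw [ind_neg hA, mul_zero]
  linarith

/-- The symmetric local lemma, in conditional form. -/
theorem lll {J : Type*} [Fintype J] [DecidableEq J] (w : Ω → ℝ) (hw : ∀ ω, 0 ≤ w ω)
    (hw1 : ∑ ω, w ω = 1) (A : J → Ω → Prop) (Γ : J → Finset J) (d : ℝ) (p : ℝ)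
    (hd : ∀ j, ((Γ j).card : ℝ) ≤ d) (hd1 : 1 ≤ d) (hp0 : 0 ≤ p) (hp : 4 * p * d ≤ 1)
    (hA : ∀ j (S : Finset J), (∀ i ∈ S, i ∉ Γ j) →
      mass w (fun ω => A j ω ∧ ∀ i ∈ S, ¬ A i ω) ≤ p * mass w (fun ω => ∀ i ∈ S, ¬ A i ω)) :
    ∃ ω, 0 < w ω ∧ ∀ j, ¬ A j ω := by
  have key : ∀ n : ℕ, ∀ S : Finset J, S.card = n → ∀ j,
      mass w (fun ω => A j ω ∧ ∀ i ∈ S, ¬ A i ω) ≤
        2 * p * mass w (fun ω => ∀ i ∈ S, ¬ A i ω) := by
    intro n
    induction n using Nat.strong_induction_on with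
    | _ n ih =>
      intro S hS j
      set S1 := S.filter (fun i => i ∈ Γ j) with hS1
      set S2 := S.filter (fun i => i ∉ Γ j) with hS2
      have h2 := hA j S2 (fun i hi => (Finset.mem_filter.mp hi).2)
      have hP2 := mass_nonneg hw (fun ω => ∀ i ∈ S2, ¬ A i ω)
      have hP := mass_nonneg hw (fun ω => ∀ i ∈ S, ¬ A i ω)
      have h3 : mass w (fun ω => A j ω ∧ ∀ i ∈ S, ¬ A i ω) ≤
          mass w (fun ω => A j ω ∧ ∀ i ∈ S2, ¬ A i ω) :=
        mass_mono hw fun ω h => ⟨h.1, fun i hi => h.2 i (Finset.mem_filter.mp hi).1⟩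
      have h4 : mass w (fun ω => ∀ i ∈ S2, ¬ A i ω) ≤
          2 * mass w (fun ω => ∀ i ∈ S, ¬ A i ω) := by
        by_cases hemp : S1 = ∅
        · have : S2 = S := by
            apply Finset.filter_true_of_mem
            intro i hi hi'
            have : i ∈ S1 := Finset.mem_filter.mpr ⟨hi, hi'⟩
            rw [hemp] at this
            simp at this
          rw [this]
          linarith
        · have hlt : S2.card < n := by
            rw [← hS]
            apply Finset.card_lt_card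
            refine ⟨Finset.filter_subset _ _, fun hsub => hemp ?_⟩
            apply Finset.eq_empty_of_forall_notMem
            intro i hi
            have h1 := Finset.mem_filter.mp hi
            exact (Finset.mem_filter.mp (hsub h1.1)).2 h1.2
          have h5 := mass_union_le hw S1 A (fun ω => ∀ i ∈ S2, ¬ A i ω)
          have h6 : mass w (fun ω => (∀ i ∈ S1, ¬ A i ω) ∧ ∀ i ∈ S2, ¬ A i ω) =
              mass w (fun ω => ∀ i ∈ S, ¬ A i ω) := by
            apply mass_congr
            intro ω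
            constructor
            · rintro ⟨ha, hb⟩ i hi
              by_cases hi' : i ∈ Γ j
              · exact ha i (Finset.mem_filter.mpr ⟨hi, hi'⟩)
              · exact hb i (Finset.mem_filter.mpr ⟨hi, hi'⟩)
            · intro h
              exact ⟨fun i hi => h i (Finset.mem_filter.mp hi).1,
                fun i hi => h i (Finset.mem_filter.mp hi).1⟩
          have h7 : ∑ i ∈ S1, mass w (fun ω => A i ω ∧ ∀ i ∈ S2, ¬ A i ω) ≤
              ∑ _i ∈ S1, 2 * p * mass w (fun ω => ∀ i ∈ S2, ¬ A i ω) :=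
            Finset.sum_le_sum fun i _ => ih _ hlt S2 rfl i
          rw [Finset.sum_const, nsmul_eq_mul] at h7
          have h8 : (S1.card : ℝ) ≤ d := by
            refine le_trans ?_ (hd j)
            exact_mod_cast Finset.card_le_card fun i hi => (Finset.mem_filter.mp hi).2
          have h9 : (S1.card : ℝ) * (2 * p * mass w (fun ω => ∀ i ∈ S2, ¬ A i ω)) ≤
              d * (2 * p * mass w (fun ω => ∀ i ∈ S2, ¬ A i ω)) :=
            mul_le_mul_of_nonneg_right h8 (by positivity)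
          rw [h6] at h5
          nlinarith
      calc mass w (fun ω => A j ω ∧ ∀ i ∈ S, ¬ A i ω)
          ≤ p * mass w (fun ω => ∀ i ∈ S2, ¬ A i ω) := h3.trans h2
        _ ≤ p * (2 * mass w (fun ω => ∀ i ∈ S, ¬ A i ω)) := mul_le_mul_of_nonneg_left h4 hp0
        _ = _ := by ring
  have pos : ∀ S : Finset J, 0 < mass w (fun ω => ∀ i ∈ S, ¬ A i ω) := by
    intro S
    induction S using Finset.induction_on with
    | empty =>
      unfold mass
      simp [hw1, ind]
    | insert j S hj ih =>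
      have h1 := mass_split w (A j) (fun ω => ∀ i ∈ S, ¬ A i ω)
      have h2 := key _ S rfl j
      have h3 : mass w (fun ω => ∀ i ∈ insert j S, ¬ A i ω) =
          mass w (fun ω => ¬ A j ω ∧ ∀ i ∈ S, ¬ A i ω) := by
        apply mass_congr
        intro ω
        simp
      rw [h3]
      have h4 : 4 * p ≤ 1 := by nlinarith
      nlinarith
  obtain ⟨ω, h1, h2⟩ := exists_of_mass_pos hw (pos Finset.univ)
  exact ⟨ω, h1, fun j => h2 j (Finset.mem_univ j)⟩

end

end Pool.Agent.Lib.MP_f8e628_co
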