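import Mathlib
import Pool.Agent.Lib.MP_f8e628_co.LLL

set_option autoImplicit false

open Finset

namespace Pool.Agent.Lib.MP_f8e628_co

/-- Product weight. -/
noncomputable def pw {ι α : Type*} [Fintype ι] (ν : ι → α → ℝ) (ξ : ι → α) : ℝ :=
  ∏ i, ν i (ξ i)

section
variable {ι α : Type*} [Fintype ι] [DecidableEq ι] [Fintype α]

omit [DecidableEq ι] [Fintype α] in
lemma pw_nonneg {ν : ι → α → ℝ} (h : ∀ i a, 0 ≤ ν i a) (ξ : ι → α) : 0 ≤ pw ν ξ :=
  Finset.prod_nonneg fun i _ => h i _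

lemma pw_sum_prod (ν : ι → α → ℝ) (f : ι → α → ℝ) :
    ∑ ξ : ι → α, pw ν ξ * ∏ i, f i (ξ i) = ∏ i, ∑ a, ν i a * f i a := by
  rw [Finset.prod_univ_sum]
  simp only [Fintype.piFinset_univ]
  refine Finset.sum_congr rfl fun ξ _ => ?_
  unfold pw
  rw [← Finset.prod_mul_distrib]

lemma pw_sum_one {ν : ι → α → ℝ} (h : ∀ i, ∑ a, ν i a = 1) : ∑ ξ : ι → α, pw ν ξ = 1 := by
  have := pw_sum_prod ν (fun _ _ => 1)
  simpa [h] using this

lemma pw_swap (ν : ι → α → ℝ) (D : Finset ι) (F : (ι → α) → (ι → α) → ℝ) :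
    ∑ ξ : ι → α, ∑ ξ' : ι → α, pw ν ξ * pw ν ξ' * F ξ ξ' =
    ∑ ξ : ι → α, ∑ ξ' : ι → α, pw ν ξ * pw ν ξ' *
      F (D.piecewise ξ ξ') (D.piecewise ξ' ξ) := by
  rw [← Fintype.sum_prod_type' (fun ξ ξ' => pw ν ξ * pw ν ξ' * F ξ ξ'),
    ← Fintype.sum_prod_type' (fun ξ ξ' => pw ν ξ * pw ν ξ' *
      F (D.piecewise ξ ξ') (D.piecewise ξ' ξ))]
  let φ : (ι → α) × (ι → α) → (ι → α) × (ι → α) :=
    fun x => (D.piecewise x.1 x.2, D.piecewise x.2 x.1)
  have hφ : Function.Involutive φ := by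
    intro x
    ext i
    · by_cases hi : i ∈ D <;> simp [φ, hi]
    · by_cases hi : i ∈ D <;> simp [φ, hi]
  symm
  refine Fintype.sum_equiv hφ.toPerm _ _ fun x => ?_
  simp only [Function.Involutive.coe_toPerm, φ]
  congr 1
  unfold pw
  rw [← Finset.prod_mul_distrib, ← Finset.prod_mul_distrib]
  refine Finset.prod_congr rfl fun i _ => ?_
  by_cases hi : i ∈ D
  · simp [hi]
  · simp [hi, mul_comm]

lemma pw_indep {ν : ι → α → ℝ} (h : ∀ i, ∑ a, ν i a = 1) (D : Finset ι)
    (X g : (ι → α) → ℝ) (hX : ∀ ξ ξ', (∀ i ∈ D, ξ i = ξ' i) → X ξ = X ξ')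
    (hg : ∀ ξ ξ', (∀ i, i ∉ D → ξ i = ξ' i) → g ξ = g ξ') :
    ∑ ξ, pw ν ξ * (X ξ * g ξ) = (∑ ξ, pw ν ξ * X ξ) * ∑ ξ, pw ν ξ * g ξ := by
  have h1 := pw_swap ν D (fun ξ _ => X ξ * g ξ)
  have h2 : ∀ ξ ξ' : ι → α, X (D.piecewise ξ ξ') * g (D.piecewise ξ ξ') = X ξ * g ξ' := by
    intro ξ ξ'
    rw [hX (D.piecewise ξ ξ') ξ (fun i hi => by simp [hi]),
      hg (D.piecewise ξ ξ') ξ' (fun i hi => by simp [hi])]
  simp only [h2] at h1
  rw [Finset.sum_mul_sum]
  have h3 : ∀ ξ : ι → α, ∑ ξ' : ι → α, pw ν ξ * pw ν ξ' * (X ξ * g ξ) =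
      pw ν ξ * (X ξ * g ξ) := by
    intro ξ
    have : ∀ ξ' : ι → α, pw ν ξ * pw ν ξ' * (X ξ * g ξ) = pw ν ξ * (X ξ * g ξ) * pw ν ξ' :=
      fun ξ' => by ring
    simp only [this]
    rw [← Finset.mul_sum, pw_sum_one h, mul_one]
  simp only [h3] at h1
  rw [h1]
  refine Finset.sum_congr rfl fun ξ _ => Finset.sum_congr rfl fun ξ' _ => by ring

lemma pw_resample {ν : ι → α → ℝ} (h : ∀ i, ∑ a, ν i a = 1) (c : ι) (F : (ι → α) → ℝ) :
    ∑ ξ, pw ν ξ * F ξ = ∑ ξ, pw ν ξ * ∑ a, ν c a * F (Function.update ξ c a) := by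
  have h1 := pw_swap ν ({c}ᶜ) (fun ξ _ => F ξ)
  have h3 : ∀ ξ : ι → α, ∑ ξ' : ι → α, pw ν ξ * pw ν ξ' * F ξ = pw ν ξ * F ξ := by
    intro ξ
    have : ∀ ξ' : ι → α, pw ν ξ * pw ν ξ' * F ξ = pw ν ξ * F ξ * pw ν ξ' :=
      fun ξ' => by ring
    simp only [this]
    rw [← Finset.mul_sum, pw_sum_one h, mul_one]
  simp only [h3] at h1
  rw [h1]
  refine Finset.sum_congr rfl fun ξ _ => ?_
  have h4 : ∀ ξ' : ι → α, ({c}ᶜ : Finset ι).piecewise ξ ξ' = Function.update ξ c (ξ' c) := by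
    intro ξ'
    funext i
    by_cases hi : i = c
    · subst hi; simp
    · simp [hi]
  simp only [h4, mul_assoc]
  rw [← Finset.mul_sum]
  congr 1
  have h5 := pw_sum_prod ν (fun i a => if i = c then F (Function.update ξ c a) else 1)
  have h6 : ∀ ξ' : ι → α, ∏ i, (if i = c then F (Function.update ξ c (ξ' i)) else 1) =
      F (Function.update ξ c (ξ' c)) := by
    intro ξ'
    rw [Finset.prod_ite_eq' Finset.univ c (fun i => F (Function.update ξ c (ξ' i)))]
    simp
  simp only [h6] at h5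
  rw [h5, Finset.prod_eq_single c]
  · simp
  · intro b _ hb
    simp [hb, h]
  · simp

end

lemma exp_neg_le_quad {x : ℝ} (hx : 0 ≤ x) : Real.exp (-x) ≤ 1 - x + x ^ 2 / 2 := by
  have h1 := Real.quadratic_le_exp_of_nonneg hx
  have h2 : 0 < Real.exp x := Real.exp_pos x
  rw [Real.exp_neg, inv_le_iff_one_le_mul₀ h2]
  have h3 : 0 ≤ 1 - x + x ^ 2 / 2 := by nlinarith [sq_nonneg (x - 1)]
  calc (1 : ℝ) ≤ (1 - x + x ^ 2 / 2) * (1 + x + x ^ 2 / 2) := by nlinarith [sq_nonneg (x ^ 2)]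
    _ ≤ _ := mul_le_mul_of_nonneg_left h1 h3

/-- Independent colours, Hoeffding and the local lemma, in one statement. -/
theorem lc {C J Ω : Type*} [Fintype C] [DecidableEq C] [Fintype J] [DecidableEq J] [Fintype Ω]
    (μ : C → Ω → ℝ) (hμ0 : ∀ c ω, 0 ≤ μ c ω) (hμ1 : ∀ c, ∑ ω, μ c ω = 1)
    (Cs : J → Finset C) (s : ℝ) (hs0 : 0 < s) (hs : ∀ j, ((Cs j).card : ℝ) ≤ s)
    (X : J → C → Ω → ℝ) (hX : ∀ j c ω, μ c ω ≠ 0 → 0 ≤ X j c ω ∧ X j c ω ≤ 1)
    (m : J → C → ℝ) (R : J → C → Ω → Ω → Prop)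
    (Γ : J → Finset J) (d : ℝ) (hd : ∀ j, ((Γ j).card : ℝ) ≤ d) (hd1 : 1 ≤ d)
    (hdep : ∀ j j', j' ∉ Γ j → ∀ c ∈ Cs j, c ∈ Cs j' → ∀ ω ω', R j c ω ω' →
      X j' c ω = X j' c ω')
    (hmean : ∀ j, ∀ c ∈ Cs j, ∀ g : Ω → ℝ, (∀ ω, 0 ≤ g ω) →
      (∀ ω ω', R j c ω ω' → g ω = g ω') →
      m j c * ∑ ω, μ c ω * g ω ≤ ∑ ω, μ c ω * (X j c ω * g ω))
    (a : ℝ) (ha : 0 ≤ a) (hnum : 4 * Real.exp (-(a ^ 2 / (2 * s))) * d ≤ 1) :
    ∃ ω : C → Ω, (∀ c, μ c (ω c) ≠ 0) ∧
      ∀ j, ∑ c ∈ Cs j, m j c - a ≤ ∑ c ∈ Cs j, X j c (ω c) := by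
  set θ := a / s with hθ
  have hθ0 : 0 ≤ θ := div_nonneg ha hs0.le
  let A : J → (C → Ω) → Prop := fun j ω => ∑ c ∈ Cs j, X j c (ω c) < ∑ c ∈ Cs j, m j c - a
  have hw := pw_nonneg hμ0
  obtain ⟨ω, h1, h2⟩ := lll (pw μ) hw (pw_sum_one hμ1) A Γ d
    (Real.exp (-(a ^ 2 / (2 * s)))) hd hd1 (Real.exp_pos _).le hnum (by
      intro j S hS
      set E : (C → Ω) → Prop := fun ω => ∀ i ∈ S, ¬ A i ω with hE
      have key : ∀ T : Finset C, T ⊆ Cs j →
          ∑ ω : C → Ω, pw μ ω * ((∏ c ∈ T, Real.exp (-(θ * X j c (ω c)))) * ind (E ω)) ≤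
          (∏ c ∈ T, Real.exp (-(θ * m j c) + θ ^ 2 / 2)) * mass (pw μ) E := by
        intro T
        induction T using Finset.induction_on with
        | empty => intro _; simp [mass]
        | insert c T hc ih =>
          intro hT
          have hcT : c ∈ Cs j := hT (Finset.mem_insert_self _ _)
          have ih' := ih (fun x hx => hT (Finset.mem_insert_of_mem hx))
          rw [Finset.prod_insert hc, mul_assoc]
          refine le_trans ?_ (mul_le_mul_of_nonneg_left ih' (Real.exp_pos _).le)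
          rw [pw_resample hμ1 c, pw_resample hμ1 c
            (fun ω => (∏ c ∈ T, Real.exp (-(θ * X j c (ω c)))) * ind (E ω)), Finset.mul_sum]
          refine Finset.sum_le_sum fun ω _ => ?_
          rw [mul_left_comm]
          refine mul_le_mul_of_nonneg_left ?_ (hw ω)
          set g : Ω → ℝ := fun x => (∏ c' ∈ T, Real.exp (-(θ * X j c'
            (Function.update ω c x c')))) * ind (E (Function.update ω c x)) with hg
          have hg0 : ∀ x, 0 ≤ g x := fun x =>
            mul_nonneg (Finset.prod_nonneg fun _ _ => (Real.exp_pos _).le) (ind_nonneg _)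
          have hgR : ∀ x x', R j c x x' → g x = g x' := by
            intro x x' hR
            simp only [hg]
            congr 1
            · refine Finset.prod_congr rfl fun c' hc' => ?_
              have : c' ≠ c := fun h => hc (h ▸ hc')
              simp [Function.update_of_ne this]
            · apply ind_congr
              simp only [hE, A]
              refine forall₂_congr fun i hi => ?_
              have : ∑ c' ∈ Cs i, X i c' (Function.update ω c x c') =
                  ∑ c' ∈ Cs i, X i c' (Function.update ω c x' c') := by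
                refine Finset.sum_congr rfl fun c' hc' => ?_
                by_cases hcc : c' = c
                · subst hcc
                  simp only [Function.update_self]
                  exact hdep j i (hS i hi) c' hcT hc' x x' hR
                · simp [Function.update_of_ne hcc]
              rw [this]
          have hm := hmean j c hcT g hg0 hgR
          have hsum0 : 0 ≤ ∑ x, μ c x * g x :=
            Finset.sum_nonneg fun x _ => mul_nonneg (hμ0 c x) (hg0 x)
          have h3 : ∑ x, μ c x * ((∏ c' ∈ insert c T, Real.exp (-(θ * X j c'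
              (Function.update ω c x c')))) * ind (E (Function.update ω c x))) ≤
              ∑ x, ((1 + θ ^ 2 / 2) * (μ c x * g x) - θ * (μ c x * (X j c x * g x))) := by
            refine Finset.sum_le_sum fun x _ => ?_
            rw [Finset.prod_insert hc, Function.update_self, mul_assoc]
            change μ c x * (Real.exp (-(θ * X j c x)) * g x) ≤ _
            by_cases hx : μ c x = 0
            · simp [hx]
            · obtain ⟨hX0, hX1⟩ := hX j c x hx
              have h4 := exp_neg_le_quad (mul_nonneg hθ0 hX0)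
              have h5 : (θ * X j c x) ^ 2 ≤ θ ^ 2 := by
                rw [mul_pow]
                have : X j c x ^ 2 ≤ 1 := by nlinarith
                nlinarith [sq_nonneg θ]
              have h6 : Real.exp (-(θ * X j c x)) ≤ 1 + θ ^ 2 / 2 - θ * X j c x := by linarith
              have h7 : 0 ≤ μ c x * g x := mul_nonneg (hμ0 c x) (hg0 x)
              calc μ c x * (Real.exp (-(θ * X j c x)) * g x)
                  = Real.exp (-(θ * X j c x)) * (μ c x * g x) := by ring
                _ ≤ (1 + θ ^ 2 / 2 - θ * X j c x) * (μ c x * g x) :=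
                  mul_le_mul_of_nonneg_right h6 h7
                _ = _ := by ring
          refine h3.trans ?_
          rw [Finset.sum_sub_distrib, ← Finset.mul_sum, ← Finset.mul_sum]
          have h8 := Real.add_one_le_exp (-(θ * m j c) + θ ^ 2 / 2)
          have h9 := mul_le_mul_of_nonneg_left hm hθ0
          have h10 := mul_le_mul_of_nonneg_right h8 hsum0
          change _ ≤ Real.exp (-(θ * m j c) + θ ^ 2 / 2) * ∑ x, μ c x * g x
          nlinarith
      have k1 := key (Cs j) subset_rfl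
      have k2 : mass (pw μ) (fun ω => A j ω ∧ E ω) ≤
          Real.exp (θ * (∑ c ∈ Cs j, m j c - a)) * ∑ ω : C → Ω, pw μ ω *
            ((∏ c ∈ Cs j, Real.exp (-(θ * X j c (ω c)))) * ind (E ω)) := by
        unfold mass
        rw [Finset.mul_sum]
        refine Finset.sum_le_sum fun ω _ => ?_
        rw [mul_left_comm]
        refine mul_le_mul_of_nonneg_left ?_ (hw ω)
        rw [ind_and, ← mul_assoc]
        refine mul_le_mul_of_nonneg_right ?_ (ind_nonneg _)
        rw [← Real.exp_sum, ← Real.exp_add]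
        by_cases hA : A j ω
        · rw [ind_pos hA]
          apply Real.one_le_exp
          rw [Finset.sum_neg_distrib, ← Finset.mul_sum]
          simp only [A] at hA
          nlinarith
        · rw [ind_neg hA]
          exact (Real.exp_pos _).le
      refine k2.trans ?_
      refine (mul_le_mul_of_nonneg_left k1 (Real.exp_pos _).le).trans ?_
      rw [← mul_assoc]
      refine mul_le_mul_of_nonneg_right ?_ (mass_nonneg hw _)
      rw [← Real.exp_sum, ← Real.exp_add]
      apply Real.exp_le_exp.mpr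
      rw [Finset.sum_add_distrib, Finset.sum_neg_distrib, ← Finset.mul_sum, Finset.sum_const,
        nsmul_eq_mul]
      have h11 : ((Cs j).card : ℝ) * (θ ^ 2 / 2) ≤ s * (θ ^ 2 / 2) :=
        mul_le_mul_of_nonneg_right (hs j) (by positivity)
      have h12 : s * (θ ^ 2 / 2) - θ * a = -(a ^ 2 / (2 * s)) := by
        rw [hθ]; field_simp; ring
      nlinarith)
  refine ⟨ω, fun c hc => ?_, fun j => not_lt.mp (h2 j)⟩
  have : pw μ ω = 0 := Finset.prod_eq_zero (Finset.mem_univ c) hc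
  linarith

end Pool.Agent.Lib.MP_f8e628_co
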