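import Mathlib
import Pool.Agent.Lib.MP_f8e628_co.LLL

set_option autoImplicit false

open Finset

namespace Pool.Agent.Lib.MP_f8e628_co

/-- `near adj k u v`: there is a walk with `k` steps from `u` to `v`. -/
def near {V : Type*} (adj : V → V → Prop) : ℕ → V → V → Prop
  | 0, u, v => u = v
  | k + 1, u, v => ∃ w, near adj k u w ∧ adj w v

section
variable {V : Type*} {adj : V → V → Prop}

lemma near_step {k : ℕ} {u w v : V} (h : near adj k u w) (h' : adj w v) :
    near adj (k + 1) u v := ⟨w, h, h'⟩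

lemma near_one {u v : V} (h : adj u v) : near adj 1 u v := ⟨u, rfl, h⟩

lemma near_trans {k l : ℕ} {u w v : V} (h : near adj k u w) (h' : near adj l w v) :
    near adj (k + l) u v := by
  induction l generalizing v with
  | zero =>
    have : w = v := h'
    subst this
    exact h
  | succ l ih =>
    obtain ⟨x, hx, hx'⟩ := h'
    exact ⟨x, ih hx, hx'⟩

lemma near_mono (hrefl : ∀ u, adj u u) {k l : ℕ} (hkl : k ≤ l) {u v : V} (h : near adj k u v) :
    near adj l u v := by
  induction hkl with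
  | refl => exact h
  | step _ ih => exact ⟨v, ih, hrefl v⟩

lemma near_refl (hrefl : ∀ u, adj u u) (k : ℕ) (u : V) : near adj k u u :=
  near_mono hrefl (Nat.zero_le k) (show near adj 0 u u from rfl)

lemma near_symm (hsymm : ∀ u v, adj u v → adj v u) {k : ℕ} {u v : V} (h : near adj k u v) :
    near adj k v u := by
  induction k generalizing v with
  | zero => exact (show u = v from h).symm
  | succ k ih =>
    obtain ⟨x, hx, hx'⟩ := h
    have := near_trans (near_one (hsymm _ _ hx')) (ih hx)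
    rwa [add_comm] at this

open Classical in
/-- The ball of radius `k`. -/
noncomputable def ball [Fintype V] (adj : V → V → Prop) (k : ℕ) (u : V) : Finset V :=
  Finset.univ.filter (fun v => near adj k u v)

lemma mem_ball [Fintype V] {k : ℕ} {u v : V} : v ∈ ball adj k u ↔ near adj k u v := by
  simp [ball]

lemma card_ball_le [Fintype V] {Δ : ℝ} (hΔ : ∀ u, ((ball adj 1 u).card : ℝ) ≤ Δ) (k : ℕ) (u : V) :
    ((ball adj k u).card : ℝ) ≤ Δ ^ k := by
  classical
  induction k with
  | zero =>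
    have : ball adj 0 u = {u} := by
      ext v
      simp [mem_ball, near, eq_comm]
    simp [this]
  | succ k ih =>
    have h1 : ball adj (k + 1) u ⊆ (ball adj k u).biUnion (fun w => ball adj 1 w) := by
      intro v hv
      obtain ⟨w, hw, hw'⟩ := mem_ball.mp hv
      exact Finset.mem_biUnion.mpr ⟨w, mem_ball.mpr hw, mem_ball.mpr (near_one hw')⟩
    have h2 : ((ball adj (k + 1) u).card : ℝ) ≤ ∑ w ∈ ball adj k u, ((ball adj 1 w).card : ℝ) := by
      exact_mod_cast (Finset.card_le_card h1).trans Finset.card_biUnion_le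
    have h3 : ∑ w ∈ ball adj k u, ((ball adj 1 w).card : ℝ) ≤ ∑ _w ∈ ball adj k u, Δ :=
      Finset.sum_le_sum fun w _ => hΔ w
    rw [Finset.sum_const, nsmul_eq_mul] at h3
    have h4 : 0 ≤ Δ := le_trans (Nat.cast_nonneg _) (hΔ u)
    calc _ ≤ ((ball adj k u).card : ℝ) * Δ := h2.trans h3
      _ ≤ Δ ^ k * Δ := mul_le_mul_of_nonneg_right ih h4
      _ = Δ ^ (k + 1) := by ring

end

lemma one_sub_sum_le_prod {α : Type*} (s : Finset α) (x : α → ℝ) (h0 : ∀ a ∈ s, 0 ≤ x a)
    (h1 : ∀ a ∈ s, x a ≤ 1) : 1 - ∑ a ∈ s, x a ≤ ∏ a ∈ s, (1 - x a) := by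
  classical
  induction s using Finset.induction_on with
  | empty => simp
  | insert a s ha ih =>
    rw [Finset.sum_insert ha, Finset.prod_insert ha]
    have ih' := ih (fun b hb => h0 b (Finset.mem_insert_of_mem hb))
      (fun b hb => h1 b (Finset.mem_insert_of_mem hb))
    have h2 := h0 a (Finset.mem_insert_self _ _)
    have h3 := h1 a (Finset.mem_insert_self _ _)
    have h4 : 0 ≤ ∑ b ∈ s, x b := Finset.sum_nonneg fun b hb => h0 b (Finset.mem_insert_of_mem hb)
    nlinarith [mul_le_mul_of_nonneg_left ih' (sub_nonneg.mpr h3), mul_nonneg h2 h4]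

/-- Chebyshev in the form used twice below. -/
lemma cheb {Ω : Type*} [Fintype Ω] (ν : Ω → ℝ) (hν : ∀ ω, 0 ≤ ν ω) (L : Ω → ℝ) (m ζ B : ℝ)
    (hm1 : m ≤ 1) (hζ : 0 < ζ)
    (h : ∑ ω, ν ω * L ω ^ 2 - 2 * m * ∑ ω, ν ω * L ω + m ^ 2 * ∑ ω, ν ω ≤ B) :
    ∑ ω, ν ω * ind (1 + ζ < L ω) ≤ B / ζ ^ 2 := by
  rw [le_div_iff₀ (by positivity)]
  refine le_trans ?_ h
  rw [Finset.sum_mul, Finset.mul_sum, Finset.mul_sum, ← Finset.sum_sub_distrib,
    ← Finset.sum_add_distrib]
  refine Finset.sum_le_sum fun ω _ => ?_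
  have h1 : ind (1 + ζ < L ω) * ζ ^ 2 ≤ (L ω - m) ^ 2 := by
    by_cases hL : 1 + ζ < L ω
    · rw [ind_pos hL, one_mul]
      have : ζ ≤ L ω - m := by linarith
      exact pow_le_pow_left₀ hζ.le this 2
    · rw [ind_neg hL, zero_mul]
      positivity
  have h2 := mul_le_mul_of_nonneg_left h1 (hν ω)
  nlinarith

end Pool.Agent.Lib.MP_f8e628_co
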