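import Mathlib
import Pool.Agent.Lib.MP_f8e628_co.Colours
import Pool.Agent.Lib.MP_f8e628_co.Near

set_option autoImplicit false

open Finset

namespace Pool.Agent.Lib.MP_f8e628_co

/-- Bernoulli weights. -/
def bern {ι : Type*} (p : ι → ℝ) (e : ι) (b : Bool) : ℝ := if b then p e else 1 - p e

lemma bern_sum {ι : Type*} (p : ι → ℝ) (e : ι) : ∑ b, bern p e b = 1 := by
  simp [bern]

lemma bern_nonneg {ι : Type*} {p : ι → ℝ} (h0 : ∀ e, 0 ≤ p e) (h1 : ∀ e, p e ≤ 1) (e : ι)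
    (b : Bool) : 0 ≤ bern p e b := by
  cases b
  · simpa [bern] using h1 e
  · simpa [bern] using h0 e

lemma ex_pattern {ι : Type*} [Fintype ι] [DecidableEq ι] (p : ι → ℝ) (A : Finset ι)
    (b : ι → Bool) :
    ∑ ξ : ι → Bool, pw (bern p) ξ * ind (∀ e ∈ A, ξ e = b e) = ∏ e ∈ A, bern p e (b e) := by
  have h1 := pw_sum_prod (bern p) (fun e x => if e ∈ A then ind (x = b e) else 1)
  have h2 : ∀ ξ : ι → Bool, ∏ e, (if e ∈ A then ind (ξ e = b e) else 1) =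
      ind (∀ e ∈ A, ξ e = b e) := by
    intro ξ
    rw [ind_forall_mem, Finset.prod_ite_mem, Finset.univ_inter]
  simp only [h2] at h1
  have h3 : ∏ e ∈ A, bern p e (b e) = ∏ e, if e ∈ A then bern p e (b e) else 1 := by
    rw [Finset.prod_ite_mem, Finset.univ_inter]
  rw [h1, h3]
  refine Finset.prod_congr rfl fun e _ => ?_
  by_cases he : e ∈ A
  · simp only [he, if_true]
    cases hb : b e <;> simp [ind]
  · simp only [he, if_false, mul_one]
    exact bern_sum p e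

section
variable {V ι : Type*} [DecidableEq V]

/-- Total weight at a vertex. -/
noncomputable def load (E : Finset ι) (r : ι → Finset V) (W : ι → ℝ) (u : V) : ℝ :=
  ∑ e ∈ E with u ∈ r e, W e

/-- A fractional matching with small codegrees. -/
structure FracM (E : Finset ι) (r : ι → Finset V) (W : ι → ℝ) (γ : ℝ) : Prop where
  nonneg : ∀ e, 0 ≤ W e
  supp : ∀ e, e ∉ E → W e = 0
  ne : ∀ e ∈ E, (r e).Nonempty
  card : ∀ e ∈ E, (r e).card ≤ 3
  load_le : ∀ u, load E r W u ≤ 1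
  codeg : ∀ u u', u ≠ u' → ∑ e ∈ E with (u ∈ r e ∧ u' ∈ r e), W e ≤ γ

def surv (E : Finset ι) (r : ι → Finset V) (ξ : ι → Bool) (u : V) : Prop :=
  ∀ e ∈ E, u ∈ r e → ξ e = false

def pick (E : Finset ι) (r : ι → Finset V) (ξ : ι → Bool) (e : ι) : Prop :=
  e ∈ E ∧ ξ e = true ∧ ∀ e' ∈ E, e' ≠ e → ¬ Disjoint (r e) (r e') → ξ e' = false

noncomputable def sig (E : Finset ι) (r : ι → Finset V) (W : ι → ℝ) (δ : ℝ) (u : V) : ℝ :=
  ∏ e ∈ E with u ∈ r e, (1 - δ * W e)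

noncomputable def cf (E : Finset ι) (r : ι → Finset V) (W : ι → ℝ) (δ : ℝ) (e : ι) : ℝ :=
  W e * (1 - δ) / ∏ u ∈ r e, sig E r W δ u

noncomputable def W1 (E : Finset ι) (r : ι → Finset V) (W : ι → ℝ) (δ : ℝ) (ξ : ι → Bool)
    (e : ι) : ℝ :=
  cf E r W δ e * ind (∀ u ∈ r e, surv E r ξ u)

noncomputable def W2 (E : Finset ι) (r : ι → Finset V) (W : ι → ℝ) (δ ζ : ℝ) (ξ : ι → Bool)
    (e : ι) : ℝ :=
  W1 E r W δ ξ e * ind (∀ u ∈ r e, ¬ (1 + ζ < load E r (W1 E r W δ ξ) u)) / (1 + ζ)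

noncomputable def Qs (E : Finset ι) (r : ι → Finset V) (W : ι → ℝ) (δ : ℝ) (U : Finset V) : ℝ :=
  ∏ f ∈ E with ¬ Disjoint (r f) U, (1 - δ * W f)

variable {E : Finset ι} {r : ι → Finset V} {W : ι → ℝ} {γ δ ζ : ℝ}

lemma load_nonneg (h : ∀ e, 0 ≤ W e) (u : V) : 0 ≤ load E r W u :=
  Finset.sum_nonneg fun e _ => h e

lemma FracM.le_one (h : FracM E r W γ) (e : ι) : W e ≤ 1 := by
  by_cases he : e ∈ E
  · obtain ⟨u, hu⟩ := h.ne e he
    refine le_trans ?_ (h.load_le u)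
    exact Finset.single_le_sum (f := W) (fun e _ => h.nonneg e) (Finset.mem_filter.mpr ⟨he, hu⟩)
  · rw [h.supp e he]; norm_num

lemma FracM.p_nonneg (h : FracM E r W γ) (hδ0 : 0 ≤ δ) (e : ι) : 0 ≤ δ * W e :=
  mul_nonneg hδ0 (h.nonneg e)

lemma FracM.p_le_one (h : FracM E r W γ) (hδ0 : 0 ≤ δ) (hδ : δ ≤ 1 / 4) (e : ι) :
    δ * W e ≤ 1 := by
  have := h.le_one e
  have := h.nonneg e
  nlinarith

lemma FracM.sig_ge (h : FracM E r W γ) (hδ0 : 0 ≤ δ) (hδ : δ ≤ 1 / 4) (u : V) :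
    1 - δ ≤ sig E r W δ u := by
  refine le_trans ?_ (one_sub_sum_le_prod _ (fun e => δ * W e) (fun e _ => h.p_nonneg hδ0 e)
    (fun e _ => h.p_le_one hδ0 hδ e))
  rw [← Finset.mul_sum]
  have := h.load_le u
  unfold load at this
  nlinarith

lemma FracM.sig_pos (h : FracM E r W γ) (hδ0 : 0 ≤ δ) (hδ : δ ≤ 1 / 4) (u : V) :
    0 < sig E r W δ u := lt_of_lt_of_le (by linarith) (h.sig_ge hδ0 hδ u)

lemma FracM.sig_le (h : FracM E r W γ) (hδ0 : 0 ≤ δ) (hδ : δ ≤ 1 / 4) (u : V) :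
    sig E r W δ u ≤ 1 :=
  Finset.prod_le_one (fun e _ => by linarith [h.p_le_one hδ0 hδ e])
    (fun e _ => by linarith [h.p_nonneg hδ0 e])

lemma FracM.Qs_nonneg (h : FracM E r W γ) (hδ0 : 0 ≤ δ) (hδ : δ ≤ 1 / 4) (U : Finset V) :
    0 ≤ Qs E r W δ U :=
  Finset.prod_nonneg (fun e _ => by linarith [h.p_le_one hδ0 hδ e])

lemma FracM.Qs_le_one (h : FracM E r W γ) (hδ0 : 0 ≤ δ) (hδ : δ ≤ 1 / 4) (U : Finset V) :
    Qs E r W δ U ≤ 1 :=
  Finset.prod_le_one (fun e _ => by linarith [h.p_le_one hδ0 hδ e])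
    (fun e _ => by linarith [h.p_nonneg hδ0 e])

lemma Qs_insert (w : V) (U : Finset V) :
    Qs E r W δ (insert w U) =
      Qs E r W δ U * ∏ f ∈ E with (w ∈ r f ∧ Disjoint (r f) U), (1 - δ * W f) := by
  classical
  unfold Qs
  rw [← Finset.prod_union]
  · refine Finset.prod_congr ?_ fun _ _ => rfl
    ext f
    simp only [Finset.mem_filter, Finset.mem_union, Finset.disjoint_insert_right]
    tauto
  · rw [Finset.disjoint_left]
    intro f hf hf'
    exact (Finset.mem_filter.mp hf).2 (Finset.mem_filter.mp hf').2.2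

lemma sig_split (w : V) (U : Finset V) :
    sig E r W δ w = (∏ f ∈ E with (w ∈ r f ∧ Disjoint (r f) U), (1 - δ * W f)) *
      ∏ f ∈ E with (w ∈ r f ∧ ¬ Disjoint (r f) U), (1 - δ * W f) := by
  unfold sig
  rw [← Finset.prod_filter_mul_prod_filter_not (E.filter (fun e => w ∈ r e))
    (fun f => Disjoint (r f) U), Finset.filter_filter, Finset.filter_filter]

lemma FracM.Qs_ge (h : FracM E r W γ) (hδ0 : 0 ≤ δ) (hδ : δ ≤ 1 / 4) (U : Finset V) :
    ∏ u ∈ U, sig E r W δ u ≤ Qs E r W δ U := by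
  induction U using Finset.induction_on with
  | empty => simp [Qs]
  | insert w U hw ih =>
    rw [Finset.prod_insert hw, Qs_insert, mul_comm]
    refine mul_le_mul ih ?_ (h.sig_pos hδ0 hδ w).le (h.Qs_nonneg hδ0 hδ U)
    rw [sig_split w U]
    refine mul_le_of_le_one_right ?_ ?_
    · exact Finset.prod_nonneg (fun e _ => by linarith [h.p_le_one hδ0 hδ e])
    · exact Finset.prod_le_one (fun e _ => by linarith [h.p_le_one hδ0 hδ e])
        (fun e _ => by linarith [h.p_nonneg hδ0 e])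

lemma FracM.codeg_set (h : FracM E r W γ) (w : V) (U : Finset V) (hw : w ∉ U) :
    ∑ f ∈ E with (w ∈ r f ∧ ¬ Disjoint (r f) U), W f ≤ U.card * γ := by
  have h1 : ∑ f ∈ E with (w ∈ r f ∧ ¬ Disjoint (r f) U), W f ≤
      ∑ f ∈ E, ∑ u ∈ U, W f * ind (w ∈ r f ∧ u ∈ r f) := by
    rw [← sum_mul_ind_eq_filter]
    refine Finset.sum_le_sum fun f _ => ?_
    rw [← Finset.mul_sum]
    refine mul_le_mul_of_nonneg_left ?_ (h.nonneg f)
    by_cases hf : w ∈ r f ∧ ¬ Disjoint (r f) U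
    · rw [ind_pos hf]
      obtain ⟨u, hu1, hu2⟩ := Finset.not_disjoint_iff.mp hf.2
      have := Finset.single_le_sum (f := fun u => ind (w ∈ r f ∧ u ∈ r f))
        (fun u _ => ind_nonneg _) hu2
      simp only [ind_pos (And.intro hf.1 hu1)] at this
      exact this
    · rw [ind_neg hf]
      exact Finset.sum_nonneg fun _ _ => ind_nonneg _
  refine h1.trans ?_
  rw [Finset.sum_comm]
  have h2 : ∀ u ∈ U, ∑ f ∈ E, W f * ind (w ∈ r f ∧ u ∈ r f) ≤ γ := by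
    intro u hu
    rw [sum_mul_ind_eq_filter]
    exact h.codeg w u (fun huw => hw (huw ▸ hu))
  have := Finset.sum_le_sum h2
  rwa [Finset.sum_const, nsmul_eq_mul] at this

lemma FracM.Qs_le (h : FracM E r W γ) (hγ : 0 ≤ γ) (hδ0 : 0 ≤ δ) (hδ : δ ≤ 1 / 4)
    (U : Finset V) :
    Qs E r W δ U ≤ ∏ u ∈ U, sig E r W δ u + (U.card : ℝ) ^ 2 * γ := by
  induction U using Finset.induction_on with
  | empty => simp [Qs]
  | insert w U hw ih =>
    rw [Finset.prod_insert hw, Qs_insert, Finset.card_insert_of_notMem hw]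
    set P1 := ∏ f ∈ E with (w ∈ r f ∧ Disjoint (r f) U), (1 - δ * W f) with hP1
    have hP0 : 0 ≤ P1 := Finset.prod_nonneg (fun e _ => by linarith [h.p_le_one hδ0 hδ e])
    have hP1' : P1 ≤ 1 := Finset.prod_le_one (fun e _ => by linarith [h.p_le_one hδ0 hδ e])
        (fun e _ => by linarith [h.p_nonneg hδ0 e])
    have h1 := one_sub_sum_le_prod (E.filter (fun f => w ∈ r f ∧ ¬ Disjoint (r f) U))
      (fun e => δ * W e) (fun e _ => h.p_nonneg hδ0 e) (fun e _ => h.p_le_one hδ0 hδ e)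
    rw [← Finset.mul_sum] at h1
    have h2 := h.codeg_set w U hw
    have h3 : 0 ≤ ∑ f ∈ E with (w ∈ r f ∧ ¬ Disjoint (r f) U), W f :=
      Finset.sum_nonneg fun f _ => h.nonneg f
    have h4 : P1 ≤ sig E r W δ w + U.card * γ := by
      rw [sig_split w U, ← hP1]
      have h5 := mul_le_mul_of_nonneg_left h1 hP0
      have h6 : P1 * (δ * ∑ f ∈ E with (w ∈ r f ∧ ¬ Disjoint (r f) U), W f) ≤ U.card * γ := by
        refine le_trans ?_ h2
        have : P1 * δ ≤ 1 := by nlinarith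
        nlinarith
      nlinarith
    have h7 := h.Qs_nonneg hδ0 hδ U
    have h8 := h.Qs_le_one hδ0 hδ U
    have h9 := h.sig_le hδ0 hδ w
    have h10 := (h.sig_pos hδ0 hδ w).le
    have h11 : (0 : ℝ) ≤ U.card * γ := by positivity
    have h12 : (0 : ℝ) ≤ (U.card : ℝ) ^ 2 * γ := by positivity
    push_cast
    calc Qs E r W δ U * P1 ≤ Qs E r W δ U * (sig E r W δ w + U.card * γ) :=
          mul_le_mul_of_nonneg_left h4 h7
      _ ≤ Qs E r W δ U * sig E r W δ w + U.card * γ := by nlinarith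
      _ ≤ (∏ u ∈ U, sig E r W δ u + (U.card : ℝ) ^ 2 * γ) * sig E r W δ w + U.card * γ := by
          nlinarith [mul_le_mul_of_nonneg_right ih h10]
      _ ≤ _ := by nlinarith

lemma FracM.prod_sig_pos (h : FracM E r W γ) (hδ0 : 0 ≤ δ) (hδ : δ ≤ 1 / 4) (U : Finset V) :
    0 < ∏ u ∈ U, sig E r W δ u := Finset.prod_pos fun u _ => h.sig_pos hδ0 hδ u

lemma FracM.cf_nonneg (h : FracM E r W γ) (hδ0 : 0 ≤ δ) (hδ : δ ≤ 1 / 4) (e : ι) :
    0 ≤ cf E r W δ e :=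
  div_nonneg (mul_nonneg (h.nonneg e) (by linarith)) (h.prod_sig_pos hδ0 hδ _).le

lemma FracM.cf_le (h : FracM E r W γ) (hδ0 : 0 ≤ δ) (hδ : δ ≤ 1 / 4) (e : ι) :
    cf E r W δ e ≤ 2 * W e := by
  by_cases he : e ∈ E
  · unfold cf
    rw [div_le_iff₀ (h.prod_sig_pos hδ0 hδ _)]
    have h1 : (1 - δ) ^ (r e).card ≤ ∏ u ∈ r e, sig E r W δ u := by
      rw [← Finset.prod_const]
      exact Finset.prod_le_prod (fun _ _ => by linarith) (fun u _ => h.sig_ge hδ0 hδ u)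
    have h2 : (1 - δ) ^ 3 ≤ (1 - δ) ^ (r e).card :=
      pow_le_pow_of_le_one (by linarith) (by linarith) (h.card e he)
    have h3 : 1 - δ ≤ 2 * (1 - δ) ^ 3 := by
      have : (1 : ℝ) ≤ 2 * (1 - δ) ^ 2 := by nlinarith
      nlinarith
    have h4 := h.nonneg e
    nlinarith [mul_le_mul_of_nonneg_left (h3.trans (mul_le_mul_of_nonneg_left (h2.trans h1)
      (by norm_num : (0 : ℝ) ≤ 2))) h4]
  · simp [cf, h.supp e he]

lemma FracM.W1_nonneg (h : FracM E r W γ) (hδ0 : 0 ≤ δ) (hδ : δ ≤ 1 / 4) (ξ : ι → Bool) (e : ι) :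
    0 ≤ W1 E r W δ ξ e := mul_nonneg (h.cf_nonneg hδ0 hδ e) (ind_nonneg _)

lemma FracM.W1_le (h : FracM E r W γ) (hδ0 : 0 ≤ δ) (hδ : δ ≤ 1 / 4) (ξ : ι → Bool) (e : ι) :
    W1 E r W δ ξ e ≤ 2 * W e :=
  (mul_le_of_le_one_right (h.cf_nonneg hδ0 hδ e) (ind_le_one _)).trans (h.cf_le hδ0 hδ e)

lemma FracM.W2_nonneg (h : FracM E r W γ) (hδ0 : 0 ≤ δ) (hδ : δ ≤ 1 / 4) (hζ : 0 < ζ)
    (ξ : ι → Bool) (e : ι) : 0 ≤ W2 E r W δ ζ ξ e :=
  div_nonneg (mul_nonneg (h.W1_nonneg hδ0 hδ ξ e) (ind_nonneg _)) (by linarith)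

lemma FracM.W2_le (h : FracM E r W γ) (hδ0 : 0 ≤ δ) (hδ : δ ≤ 1 / 4) (hζ : 0 < ζ)
    (ξ : ι → Bool) (e : ι) : W2 E r W δ ζ ξ e ≤ W1 E r W δ ξ e / (1 + ζ) :=
  div_le_div_of_nonneg_right
    (mul_le_of_le_one_right (h.W1_nonneg hδ0 hδ ξ e) (ind_le_one _)) (by linarith)

lemma W2_surv {ξ : ι → Bool} {e : ι} (he : W2 E r W δ ζ ξ e ≠ 0) : ∀ u ∈ r e, surv E r ξ u := by
  by_contra hne
  apply he
  simp [W2, W1, ind_neg hne]

/-- The new weights are again a fractional matching. -/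
lemma FracM.next (h : FracM E r W γ) (hδ0 : 0 ≤ δ) (hδ : δ ≤ 1 / 4) (hζ : 0 < ζ)
    (ξ : ι → Bool) : FracM E r (W2 E r W δ ζ ξ) (2 * γ) where
  nonneg := h.W2_nonneg hδ0 hδ hζ ξ
  supp := fun e he => by simp [W2, W1, cf, h.supp e he]
  ne := h.ne
  card := h.card
  load_le := fun u => by
    by_cases hu : 1 + ζ < load E r (W1 E r W δ ξ) u
    · have : load E r (W2 E r W δ ζ ξ) u = 0 := by
        refine Finset.sum_eq_zero fun e he => ?_
        have h1 : ¬ ∀ u ∈ r e, ¬ (1 + ζ < load E r (W1 E r W δ ξ) u) :=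
          fun h2 => h2 u (Finset.mem_filter.mp he).2 hu
        simp only [W2, ind_neg h1, mul_zero, zero_div]
      rw [this]; norm_num
    · have h1 : load E r (W2 E r W δ ζ ξ) u ≤
          load E r (W1 E r W δ ξ) u / (1 + ζ) := by
        unfold load
        rw [Finset.sum_div]
        exact Finset.sum_le_sum fun e _ => h.W2_le hδ0 hδ hζ ξ e
      refine h1.trans ?_
      rw [div_le_one (by linarith)]
      exact not_lt.mp hu
  codeg := fun u u' huu => by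
    refine le_trans ?_ (mul_le_mul_of_nonneg_left (h.codeg u u' huu) (by norm_num))
    rw [Finset.mul_sum]
    refine Finset.sum_le_sum fun e _ => ?_
    refine (h.W2_le hδ0 hδ hζ ξ e).trans ?_
    refine le_trans ?_ (h.W1_le hδ0 hδ ξ e)
    exact div_le_self (h.W1_nonneg hδ0 hδ ξ e) (by linarith)

end

end Pool.Agent.Lib.MP_f8e628_co
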