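import Mathlib
import Pool.Agent.Lib.MP_f8e628_co.Bite

set_option autoImplicit false

open Finset

namespace Pool.Agent.Lib.MP_f8e628_co

section
variable {V ι : Type*} [DecidableEq V] [Fintype ι] [DecidableEq ι]

/-- The law of the activation bits. -/
noncomputable def bmu (W : ι → ℝ) (δ : ℝ) (ξ : ι → Bool) : ℝ := pw (bern (fun e => δ * W e)) ξ

variable {E : Finset ι} {r : ι → Finset V} {W : ι → ℝ} {γ δ ζ : ℝ}

omit [DecidableEq ι] in
lemma FracM.bmu_nonneg (h : FracM E r W γ) (hδ0 : 0 ≤ δ) (hδ : δ ≤ 1 / 4) (ξ : ι → Bool) :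
    0 ≤ bmu W δ ξ :=
  pw_nonneg (bern_nonneg (h.p_nonneg hδ0) (h.p_le_one hδ0 hδ)) ξ

lemma bmu_sum : ∑ ξ, bmu W δ ξ = 1 := pw_sum_one (bern_sum _)

lemma ex_surv (U : Finset V) :
    ∑ ξ, bmu W δ ξ * ind (∀ u ∈ U, surv E r ξ u) = Qs E r W δ U := by
  have h1 := ex_pattern (fun e => δ * W e) (E.filter (fun f => ¬ Disjoint (r f) U))
    (fun _ => false)
  simp only [bern, Bool.false_eq_true, if_false] at h1
  unfold Qs bmu
  rw [← h1]
  refine Finset.sum_congr rfl fun ξ _ => ?_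
  congr 1
  apply ind_congr
  constructor
  · intro h2 e he
    obtain ⟨he1, he2⟩ := Finset.mem_filter.mp he
    obtain ⟨u, hu1, hu2⟩ := Finset.not_disjoint_iff.mp he2
    exact h2 u hu2 e he1 hu1
  · intro h2 u hu e he hue
    exact h2 e (Finset.mem_filter.mpr ⟨he, Finset.not_disjoint_iff.mpr ⟨u, hue, hu⟩⟩)

lemma FracM.ex_W1 (h : FracM E r W γ) (hδ0 : 0 ≤ δ) (hδ : δ ≤ 1 / 4) (e : ι) :
    (1 - δ) * W e ≤ ∑ ξ, bmu W δ ξ * W1 E r W δ ξ e := by
  have h1 : ∑ ξ, bmu W δ ξ * W1 E r W δ ξ e = cf E r W δ e * Qs E r W δ (r e) := by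
    rw [← ex_surv, Finset.mul_sum]
    refine Finset.sum_congr rfl fun ξ _ => ?_
    unfold W1
    ring
  rw [h1]
  refine le_trans (le_of_eq ?_)
    (mul_le_mul_of_nonneg_left (h.Qs_ge hδ0 hδ (r e)) (h.cf_nonneg hδ0 hδ e))
  unfold cf
  have := (h.prod_sig_pos hδ0 hδ (r e)).ne'
  field_simp

lemma ex_W1W1 (e e' : ι) :
    ∑ ξ, bmu W δ ξ * (W1 E r W δ ξ e * W1 E r W δ ξ e') =
      cf E r W δ e * cf E r W δ e' * Qs E r W δ (r e ∪ r e') := by
  rw [← ex_surv, Finset.mul_sum]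
  refine Finset.sum_congr rfl fun ξ _ => ?_
  unfold W1
  have : ind (∀ u ∈ r e ∪ r e', surv E r ξ u) =
      ind (∀ u ∈ r e, surv E r ξ u) * ind (∀ u ∈ r e', surv E r ξ u) := by
    rw [← ind_and]
    apply ind_congr
    simp only [Finset.mem_union]
    constructor
    · intro h1
      exact ⟨fun u hu => h1 u (Or.inl hu), fun u hu => h1 u (Or.inr hu)⟩
    · rintro ⟨h1, h2⟩ u (hu | hu)
      · exact h1 u hu
      · exact h2 u hu
  rw [this]
  ring

omit [Fintype ι] [DecidableEq ι] in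
lemma FracM.pair_le (h : FracM E r W γ) (hγ : 0 ≤ γ) (hδ0 : 0 ≤ δ) (hδ : δ ≤ 1 / 4) {u : V}
    {e e' : ι} (he : e ∈ E) (he' : e' ∈ E) (hu : u ∈ r e) (hu' : u ∈ r e') :
    cf E r W δ e * cf E r W δ e' * Qs E r W δ (r e ∪ r e') ≤
      W e * W e' * ((1 - δ) ^ 2 / sig E r W δ u + 144 * γ) +
        4 * W e * (W e' * ind (u ∈ r e' ∧ ¬ Disjoint (r e') ((r e).erase u))) := by
  have hc := h.cf_nonneg hδ0 hδ e
  have hc' := h.cf_nonneg hδ0 hδ e'
  have hcc : cf E r W δ e * cf E r W δ e' ≤ 4 * (W e * W e') := by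
    have := mul_le_mul (h.cf_le hδ0 hδ e) (h.cf_le hδ0 hδ e') hc'
      (by linarith [h.nonneg e])
    linarith
  have hW : 0 ≤ W e * W e' := mul_nonneg (h.nonneg e) (h.nonneg e')
  have hs := h.sig_pos hδ0 hδ u
  by_cases hd : Disjoint (r e') ((r e).erase u)
  · rw [ind_neg (fun hh => hh.2 hd), mul_zero, mul_zero, add_zero]
    have h1 : r e ∩ r e' = {u} := by
      ext x
      simp only [Finset.mem_inter, Finset.mem_singleton]
      constructor
      · rintro ⟨hx, hx'⟩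
        by_contra hxu
        exact Finset.disjoint_left.mp hd hx' (Finset.mem_erase.mpr ⟨hxu, hx⟩)
      · rintro rfl
        exact ⟨hu, hu'⟩
    have h2 := Finset.prod_union_inter (s₁ := r e) (s₂ := r e') (f := sig E r W δ)
    rw [h1, Finset.prod_singleton] at h2
    have h3 := h.Qs_le hγ hδ0 hδ (r e ∪ r e')
    have h4 : ((r e ∪ r e').card : ℝ) ≤ 6 := by
      have := Finset.card_union_le (r e) (r e')
      have := h.card e he
      have := h.card e' he'
      exact_mod_cast (by omega : (r e ∪ r e').card ≤ 6)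
    have h5 : ((r e ∪ r e').card : ℝ) ^ 2 * γ ≤ 36 * γ := by
      refine mul_le_mul_of_nonneg_right ?_ hγ
      have : (0 : ℝ) ≤ (r e ∪ r e').card := Nat.cast_nonneg _
      nlinarith
    have h6 : cf E r W δ e * cf E r W δ e' * ∏ x ∈ r e ∪ r e', sig E r W δ x =
        W e * W e' * ((1 - δ) ^ 2 / sig E r W δ u) := by
      have h7 : ∏ x ∈ r e ∪ r e', sig E r W δ x =
          (∏ x ∈ r e, sig E r W δ x) * (∏ x ∈ r e', sig E r W δ x) / sig E r W δ u := by
        rw [← h2]; field_simp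
      rw [h7]
      unfold cf
      have := (h.prod_sig_pos hδ0 hδ (r e)).ne'
      have := (h.prod_sig_pos hδ0 hδ (r e')).ne'
      field_simp
    calc cf E r W δ e * cf E r W δ e' * Qs E r W δ (r e ∪ r e')
        ≤ cf E r W δ e * cf E r W δ e' * (∏ x ∈ r e ∪ r e', sig E r W δ x + 36 * γ) :=
          mul_le_mul_of_nonneg_left (by linarith) (mul_nonneg hc hc')
      _ = W e * W e' * ((1 - δ) ^ 2 / sig E r W δ u) +
          cf E r W δ e * cf E r W δ e' * (36 * γ) := by rw [mul_add, h6]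
      _ ≤ W e * W e' * ((1 - δ) ^ 2 / sig E r W δ u) + 4 * (W e * W e') * (36 * γ) := by
          have := mul_le_mul_of_nonneg_right hcc (by positivity : 0 ≤ 36 * γ)
          linarith
      _ = _ := by ring
  · rw [ind_pos ⟨hu', hd⟩, mul_one]
    have h1 : cf E r W δ e * cf E r W δ e' * Qs E r W δ (r e ∪ r e') ≤
        cf E r W δ e * cf E r W δ e' :=
      mul_le_of_le_one_right (mul_nonneg hc hc') (h.Qs_le_one hδ0 hδ _)
    have h2 : 0 ≤ W e * W e' * ((1 - δ) ^ 2 / sig E r W δ u + 144 * γ) := by positivity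
    linarith

lemma FracM.ex_sq (h : FracM E r W γ) (hγ : 0 ≤ γ) (hδ0 : 0 ≤ δ) (hδ : δ ≤ 1 / 4) (u : V) :
    ∑ ξ, bmu W δ ξ * (load E r (W1 E r W δ ξ) u) ^ 2 ≤
      (load E r W u) ^ 2 * ((1 - δ) ^ 2 / sig E r W δ u) + 156 * γ := by
  set F := E.filter (fun e => u ∈ r e) with hF
  have h1 : ∑ ξ, bmu W δ ξ * (load E r (W1 E r W δ ξ) u) ^ 2 =
      ∑ e ∈ F, ∑ e' ∈ F, cf E r W δ e * cf E r W δ e' * Qs E r W δ (r e ∪ r e') := by
    simp only [← ex_W1W1]
    rw [Finset.sum_comm]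
    have : ∀ e' ∈ F, ∑ e ∈ F, ∑ ξ, bmu W δ ξ * (W1 E r W δ ξ e * W1 E r W δ ξ e') =
        ∑ ξ, ∑ e ∈ F, bmu W δ ξ * (W1 E r W δ ξ e * W1 E r W δ ξ e') :=
      fun e' _ => Finset.sum_comm
    rw [Finset.sum_congr rfl this, Finset.sum_comm]
    refine Finset.sum_congr rfl fun ξ _ => ?_
    unfold load
    rw [← hF, sq, Finset.sum_mul_sum, Finset.sum_comm, Finset.mul_sum]
    refine Finset.sum_congr rfl fun e' _ => ?_
    rw [Finset.mul_sum]
  rw [h1]
  have h2 : ∀ e ∈ F, ∑ e' ∈ F, cf E r W δ e * cf E r W δ e' * Qs E r W δ (r e ∪ r e') ≤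
      W e * (load E r W u * ((1 - δ) ^ 2 / sig E r W δ u + 144 * γ) + 12 * γ) := by
    intro e he
    obtain ⟨he1, he2⟩ := Finset.mem_filter.mp he
    refine le_trans (Finset.sum_le_sum fun e' he' => h.pair_le hγ hδ0 hδ he1
      (Finset.mem_filter.mp he').1 he2 (Finset.mem_filter.mp he').2) ?_
    rw [Finset.sum_add_distrib, ← Finset.sum_mul, ← Finset.mul_sum, ← Finset.mul_sum]
    have h3 : ∑ e' ∈ F, W e' * ind (u ∈ r e' ∧ ¬ Disjoint (r e') ((r e).erase u)) ≤ 3 * γ := by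
      have h4 := h.codeg_set u ((r e).erase u) (Finset.notMem_erase _ _)
      have h5 : (((r e).erase u).card : ℝ) ≤ 3 := by
        have := Finset.card_erase_le (s := r e) (a := u)
        have := h.card e he1
        exact_mod_cast (by omega : ((r e).erase u).card ≤ 3)
      rw [← sum_mul_ind_eq_filter] at h4
      refine le_trans (Finset.sum_le_sum_of_subset_of_nonneg (Finset.filter_subset _ _)
        fun e' _ _ => mul_nonneg (h.nonneg e') (ind_nonneg _)) (h4.trans ?_)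
      exact mul_le_mul_of_nonneg_right h5 hγ
    have h6 := mul_le_mul_of_nonneg_left h3 (by linarith [h.nonneg e] : 0 ≤ 4 * W e)
    have h7 : ∑ e' ∈ F, W e' = load E r W u := rfl
    rw [h7]
    nlinarith
  refine (Finset.sum_le_sum h2).trans ?_
  rw [← Finset.sum_mul]
  have h7 : ∑ e' ∈ F, W e' = load E r W u := rfl
  rw [h7]
  have h8 := h.load_le u
  have h9 := load_nonneg (E := E) (r := r) h.nonneg u
  have h10 : load E r W u * load E r W u ≤ 1 := by nlinarith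
  nlinarith [mul_le_mul_of_nonneg_right h10 hγ, mul_le_mul_of_nonneg_right h8 hγ]

omit [Fintype ι] [DecidableEq ι] in
lemma load_W1_eq_zero {ξ : ι → Bool} {u : V} (hu : ¬ surv E r ξ u) :
    load E r (W1 E r W δ ξ) u = 0 := by
  refine Finset.sum_eq_zero fun e he => ?_
  have : ¬ ∀ x ∈ r e, surv E r ξ x := fun h => hu (h u (Finset.mem_filter.mp he).2)
  simp only [W1, ind_neg this, mul_zero]

lemma FracM.ex_load1 (h : FracM E r W γ) (hδ0 : 0 ≤ δ) (hδ : δ ≤ 1 / 4) (u : V) :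
    (1 - δ) * load E r W u ≤ ∑ ξ, bmu W δ ξ * load E r (W1 E r W δ ξ) u := by
  unfold load
  simp only [Finset.mul_sum]
  rw [Finset.sum_comm]
  exact Finset.sum_le_sum fun e _ => h.ex_W1 hδ0 hδ e

lemma FracM.over (h : FracM E r W γ) (hγ : 0 ≤ γ) (hδ0 : 0 ≤ δ) (hδ : δ ≤ 1 / 4) (hζ : 0 < ζ)
    (u : V) :
    ∑ ξ, bmu W δ ξ * ind (1 + ζ < load E r (W1 E r W δ ξ) u) ≤ 156 * γ / ζ ^ 2 := by
  have hs := h.sig_pos hδ0 hδ u
  have hs' := h.sig_ge hδ0 hδ u
  have h8 := h.load_le u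
  have h9 := load_nonneg (E := E) (r := r) h.nonneg u
  set m := (1 - δ) * load E r W u / sig E r W δ u with hm
  have hm1 : m ≤ 1 := by
    rw [hm, div_le_one hs]
    nlinarith
  have hm0 : 0 ≤ m := div_nonneg (mul_nonneg (by linarith) h9) hs.le
  have h1 := cheb (fun ξ => bmu W δ ξ * ind (surv E r ξ u))
    (fun ξ => mul_nonneg (h.bmu_nonneg hδ0 hδ ξ) (ind_nonneg _))
    (fun ξ => load E r (W1 E r W δ ξ) u) m ζ (156 * γ) hm1 hζ (by
      have e1 : ∑ ξ, bmu W δ ξ * ind (surv E r ξ u) * load E r (W1 E r W δ ξ) u ^ 2 =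
          ∑ ξ, bmu W δ ξ * load E r (W1 E r W δ ξ) u ^ 2 := by
        refine Finset.sum_congr rfl fun ξ _ => ?_
        by_cases hu : surv E r ξ u
        · rw [ind_pos hu, mul_one]
        · rw [load_W1_eq_zero hu]; simp
      have e2 : ∑ ξ, bmu W δ ξ * ind (surv E r ξ u) * load E r (W1 E r W δ ξ) u =
          ∑ ξ, bmu W δ ξ * load E r (W1 E r W δ ξ) u := by
        refine Finset.sum_congr rfl fun ξ _ => ?_
        by_cases hu : surv E r ξ u
        · rw [ind_pos hu, mul_one]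
        · rw [load_W1_eq_zero hu]; simp
      have e3 : ∑ ξ, bmu W δ ξ * ind (surv E r ξ u) = sig E r W δ u := by
        have h2 := ex_surv (E := E) (r := r) (W := W) (δ := δ) {u}
        simp only [Finset.mem_singleton, forall_eq] at h2
        rw [h2]
        unfold Qs sig
        refine Finset.prod_congr ?_ fun _ _ => rfl
        ext f
        simp
      rw [e1, e2, e3]
      have h2 := h.ex_sq hγ hδ0 hδ u
      have h3 := h.ex_load1 hδ0 hδ u
      have h4 : load E r W u ^ 2 * ((1 - δ) ^ 2 / sig E r W δ u) = m ^ 2 * sig E r W δ u := by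
        rw [hm]; field_simp
      have h5 : (1 - δ) * load E r W u = m * sig E r W δ u := by
        rw [hm]; field_simp
      rw [h4] at h2
      rw [h5] at h3
      nlinarith [mul_le_mul_of_nonneg_left h3 hm0])
  refine le_trans (le_of_eq ?_) h1
  refine Finset.sum_congr rfl fun ξ _ => ?_
  by_cases hu : surv E r ξ u
  · rw [ind_pos hu, mul_one]
  · rw [load_W1_eq_zero hu, ind_neg (by linarith : ¬ (1 + ζ < 0))]; simp

lemma FracM.ex_W2 (h : FracM E r W γ) (hγ : 0 ≤ γ) (hδ0 : 0 ≤ δ) (hδ : δ ≤ 1 / 4) (hζ : 0 < ζ)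
    {e : ι} (he : e ∈ E) :
    (1 - δ - 936 * γ / ζ ^ 2) / (1 + ζ) * W e ≤ ∑ ξ, bmu W δ ξ * W2 E r W δ ζ ξ e := by
  have h1 : ∀ ξ, (W1 E r W δ ξ e - 2 * W e *
      ∑ u ∈ r e, ind (1 + ζ < load E r (W1 E r W δ ξ) u)) / (1 + ζ) ≤ W2 E r W δ ζ ξ e := by
    intro ξ
    unfold W2
    refine div_le_div_of_nonneg_right ?_ (by linarith)
    have h2 := one_sub_sum_le_ind (r e) (fun u => 1 + ζ < load E r (W1 E r W δ ξ) u)
    have h3 := h.W1_nonneg hδ0 hδ ξ e
    have h4 := h.W1_le hδ0 hδ ξ e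
    have h5 : 0 ≤ ∑ u ∈ r e, ind (1 + ζ < load E r (W1 E r W δ ξ) u) :=
      Finset.sum_nonneg fun _ _ => ind_nonneg _
    nlinarith [mul_le_mul_of_nonneg_left h2 h3, mul_le_mul_of_nonneg_right h4 h5]
  refine le_trans ?_ (Finset.sum_le_sum fun ξ _ =>
    mul_le_mul_of_nonneg_left (h1 ξ) (h.bmu_nonneg hδ0 hδ ξ))
  have h2 : ∑ ξ, bmu W δ ξ * ((W1 E r W δ ξ e - 2 * W e *
      ∑ u ∈ r e, ind (1 + ζ < load E r (W1 E r W δ ξ) u)) / (1 + ζ)) =
      (∑ ξ, bmu W δ ξ * W1 E r W δ ξ e - 2 * W e *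
        ∑ u ∈ r e, ∑ ξ, bmu W δ ξ * ind (1 + ζ < load E r (W1 E r W δ ξ) u)) / (1 + ζ) := by
    rw [Finset.sum_comm, Finset.mul_sum, ← Finset.sum_sub_distrib, Finset.sum_div]
    refine Finset.sum_congr rfl fun ξ _ => ?_
    rw [← Finset.mul_sum]
    ring
  rw [h2, div_mul_eq_mul_div]
  refine div_le_div_of_nonneg_right ?_ (by linarith)
  have h3 := h.ex_W1 hδ0 hδ e
  have h4 : ∑ u ∈ r e, ∑ ξ, bmu W δ ξ * ind (1 + ζ < load E r (W1 E r W δ ξ) u) ≤
      3 * (156 * γ / ζ ^ 2) := by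
    refine (Finset.sum_le_sum fun u _ => h.over hγ hδ0 hδ hζ u).trans ?_
    rw [Finset.sum_const, nsmul_eq_mul]
    refine mul_le_mul_of_nonneg_right ?_ (by positivity)
    exact_mod_cast h.card e he
  have h5 := mul_le_mul_of_nonneg_left h4 (by linarith [h.nonneg e] : 0 ≤ 2 * W e)
  have h6 : (1 - δ - 936 * γ / ζ ^ 2) * W e = (1 - δ) * W e - 2 * W e * (3 * (156 * γ / ζ ^ 2)) := by
    ring
  linarith

lemma FracM.ex_load2 (h : FracM E r W γ) (hγ : 0 ≤ γ) (hδ0 : 0 ≤ δ) (hδ : δ ≤ 1 / 4)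
    (hζ : 0 < ζ) (u : V) :
    (1 - δ - 936 * γ / ζ ^ 2) / (1 + ζ) * load E r W u ≤
      ∑ ξ, bmu W δ ξ * load E r (W2 E r W δ ζ ξ) u := by
  unfold load
  simp only [Finset.mul_sum]
  rw [Finset.sum_comm]
  exact Finset.sum_le_sum fun e he => h.ex_W2 hγ hδ0 hδ hζ (Finset.mem_filter.mp he).1

lemma FracM.ex_pick (h : FracM E r W γ) (hδ0 : 0 ≤ δ) (hδ : δ ≤ 1 / 4) {e : ι} (he : e ∈ E) :
    δ * (1 - 3 * δ) * W e ≤ ∑ ξ, bmu W δ ξ * ind (pick E r ξ e) := by
  set A := E.filter (fun e' => e' ≠ e ∧ ¬ Disjoint (r e) (r e')) with hA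
  have heA : e ∉ A := fun hh => (Finset.mem_filter.mp hh).2.1 rfl
  have h1 := ex_pattern (fun e => δ * W e) (insert e A) (fun e' => decide (e' = e))
  have h2 : ∑ ξ, bmu W δ ξ * ind (pick E r ξ e) =
      ∏ e' ∈ insert e A, bern (fun e => δ * W e) e' (decide (e' = e)) := by
    rw [← h1]
    refine Finset.sum_congr rfl fun ξ _ => ?_
    unfold bmu
    congr 1
    apply ind_congr
    constructor
    · rintro ⟨-, h3, h4⟩ e' he'
      rcases Finset.mem_insert.mp he' with rfl | he'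
      · simpa using h3
      · obtain ⟨h5, h6, h7⟩ := Finset.mem_filter.mp he'
        rw [h4 e' h5 h6 h7]
        simp [h6]
    · intro h3
      refine ⟨he, by simpa using h3 e (Finset.mem_insert_self _ _), fun e' h5 h6 h7 => ?_⟩
      have := h3 e' (Finset.mem_insert_of_mem (Finset.mem_filter.mpr ⟨h5, h6, h7⟩))
      simpa [h6] using this
  rw [h2, Finset.prod_insert heA]
  have h3 : ∏ e' ∈ A, bern (fun e => δ * W e) e' (decide (e' = e)) = ∏ e' ∈ A, (1 - δ * W e') := by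
    refine Finset.prod_congr rfl fun e' he' => ?_
    have := (Finset.mem_filter.mp he').2.1
    simp [bern, this]
  rw [h3]
  have h4 := one_sub_sum_le_prod A (fun e => δ * W e) (fun e _ => h.p_nonneg hδ0 e)
    (fun e _ => h.p_le_one hδ0 hδ e)
  rw [← Finset.mul_sum] at h4
  have h5 : ∑ e' ∈ A, W e' ≤ 3 := by
    have h6 : ∑ e' ∈ A, W e' ≤ ∑ e' ∈ E, ∑ u ∈ r e, W e' * ind (u ∈ r e') := by
      rw [hA, ← sum_mul_ind_eq_filter]
      refine Finset.sum_le_sum fun f _ => ?_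
      rw [← Finset.mul_sum]
      refine mul_le_mul_of_nonneg_left ?_ (h.nonneg f)
      by_cases hf : f ≠ e ∧ ¬ Disjoint (r e) (r f)
      · rw [ind_pos hf]
        obtain ⟨u, hu1, hu2⟩ := Finset.not_disjoint_iff.mp hf.2
        have := Finset.single_le_sum (f := fun u => ind (u ∈ r f))
          (fun u _ => ind_nonneg _) hu1
        simp only [ind_pos hu2] at this
        exact this
      · rw [ind_neg hf]
        exact Finset.sum_nonneg fun _ _ => ind_nonneg _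
    refine h6.trans ?_
    rw [Finset.sum_comm]
    have h7 : ∀ u ∈ r e, ∑ e' ∈ E, W e' * ind (u ∈ r e') ≤ 1 := by
      intro u _
      rw [sum_mul_ind_eq_filter]
      exact h.load_le u
    refine (Finset.sum_le_sum h7).trans ?_
    rw [Finset.sum_const, nsmul_eq_mul, mul_one]
    exact_mod_cast h.card e he
  have h8 : bern (fun e => δ * W e) e (decide (e = e)) = δ * W e := by simp [bern]
  rw [h8]
  have h9 := h.p_nonneg hδ0 e
  have h10 : 1 - 3 * δ ≤ ∏ e' ∈ A, (1 - δ * W e') := by nlinarith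
  nlinarith [mul_le_mul_of_nonneg_left h10 h9]

omit [Fintype ι] [DecidableEq ι] [DecidableEq V] in
lemma pick_disjoint {ξ : ι → Bool} {e e' : ι} (h : pick E r ξ e) (h' : pick E r ξ e')
    (hne : e ≠ e') : Disjoint (r e) (r e') := by
  by_contra hd
  have := h.2.2 e' h'.1 hne.symm hd
  rw [h'.2.1] at this
  exact Bool.noConfusion this

lemma FracM.ex_cov (h : FracM E r W γ) (hδ0 : 0 ≤ δ) (hδ : δ ≤ 1 / 4) (u : V) :
    δ * (1 - 3 * δ) * load E r W u ≤
      ∑ ξ, bmu W δ ξ * ind (∃ e, pick E r ξ e ∧ u ∈ r e) := by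
  have h1 : ∀ ξ : ι → Bool, ∑ e ∈ E with u ∈ r e, ind (pick E r ξ e) ≤
      ind (∃ e, pick E r ξ e ∧ u ∈ r e) := by
    intro ξ
    by_cases hex : ∃ e, pick E r ξ e ∧ u ∈ r e
    · rw [ind_pos hex]
      obtain ⟨e, he, hue⟩ := hex
      rw [Finset.sum_eq_single e]
      · exact ind_le_one _
      · intro e' he' hne
        refine ind_neg fun hp => ?_
        exact Finset.disjoint_left.mp (pick_disjoint hp he hne) (Finset.mem_filter.mp he').2 hue
      · intro he'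
        exact absurd (Finset.mem_filter.mpr ⟨he.1, hue⟩) he'
    · rw [ind_neg hex]
      refine le_of_eq (Finset.sum_eq_zero fun e he => ind_neg fun hp => hex ⟨e, hp, ?_⟩)
      exact (Finset.mem_filter.mp he).2
  refine le_trans ?_ (Finset.sum_le_sum fun ξ _ =>
    mul_le_mul_of_nonneg_left (h1 ξ) (h.bmu_nonneg hδ0 hδ ξ))
  unfold load
  simp only [Finset.mul_sum]
  rw [Finset.sum_comm]
  exact Finset.sum_le_sum fun e he => h.ex_pick hδ0 hδ (Finset.mem_filter.mp he).1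

end

end Pool.Agent.Lib.MP_f8e628_co
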