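import Mathlib
import Pool.Agent.Lib.MP_f8e628_co.BiteExp

set_option autoImplicit false

open Finset

namespace Pool.Agent.Lib.MP_f8e628_co

section
variable {V ι : Type*} [DecidableEq V]
variable {E : Finset ι} {r : ι → Finset V} {W : ι → ℝ} {γ δ ζ : ℝ} {adj : V → V → Prop}

/-- The statistic followed through one bite. -/
noncomputable def stat (E : Finset ι) (r : ι → Finset V) (W : ι → ℝ) (δ ζ κ : ℝ) (u : V)
    (ξ : ι → Bool) : ℝ :=
  ind (∃ e, pick E r ξ e ∧ u ∈ r e) + κ * load E r (W2 E r W δ ζ ξ) u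

lemma load_W2_eq_zero {ξ : ι → Bool} {u : V} (h : ∃ e, pick E r ξ e ∧ u ∈ r e) :
    load E r (W2 E r W δ ζ ξ) u = 0 := by
  obtain ⟨e, he, hue⟩ := h
  refine Finset.sum_eq_zero fun e' he' => ?_
  by_contra hne
  have h1 := W2_surv hne u (Finset.mem_filter.mp he').2 e he.1 hue
  rw [he.2.1] at h1
  exact Bool.noConfusion h1

lemma FracM.stat_mem (h : FracM E r W γ) (hδ0 : 0 ≤ δ) (hδ : δ ≤ 1 / 4) (hζ : 0 < ζ) {κ : ℝ}
    (hκ0 : 0 ≤ κ) (hκ1 : κ ≤ 1) (u : V) (ξ : ι → Bool) :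
    0 ≤ stat E r W δ ζ κ u ξ ∧ stat E r W δ ζ κ u ξ ≤ 1 := by
  have h1 := (h.next hδ0 hδ hζ ξ).load_le u
  have h2 := load_nonneg (E := E) (r := r) (h.next hδ0 hδ hζ ξ).nonneg u
  unfold stat
  by_cases hc : ∃ e, pick E r ξ e ∧ u ∈ r e
  · rw [ind_pos hc, load_W2_eq_zero hc]
    norm_num
  · rw [ind_neg hc, zero_add]
    exact ⟨mul_nonneg hκ0 h2, by nlinarith⟩

lemma stat_local (hrefl : ∀ u, adj u u) (hr : ∀ e ∈ E, ∀ u ∈ r e, ∀ u' ∈ r e, adj u u')
    {v u : V} (hu : adj v u) {ξ ξ' : ι → Bool} (κ : ℝ)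
    (hξ : ∀ e ∈ E, (∃ a ∈ r e, near adj 3 v a) → ξ e = ξ' e) :
    stat E r W δ ζ κ u ξ = stat E r W δ ζ κ u ξ' := by
  have h1 : ∀ w, near adj 3 v w → (surv E r ξ w ↔ surv E r ξ' w) := by
    intro w hw
    unfold surv
    refine forall₃_congr fun e he hwe => ?_
    rw [hξ e he ⟨w, hwe, hw⟩]
  have h2 : ∀ w, near adj 2 v w → load E r (W1 E r W δ ξ) w = load E r (W1 E r W δ ξ') w := by
    intro w hw
    refine Finset.sum_congr rfl fun e he => ?_
    obtain ⟨he1, he2⟩ := Finset.mem_filter.mp he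
    unfold W1
    congr 1
    apply ind_congr
    exact forall₂_congr fun x hx => h1 x (near_step hw (hr e he1 w he2 x hx))
  have h3 : load E r (W2 E r W δ ζ ξ) u = load E r (W2 E r W δ ζ ξ') u := by
    refine Finset.sum_congr rfl fun e he => ?_
    obtain ⟨he1, he2⟩ := Finset.mem_filter.mp he
    have h4 : ∀ x ∈ r e, near adj 2 v x := fun x hx =>
      near_step (near_one hu) (hr e he1 u he2 x hx)
    unfold W2
    have h5 : W1 E r W δ ξ e = W1 E r W δ ξ' e := by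
      unfold W1
      congr 1
      apply ind_congr
      exact forall₂_congr fun x hx => h1 x (near_mono hrefl (by norm_num) (h4 x hx))
    have h6 : ind (∀ x ∈ r e, ¬ (1 + ζ < load E r (W1 E r W δ ξ) x)) =
        ind (∀ x ∈ r e, ¬ (1 + ζ < load E r (W1 E r W δ ξ') x)) := by
      apply ind_congr
      refine forall₂_congr fun x hx => ?_
      rw [h2 x (h4 x hx)]
    rw [h5, h6]
  have h4 : ∀ e, u ∈ r e → (pick E r ξ e ↔ pick E r ξ' e) := by
    intro e hue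
    unfold pick
    refine and_congr_right fun he => ?_
    rw [hξ e he ⟨u, hue, near_mono hrefl (by norm_num) (near_one hu)⟩]
    refine and_congr_right fun _ => ?_
    refine forall₄_congr fun e' he' _ hd => ?_
    obtain ⟨x, hx, hx'⟩ := Finset.not_disjoint_iff.mp hd
    rw [hξ e' he' ⟨x, hx', near_mono hrefl (by norm_num)
      (near_step (near_one hu) (hr e he u hue x hx))⟩]
  unfold stat
  rw [h3]
  congr 1
  apply ind_congr
  exact exists_congr fun e => and_congr_left fun hue => h4 e hue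

end

/-- The conversion factor with `j` bites left. -/
noncomputable def kap (b τ : ℝ) : ℕ → ℝ
  | 0 => 0
  | j + 1 => b + τ * kap b τ j

lemma kap_mem {b τ : ℝ} (hb : 0 ≤ b) (hτ : 0 ≤ τ) (h : b + τ ≤ 1) (j : ℕ) :
    0 ≤ kap b τ j ∧ kap b τ j ≤ 1 := by
  induction j with
  | zero => simp [kap]
  | succ j ih =>
    simp only [kap]
    constructor
    · have := mul_nonneg hτ ih.1
      linarith
    · nlinarith [ih.1, ih.2]

lemma kap_eq (b τ : ℝ) (j : ℕ) : (1 - τ) * kap b τ j = b * (1 - τ ^ j) := by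
  induction j with
  | zero => simp [kap]
  | succ j ih =>
    simp only [kap]
    calc (1 - τ) * (b + τ * kap b τ j) = (1 - τ) * b + τ * ((1 - τ) * kap b τ j) := by ring
      _ = _ := by rw [ih]; ring

theorem nibble_iter {V ι C : Type*} [Fintype V] [DecidableEq V] [Fintype ι] [DecidableEq ι]
    [Fintype C] [DecidableEq C] (adj : V → V → Prop) (hrefl : ∀ u, adj u u)
    (hsymm : ∀ u v, adj u v → adj v u) (Δ : ℝ) (hΔ1 : 1 ≤ Δ)
    (hΔ : ∀ u, ((ball adj 1 u).card : ℝ) ≤ Δ)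
    (E : C → Finset ι) (r : C → ι → Finset V) (ρ : C → V → V)
    (hr : ∀ c, ∀ e ∈ E c, ∀ u ∈ r c e, ∀ u' ∈ r c e, adj u u') (hρ : ∀ c v, adj v (ρ c v))
    (s : ℝ) (hs0 : 0 < s) (hs : (Fintype.card C : ℝ) ≤ s) (a : ℝ) (ha : 0 ≤ a)
    (hnum : 4 * Real.exp (-(a ^ 2 / (2 * s))) * Δ ^ 7 ≤ 1)
    (δ ζ γs τ : ℝ) (hδ0 : 0 ≤ δ) (hδ : δ ≤ 1 / 4) (hζ : 0 < ζ) (hτ0 : 0 ≤ τ)
    (hτ1 : τ ≤ 1 - δ) (hτ : τ ≤ (1 - δ - 936 * γs / ζ ^ 2) / (1 + ζ)) (j : ℕ) :
    ∀ (W : C → ι → ℝ) (γ : ℝ), 0 ≤ γ → 2 ^ j * γ ≤ γs → (∀ c, FracM (E c) (r c) (W c) γ) →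
    ∃ P : C → Finset ι, (∀ c, ∀ e ∈ P c, e ∈ E c ∧ W c e ≠ 0) ∧
      (∀ c, ∀ e ∈ P c, ∀ e' ∈ P c, e ≠ e' → Disjoint (r c e) (r c e')) ∧
      ∀ v, kap (δ * (1 - 3 * δ)) τ j * ∑ c, load (E c) (r c) (W c) (ρ c v) - j * a ≤
        ∑ c, ind (∃ e ∈ P c, ρ c v ∈ r c e) := by
  classical
  have hb : 0 ≤ δ * (1 - 3 * δ) := mul_nonneg hδ0 (by linarith)
  have hbτ : δ * (1 - 3 * δ) + τ ≤ 1 := by nlinarith
  induction j with
  | zero =>
    intro W γ _ _ _
    refine ⟨fun _ => ∅, by simp, by simp, fun v => ?_⟩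
    simp only [kap, zero_mul, Nat.cast_zero, sub_zero]
    exact Finset.sum_nonneg fun _ _ => ind_nonneg _
  | succ j ih =>
    intro W γ hγ0 hγ hW
    set κ := kap (δ * (1 - 3 * δ)) τ j with hκ
    obtain ⟨hκ0, hκ1⟩ := kap_mem hb hτ0 hbτ j
    have hγ' : γ ≤ γs := by
      have : (1 : ℝ) ≤ 2 ^ (j + 1) := one_le_pow₀ (by norm_num)
      nlinarith
    let D : V → C → Finset ι := fun v c => (E c).filter (fun e => ∃ x ∈ r c e, near adj 3 v x)
    obtain ⟨ξ, hξ, hX⟩ := lc (C := C) (J := V) (Ω := ι → Bool) (fun c => bmu (W c) δ)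
      (fun c => (hW c).bmu_nonneg hδ0 hδ) (fun c => bmu_sum) (fun _ => Finset.univ) s hs0
      (fun _ => by simpa using hs)
      (fun v c => stat (E c) (r c) (W c) δ ζ κ (ρ c v))
      (fun v c ξ _ => (hW c).stat_mem hδ0 hδ hζ hκ0 hκ1 _ _)
      (fun v c => (δ * (1 - 3 * δ) + τ * κ) * load (E c) (r c) (W c) (ρ c v))
      (fun v c ξ ξ' => ∀ e, e ∉ D v c → ξ e = ξ' e)
      (fun v => ball adj 7 v) (Δ ^ 7) (card_ball_le hΔ 7) (one_le_pow₀ hΔ1)
      (by
        intro v v' hv' c _ _ ξ ξ' hR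
        refine stat_local hrefl (hr c) (hρ c v') κ fun e he hx => hR e fun hD => hv' ?_
        obtain ⟨x', hx1', hx2'⟩ := hx
        obtain ⟨x, hx1, hx2⟩ := (Finset.mem_filter.mp hD).2
        exact mem_ball.mpr (near_trans (near_step hx2 (hr c e he x hx1 x' hx1'))
          (near_symm hsymm hx2')))
      (by
        intro v c _ g hg0 hg
        have h1 := pw_indep (bern_sum (fun e => δ * W c e)) (D v c)
          (stat (E c) (r c) (W c) δ ζ κ (ρ c v)) g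
          (fun ξ ξ' h => stat_local hrefl (hr c) (hρ c v) κ fun e he hx =>
            h e (Finset.mem_filter.mpr ⟨he, hx⟩)) hg
        unfold bmu
        rw [h1]
        refine mul_le_mul_of_nonneg_right ?_ (Finset.sum_nonneg fun ξ _ =>
          mul_nonneg ((hW c).bmu_nonneg hδ0 hδ ξ) (hg0 ξ))
        have h2 := (hW c).ex_cov hδ0 hδ (ρ c v)
        have h3 := (hW c).ex_load2 hγ0 hδ0 hδ hζ (ρ c v)
        have h4 := load_nonneg (E := E c) (r := r c) (hW c).nonneg (ρ c v)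
        have h5 : τ ≤ (1 - δ - 936 * γ / ζ ^ 2) / (1 + ζ) := by
          refine hτ.trans (div_le_div_of_nonneg_right ?_ (by linarith))
          have : 936 * γ / ζ ^ 2 ≤ 936 * γs / ζ ^ 2 :=
            div_le_div_of_nonneg_right (by linarith) (by positivity)
          linarith
        have h6 := (mul_le_mul_of_nonneg_right h5 h4).trans h3
        have h7 : ∑ ξ, pw (bern fun e => δ * W c e) ξ * stat (E c) (r c) (W c) δ ζ κ (ρ c v) ξ =
            ∑ ξ, bmu (W c) δ ξ * ind (∃ e, pick (E c) (r c) ξ e ∧ ρ c v ∈ r c e) +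
            κ * ∑ ξ, bmu (W c) δ ξ * load (E c) (r c) (W2 (E c) (r c) (W c) δ ζ ξ) (ρ c v) := by
          rw [Finset.mul_sum, ← Finset.sum_add_distrib]
          refine Finset.sum_congr rfl fun ξ _ => ?_
          unfold stat bmu
          ring
        rw [h7]
        nlinarith [mul_le_mul_of_nonneg_left h6 hκ0])
      a ha hnum
    obtain ⟨P', hP1, hP2, hP3⟩ := ih (fun c => W2 (E c) (r c) (W c) δ ζ (ξ c)) (2 * γ)
      (by linarith) (by rw [pow_succ] at hγ; linarith) (fun c => (hW c).next hδ0 hδ hζ (ξ c))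
    refine ⟨fun c => (E c).filter (pick (E c) (r c) (ξ c)) ∪ P' c, ?_, ?_, ?_⟩
    · intro c e he
      rcases Finset.mem_union.mp he with he | he
      · obtain ⟨he1, he2⟩ := Finset.mem_filter.mp he
        refine ⟨he1, fun h0 => hξ c ?_⟩
        refine Finset.prod_eq_zero (Finset.mem_univ e) ?_
        simp [bern, he2.2.1, h0]
      · refine ⟨(hP1 c e he).1, fun h0 => (hP1 c e he).2 ?_⟩
        simp [W2, W1, cf, h0]
    · have hmix : ∀ c, ∀ e ∈ (E c).filter (pick (E c) (r c) (ξ c)), ∀ e' ∈ P' c,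
          Disjoint (r c e) (r c e') := by
        intro c e he e' he'
        rw [Finset.disjoint_left]
        intro x hx hx'
        obtain ⟨he1, he2⟩ := Finset.mem_filter.mp he
        have h1 := W2_surv (hP1 c e' he').2 x hx' e he1 hx
        rw [he2.2.1] at h1
        exact Bool.noConfusion h1
      intro c e he e' he' hne
      rcases Finset.mem_union.mp he with he | he <;> rcases Finset.mem_union.mp he' with he' | he'
      · exact pick_disjoint (Finset.mem_filter.mp he).2 (Finset.mem_filter.mp he').2 hne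
      · exact hmix c e he e' he'
      · exact (hmix c e' he' e he).symm
      · exact hP2 c e he e' he' hne
    · intro v
      have h1 := hX v
      have h2 := hP3 v
      have h3 : ∀ c, ind (∃ e, pick (E c) (r c) (ξ c) e ∧ ρ c v ∈ r c e) +
          ind (∃ e ∈ P' c, ρ c v ∈ r c e) ≤
          ind (∃ e ∈ (E c).filter (pick (E c) (r c) (ξ c)) ∪ P' c, ρ c v ∈ r c e) := by
        intro c
        by_cases hA : ∃ e, pick (E c) (r c) (ξ c) e ∧ ρ c v ∈ r c e
        · have hB : ¬ ∃ e ∈ P' c, ρ c v ∈ r c e := by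
            rintro ⟨e', he', hx'⟩
            obtain ⟨e, he, hx⟩ := hA
            have h4 := W2_surv (hP1 c e' he').2 _ hx' e he.1 hx
            rw [he.2.1] at h4
            exact Bool.noConfusion h4
          rw [ind_neg hB, add_zero]
          refine ind_mono fun ⟨e, he, hx⟩ => ⟨e, ?_, hx⟩
          exact Finset.mem_union_left _ (Finset.mem_filter.mpr ⟨he.1, he⟩)
        · rw [ind_neg hA, zero_add]
          exact ind_mono fun ⟨e, he, hx⟩ => ⟨e, Finset.mem_union_right _ he, hx⟩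
      have h4 := Finset.sum_le_sum fun c (_ : c ∈ Finset.univ) => h3 c
      rw [Finset.sum_add_distrib] at h4
      simp only [stat] at h1
      rw [Finset.sum_add_distrib, ← Finset.mul_sum, ← Finset.mul_sum] at h1
      simp only [kap]
      rw [← hκ]
      push_cast
      linarith

/-- The nibble, for many colours at once. -/
theorem nibble (η : ℝ) (hη : 0 < η) : ∃ (γ0 : ℝ) (N : ℕ), 0 < γ0 ∧
    ∀ {V ι C : Type} [Fintype V] [DecidableEq V] [Fintype ι] [DecidableEq ι]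
    [Fintype C] [DecidableEq C] (adj : V → V → Prop) (_ : ∀ u, adj u u)
    (_ : ∀ u v, adj u v → adj v u) (Δ : ℝ) (_ : 1 ≤ Δ)
    (_ : ∀ u, ((ball adj 1 u).card : ℝ) ≤ Δ)
    (E : C → Finset ι) (r : C → ι → Finset V) (ρ : C → V → V)
    (_ : ∀ c, ∀ e ∈ E c, ∀ u ∈ r c e, ∀ u' ∈ r c e, adj u u') (_ : ∀ c v, adj v (ρ c v))
    (s : ℝ) (_ : 0 < s) (_ : (Fintype.card C : ℝ) ≤ s) (a : ℝ) (_ : 0 ≤ a)
    (_ : 4 * Real.exp (-(a ^ 2 / (2 * s))) * Δ ^ 7 ≤ 1)
    (W : C → ι → ℝ), (∀ c, FracM (E c) (r c) (W c) γ0) →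
    ∃ P : C → Finset ι, (∀ c, ∀ e ∈ P c, e ∈ E c) ∧
      (∀ c, ∀ e ∈ P c, ∀ e' ∈ P c, e ≠ e' → Disjoint (r c e) (r c e')) ∧
      ∀ v, (1 - η) * ∑ c, load (E c) (r c) (W c) (ρ c v) - N * a ≤
        ∑ c, ind (∃ e ∈ P c, ρ c v ∈ r c e) := by
  -- `δ = min (η / 6) (1 / 6)`, and the other constants follow
  obtain ⟨δ, hδ0, hδ1, hδ2⟩ : ∃ δ : ℝ, 0 < δ ∧ δ ≤ 1 / 6 ∧ δ ≤ η / 6 :=
    ⟨min (1 / 6) (η / 6), by positivity, min_le_left _ _, min_le_right _ _⟩
  set τ := 1 - δ - 2 * δ ^ 2 with hτ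
  have hτ0 : 0 ≤ τ := by nlinarith
  have hτ1 : τ < 1 := by nlinarith
  obtain ⟨N, hN⟩ := exists_pow_lt_of_lt_one hδ0 hτ1
  refine ⟨δ ^ 6 / 936 / 2 ^ N, N, by positivity, ?_⟩
  intro V ι C _ _ _ _ _ _ adj hrefl hsymm Δ hΔ1 hΔ E r ρ hr hρ s hs0 hs a ha hnum W hW
  obtain ⟨P, h1, h2, h3⟩ := nibble_iter adj hrefl hsymm Δ hΔ1 hΔ E r ρ hr hρ s hs0 hs a ha hnum
    δ (δ ^ 2) (δ ^ 6 / 936) τ hδ0.le (by linarith) (by positivity) hτ0 (by nlinarith)
    (by
      have e1 : 936 * (δ ^ 6 / 936) / (δ ^ 2) ^ 2 = δ ^ 2 := by field_simp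
      rw [e1, le_div_iff₀ (by positivity), hτ]
      nlinarith [pow_pos hδ0 3, pow_pos hδ0 4])
    N W (δ ^ 6 / 936 / 2 ^ N) (by positivity) (le_of_eq (by field_simp)) hW
  refine ⟨P, fun c e he => (h1 c e he).1, h2, fun v => le_trans ?_ (h3 v)⟩
  have h4 : 0 ≤ ∑ c, load (E c) (r c) (W c) (ρ c v) :=
    Finset.sum_nonneg fun c _ => load_nonneg (hW c).nonneg _
  have h5 : 1 - η ≤ kap (δ * (1 - 3 * δ)) τ N := by
    have h6 := kap_eq (δ * (1 - 3 * δ)) τ N
    have h7 : 1 - τ = δ * (1 + 2 * δ) := by rw [hτ]; ring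
    rw [h7] at h6
    have h8 : (1 + 2 * δ) * kap (δ * (1 - 3 * δ)) τ N = (1 - 3 * δ) * (1 - τ ^ N) := by
      apply mul_left_cancel₀ hδ0.ne'
      linarith
    have h9 : (1 - 3 * δ) * (1 - δ) ≤ (1 - 3 * δ) * (1 - τ ^ N) :=
      mul_le_mul_of_nonneg_left (by linarith) (by linarith)
    have h10 : (1 + 2 * δ) * (1 - 6 * δ) ≤ (1 + 2 * δ) * kap (δ * (1 - 3 * δ)) τ N := by
      rw [h8]; nlinarith
    have h11 := le_of_mul_le_mul_left h10 (by linarith)
    linarith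
  have := mul_le_mul_of_nonneg_right h5 h4
  linarith

end Pool.Agent.Lib.MP_f8e628_co
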