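import Mathlib
import Pool.Agent.Lib.MP_f8e628_co.Near

set_option autoImplicit false
set_option linter.unusedSectionVars false

open Finset

namespace Pool.Agent.Lib.MP_f8e628_co

section
variable {V : Type*} [DecidableEq V]

/-- Vertices covered by a family of sets. -/
def cov (M : Finset (Finset V)) : Finset V := M.biUnion id

lemma mem_cov {M : Finset (Finset V)} {v : V} : v ∈ cov M ↔ ∃ p ∈ M, v ∈ p := by
  simp [cov]

lemma cov_union (M N : Finset (Finset V)) : cov (M ∪ N) = cov M ∪ cov N := by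
  ext v
  simp only [mem_cov, Finset.mem_union]
  constructor
  · rintro ⟨p, hp | hp, hv⟩
    · exact Or.inl ⟨p, hp, hv⟩
    · exact Or.inr ⟨p, hp, hv⟩
  · rintro (⟨p, hp, hv⟩ | ⟨p, hp, hv⟩)
    · exact ⟨p, Or.inl hp, hv⟩
    · exact ⟨p, Or.inr hp, hv⟩

@[simp] lemma cov_empty : cov (∅ : Finset (Finset V)) = ∅ := by simp [cov]

@[simp] lemma cov_singleton (p : Finset V) : cov {p} = p := by simp [cov]

/-- `M` is a matching (by pairs) inside `S`. -/
def IsMat (S : Finset V) (M : Finset (Finset V)) : Prop :=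
  (∀ p ∈ M, p ⊆ S ∧ p.card = 2) ∧ ∀ p ∈ M, ∀ q ∈ M, p ≠ q → Disjoint p q

noncomputable def wt (lam : Finset V → ℝ) (M : Finset (Finset V)) : ℝ := ∏ p ∈ M, lam p

/-- Unnormalised monomer-dimer weight. -/
noncomputable def md (lam : Finset V → ℝ) (S : Finset V) (M : Finset (Finset V)) : ℝ :=
  wt lam M * ind (IsMat S M)

omit [DecidableEq V] in
lemma wt_nonneg {lam : Finset V → ℝ} (h : ∀ p, 0 ≤ lam p) (M : Finset (Finset V)) :
    0 ≤ wt lam M := Finset.prod_nonneg fun p _ => h p

omit [DecidableEq V] in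
lemma md_nonneg {lam : Finset V → ℝ} (h : ∀ p, 0 ≤ lam p) (S : Finset V)
    (M : Finset (Finset V)) : 0 ≤ md lam S M := mul_nonneg (wt_nonneg h M) (ind_nonneg _)

omit [DecidableEq V] in
lemma IsMat.mono {S T : Finset V} {M : Finset (Finset V)} (h : IsMat S M) (hST : S ⊆ T) :
    IsMat T M := ⟨fun p hp => ⟨(h.1 p hp).1.trans hST, (h.1 p hp).2⟩, h.2⟩

omit [DecidableEq V] in
lemma IsMat.subset {S : Finset V} {M N : Finset (Finset V)} (h : IsMat S M) (hN : N ⊆ M) :
    IsMat S N := ⟨fun p hp => h.1 p (hN hp), fun p hp q hq => h.2 p (hN hp) q (hN hq)⟩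

omit [DecidableEq V] in
lemma isMat_empty (S : Finset V) : IsMat S ∅ := ⟨by simp, by simp⟩

omit [DecidableEq V] in
lemma IsMat.eq_of_mem {S : Finset V} {M : Finset (Finset V)} (h : IsMat S M) {p q : Finset V}
    (hp : p ∈ M) (hq : q ∈ M) {v : V} (hvp : v ∈ p) (hvq : v ∈ q) : p = q := by
  by_contra hne
  exact Finset.disjoint_left.mp (h.2 p hp q hq hne) hvp hvq

lemma IsMat.union {S T : Finset V} {P M : Finset (Finset V)} (hP : IsMat S P) (hM : IsMat T M)
    (hT : T ⊆ S) (hd : Disjoint T (cov P)) : IsMat S (P ∪ M) := by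
  have hmix : ∀ p ∈ P, ∀ q ∈ M, Disjoint p q := by
    intro p hp q hq
    rw [Finset.disjoint_left]
    intro v hvp hvq
    exact Finset.disjoint_left.mp hd ((hM.1 q hq).1 hvq) (mem_cov.mpr ⟨p, hp, hvp⟩)
  constructor
  · intro p hp
    rcases Finset.mem_union.mp hp with hp | hp
    · exact hP.1 p hp
    · exact ⟨(hM.1 p hp).1.trans hT, (hM.1 p hp).2⟩
  · intro p hp q hq hne
    rcases Finset.mem_union.mp hp with hp | hp <;> rcases Finset.mem_union.mp hq with hq | hq
    · exact hP.2 p hp q hq hne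
    · exact hmix p hp q hq
    · exact (hmix q hq p hp).symm
    · exact hM.2 p hp q hq hne

lemma IsMat.disjoint_of_cov {T : Finset V} {P M : Finset (Finset V)} (hM : IsMat T M)
    (hd : Disjoint T (cov P)) : Disjoint P M := by
  rw [Finset.disjoint_left]
  intro p hp hpM
  obtain ⟨h1, h2⟩ := hM.1 p hpM
  obtain ⟨v, hv⟩ : p.Nonempty := Finset.card_pos.mp (by omega)
  exact Finset.disjoint_left.mp hd (h1 hv) (mem_cov.mpr ⟨p, hp, hv⟩)

variable [Fintype V]

/-- The partition function. -/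
noncomputable def Z (lam : Finset V → ℝ) (S : Finset V) : ℝ := ∑ M, md lam S M

lemma glue (lam : Finset V → ℝ) (P : Finset (Finset V)) (T : Finset V)
    (hT : Disjoint T (cov P)) (F : Finset (Finset V) → ℝ) :
    ∑ M, wt lam M * F M * ind (P ⊆ M ∧ IsMat T (M \ P)) =
      wt lam P * ∑ M, md lam T M * F (P ∪ M) := by
  classical
  rw [sum_mul_ind_eq_filter, Finset.mul_sum]
  have h1 : ∀ M, wt lam P * (md lam T M * F (P ∪ M)) =
      wt lam P * wt lam M * F (P ∪ M) * ind (IsMat T M) := fun M => by unfold md; ring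
  simp only [h1]
  rw [sum_mul_ind_eq_filter]
  refine Finset.sum_nbij' (fun M => M \ P) (fun M => P ∪ M) ?_ ?_ ?_ ?_ ?_
  · intro M hM
    simp only [Finset.mem_filter, Finset.mem_univ, true_and] at hM ⊢
    exact hM.2
  · intro M hM
    simp only [Finset.mem_filter, Finset.mem_univ, true_and] at hM ⊢
    refine ⟨Finset.subset_union_left, ?_⟩
    rwa [Finset.union_sdiff_cancel_left (hM.disjoint_of_cov hT)]
  · intro M hM
    simp only [Finset.mem_filter, Finset.mem_univ, true_and] at hM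
    exact Finset.union_sdiff_of_subset hM.1
  · intro M hM
    simp only [Finset.mem_filter, Finset.mem_univ, true_and] at hM
    exact Finset.union_sdiff_cancel_left (hM.disjoint_of_cov hT)
  · intro M hM
    simp only [Finset.mem_filter, Finset.mem_univ, true_and] at hM
    rw [Finset.union_sdiff_of_subset hM.1]
    congr 1
    unfold wt
    rw [mul_comm, Finset.prod_sdiff hM.1]

/-- The event: the pairs of `P` are in the matching and the vertices of `U` are free. -/
def Ev (P : Finset (Finset V)) (U : Finset V) (M : Finset (Finset V)) : Prop :=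
  P ⊆ M ∧ Disjoint U (cov M)

lemma ev_exact (lam : Finset V → ℝ) {S U : Finset V} {P : Finset (Finset V)} (hP : IsMat S P)
    (hU : Disjoint U (cov P)) :
    ∑ M, md lam S M * ind (Ev P U M) = wt lam P * Z lam (S \ (cov P ∪ U)) := by
  have hT : Disjoint (S \ (cov P ∪ U)) (cov P) :=
    Finset.disjoint_of_subset_right Finset.subset_union_left Finset.sdiff_disjoint
  have h1 := glue lam P (S \ (cov P ∪ U)) hT (fun _ => 1)
  simp only [mul_one] at h1
  unfold Z
  rw [← h1]
  refine Finset.sum_congr rfl fun M _ => ?_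
  unfold md
  rw [mul_assoc, ← ind_and]
  congr 1
  apply ind_congr
  constructor
  · rintro ⟨hM, hPM, hUM⟩
    refine ⟨hPM, fun p hp => ?_, (hM.subset Finset.sdiff_subset).2⟩
    obtain ⟨hp1, hp2⟩ := Finset.mem_sdiff.mp hp
    refine ⟨fun v hv => Finset.mem_sdiff.mpr ⟨(hM.1 p hp1).1 hv, fun hv' => ?_⟩, (hM.1 p hp1).2⟩
    rcases Finset.mem_union.mp hv' with hv' | hv'
    · obtain ⟨q, hq, hvq⟩ := mem_cov.mp hv'
      exact hp2 (hM.eq_of_mem hp1 (hPM hq) hv hvq ▸ hq)
    · exact Finset.disjoint_left.mp hUM hv' (mem_cov.mpr ⟨p, hp1, hv⟩)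
  · rintro ⟨hPM, hM⟩
    have h2 := hP.union hM Finset.sdiff_subset hT
    rw [Finset.union_sdiff_of_subset hPM] at h2
    refine ⟨h2, hPM, ?_⟩
    rw [← Finset.union_sdiff_of_subset hPM, cov_union, Finset.disjoint_union_right]
    refine ⟨hU, ?_⟩
    rw [Finset.disjoint_left]
    intro v hv hv'
    obtain ⟨q, hq, hvq⟩ := mem_cov.mp hv'
    exact (Finset.mem_sdiff.mp ((hM.1 q hq).1 hvq)).2 (Finset.mem_union_right _ hv)

lemma Z_nonneg {lam : Finset V → ℝ} (h : ∀ p, 0 ≤ lam p) (S : Finset V) : 0 ≤ Z lam S :=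
  Finset.sum_nonneg fun M _ => md_nonneg h S M

lemma ev_le {lam : Finset V → ℝ} (h : ∀ p, 0 ≤ lam p) (S U : Finset V)
    (P : Finset (Finset V)) :
    ∑ M, md lam S M * ind (Ev P U M) ≤ wt lam P * Z lam (S \ (cov P ∪ U)) := by
  by_cases hP : IsMat S P ∧ Disjoint U (cov P)
  · exact (ev_exact lam hP.1 hP.2).le
  · refine le_trans (le_of_eq (Finset.sum_eq_zero fun M _ => ?_))
      (mul_nonneg (wt_nonneg h P) (Z_nonneg h _))
    unfold md
    rw [mul_assoc, ← ind_and, ind_neg, mul_zero]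
    rintro ⟨hM, hPM, hUM⟩
    refine hP ⟨hM.subset hPM, Finset.disjoint_of_subset_right ?_ hUM⟩
    intro v hv
    obtain ⟨q, hq, hvq⟩ := mem_cov.mp hv
    exact mem_cov.mpr ⟨q, hPM hq, hvq⟩

lemma Z_mono {lam : Finset V → ℝ} (h : ∀ p, 0 ≤ lam p) {S T : Finset V} (hST : S ⊆ T) :
    Z lam S ≤ Z lam T :=
  Finset.sum_le_sum fun M _ =>
    mul_le_mul_of_nonneg_left (ind_mono fun hM => hM.mono hST) (wt_nonneg h M)

lemma one_le_Z {lam : Finset V → ℝ} (h : ∀ p, 0 ≤ lam p) (S : Finset V) : 1 ≤ Z lam S := by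
  have := Finset.single_le_sum (f := md lam S) (fun M _ => md_nonneg h S M) (Finset.mem_univ ∅)
  have h1 : md lam S ∅ = 1 := by simp [md, wt, ind_pos (isMat_empty S)]
  rw [h1] at this
  exact this

lemma Z_pos {lam : Finset V → ℝ} (h : ∀ p, 0 ≤ lam p) (S : Finset V) : 0 < Z lam S :=
  lt_of_lt_of_le one_pos (one_le_Z h S)

lemma Z_congr {lam lam' : Finset V → ℝ} {S : Finset V}
    (h : ∀ p, p ⊆ S → p.card = 2 → lam p = lam' p) : Z lam S = Z lam' S := by
  refine Finset.sum_congr rfl fun M _ => ?_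
  unfold md
  by_cases hM : IsMat S M
  · congr 1
    exact Finset.prod_congr rfl fun p hp => h p (hM.1 p hp).1 (hM.1 p hp).2
  · rw [ind_neg hM, mul_zero, mul_zero]

lemma ev_pair (lam : Finset V → ℝ) {S p : Finset V} (hp : p ⊆ S) (hp2 : p.card = 2) :
    ∑ M, md lam S M * ind (p ∈ M) = lam p * Z lam (S \ p) := by
  have h1 := ev_exact lam (S := S) (U := ∅) (P := {p}) ⟨by simp [hp, hp2], by simp⟩ (by simp)
  simpa [Ev, wt] using h1

lemma Z_rec (lam : Finset V → ℝ) {S : Finset V} {a : V} (ha : a ∈ S) :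
    Z lam S = Z lam (S.erase a) + ∑ w ∈ S.erase a, lam {a, w} * Z lam ((S.erase a).erase w) := by
  have h1 := ev_exact lam (S := S) (U := {a}) (P := ∅) (isMat_empty S) (by simp)
  simp only [Ev, Finset.empty_subset, true_and, Finset.disjoint_singleton_left, wt,
    Finset.prod_empty, cov_empty, Finset.empty_union, one_mul, Finset.sdiff_singleton_eq_erase]
    at h1
  have h2 : ∀ w ∈ S.erase a, lam {a, w} * Z lam ((S.erase a).erase w) =
      ∑ M, md lam S M * ind ({a, w} ∈ M) := by
    intro w hw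
    obtain ⟨hwa, hwS⟩ := Finset.mem_erase.mp hw
    rw [ev_pair lam (S := S) (p := {a, w})
      (Finset.insert_subset ha (Finset.singleton_subset_iff.mpr hwS))
      (Finset.card_pair hwa.symm)]
    congr 2
    ext x
    simp only [Finset.mem_erase, Finset.mem_sdiff, Finset.mem_insert, Finset.mem_singleton]
    tauto
  rw [Finset.sum_congr rfl h2, ← h1, Finset.sum_comm, ← Finset.sum_add_distrib]
  refine Finset.sum_congr rfl fun M _ => ?_
  rw [← Finset.mul_sum, ← mul_add]
  unfold md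
  by_cases hM : IsMat S M
  · have : ind (a ∉ cov M) + ∑ w ∈ S.erase a, ind ({a, w} ∈ M) = 1 := by
      by_cases hc : a ∈ cov M
      · obtain ⟨p, hp, hap⟩ := mem_cov.mp hc
        obtain ⟨x, y, hxy, rfl⟩ := Finset.card_eq_two.mp (hM.1 p hp).2
        obtain ⟨w, hwa, hw⟩ : ∃ w, w ≠ a ∧ ({x, y} : Finset V) = {a, w} := by
          simp only [Finset.mem_insert, Finset.mem_singleton] at hap
          rcases hap with rfl | rfl
          · exact ⟨y, hxy.symm, rfl⟩
          · exact ⟨x, hxy, Finset.pair_comm _ _⟩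
        rw [hw] at hp
        have hwS : w ∈ S := (hM.1 _ hp).1 (by simp)
        rw [ind_neg (not_not.mpr hc), zero_add, Finset.sum_eq_single w, ind_pos hp]
        · intro w' hw' hne
          refine ind_neg fun hp' => hne ?_
          have h3 := hM.eq_of_mem hp' hp (v := a) (by simp) (by simp)
          have h4 : w' ∈ ({a, w} : Finset V) := h3 ▸ (by simp)
          simp only [Finset.mem_insert, Finset.mem_singleton] at h4
          rcases h4 with h4 | h4
          · exact absurd h4 (Finset.mem_erase.mp hw').1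
          · exact h4
        · intro hw'
          exact absurd (Finset.mem_erase.mpr ⟨hwa, hwS⟩) hw'
      · rw [ind_pos hc, Finset.sum_eq_zero, add_zero]
        intro w _
        exact ind_neg fun hp => hc (mem_cov.mpr ⟨_, hp, by simp⟩)
    rw [this, mul_one]
  · rw [ind_neg hM]; simp

/-- The spatial Markov property. -/
lemma markov (lam : Finset V → ℝ) (B : Finset V) (F : Finset (Finset V) → ℝ) :
    ∑ M, md lam Finset.univ M * F M =
      ∑ θ, wt lam θ * ind (IsMat Finset.univ θ ∧ ∀ p ∈ θ, ¬ p ⊆ B) *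
        ∑ M, md lam (B \ cov θ) M * F (θ ∪ M) := by
  have h1 : ∀ M : Finset (Finset V), md lam Finset.univ M * F M =
      ∑ θ, md lam Finset.univ M * F M * ind (θ = M.filter (fun p => ¬ p ⊆ B)) := by
    intro M
    rw [Finset.sum_eq_single (M.filter (fun p => ¬ p ⊆ B)), ind_pos rfl, mul_one]
    · intro θ _ hne
      rw [ind_neg hne, mul_zero]
    · simp
  rw [Finset.sum_congr rfl fun M _ => h1 M, Finset.sum_comm]
  refine Finset.sum_congr rfl fun θ _ => ?_
  by_cases hθ : IsMat Finset.univ θ ∧ ∀ p ∈ θ, ¬ p ⊆ B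
  · rw [ind_pos hθ, mul_one, ← glue lam θ (B \ cov θ) Finset.sdiff_disjoint F]
    refine Finset.sum_congr rfl fun M _ => ?_
    unfold md
    have : ind (IsMat Finset.univ M) * ind (θ = M.filter (fun p => ¬ p ⊆ B)) =
        ind (θ ⊆ M ∧ IsMat (B \ cov θ) (M \ θ)) := by
      rw [← ind_and]
      apply ind_congr
      constructor
      · rintro ⟨hM, rfl⟩
        refine ⟨Finset.filter_subset _ _, fun p hp => ?_, (hM.subset Finset.sdiff_subset).2⟩
        obtain ⟨hp1, hp2⟩ := Finset.mem_sdiff.mp hp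
        have hpB : p ⊆ B := by
          by_contra hh
          exact hp2 (Finset.mem_filter.mpr ⟨hp1, hh⟩)
        refine ⟨fun v hv => Finset.mem_sdiff.mpr ⟨hpB hv, fun hv' => ?_⟩, (hM.1 p hp1).2⟩
        obtain ⟨q, hq, hvq⟩ := mem_cov.mp hv'
        exact hp2 (hM.eq_of_mem hp1 (Finset.mem_filter.mp hq).1 hv hvq ▸ hq)
      · rintro ⟨hθM, hM⟩
        have h2 := hθ.1.union hM (Finset.subset_univ _) Finset.sdiff_disjoint
        rw [Finset.union_sdiff_of_subset hθM] at h2
        refine ⟨h2, ?_⟩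
        ext p
        simp only [Finset.mem_filter]
        constructor
        · intro hp
          exact ⟨hθM hp, hθ.2 p hp⟩
        · rintro ⟨hp, hpB⟩
          by_contra hh
          exact hpB ((hM.1 p (Finset.mem_sdiff.mpr ⟨hp, hh⟩)).1.trans Finset.sdiff_subset)
    rw [← this]
    ring
  · rw [ind_neg hθ, mul_zero, zero_mul]
    refine Finset.sum_eq_zero fun M _ => ?_
    unfold md
    have : ind (IsMat Finset.univ M) * ind (θ = M.filter (fun p => ¬ p ⊆ B)) = 0 := by
      rw [← ind_and, ind_neg]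
      rintro ⟨hM, rfl⟩
      exact hθ ⟨hM.subset (Finset.filter_subset _ _), fun p hp => (Finset.mem_filter.mp hp).2⟩
    calc _ = wt lam M * F M * (ind (IsMat Finset.univ M) *
          ind (θ = M.filter (fun p => ¬ p ⊆ B))) := by ring
      _ = 0 := by rw [this, mul_zero]

end

end Pool.Agent.Lib.MP_f8e628_co
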