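import Mathlib
import Pool.Agent.Lib.MP_f8e628_co.Near

set_option autoImplicit false

open Finset

namespace Pool.Agent.Lib.MP_f8e628_co

/-- A second-moment bound with few exceptional indices and few exceptional pairs. -/
lemma second_moment {Ω J : Type*} [Fintype Ω] [DecidableEq J] (ν : Ω → ℝ) (hν : ∀ ω, 0 ≤ ν ω)
    (T0 : ℝ) (hT0 : ∑ ω, ν ω = T0) (I : Finset J) (Y : J → Ω → ℝ) (hY0 : ∀ j ω, 0 ≤ Y j ω)
    {wmax n β γ c ζ : ℝ} (hYw : ∀ j ∈ I, ∀ ω, Y j ω ≤ wmax) (hw0 : 0 ≤ wmax)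
    (hn : 0 < n) (hI : (I.card : ℝ) ≤ n) (hβ : 0 ≤ β) (hγ0 : 0 ≤ γ) (hγ1 : γ ≤ 1) (hc : 0 ≤ c)
    (hζ : 0 < ζ) (B0 : J → Prop) (B1 : J → J → Prop)
    (hB0 : ∑ j ∈ I, ind (B0 j) ≤ β * n) (hB1 : ∀ j ∈ I, ∑ j' ∈ I, ind (B1 j j') ≤ β * n)
    (h1 : ∀ j ∈ I, ¬ B0 j → (1 - γ) * T0 / n ≤ ∑ ω, ν ω * Y j ω)
    (h2 : ∀ j ∈ I, ∀ j' ∈ I, j ≠ j' → ¬ B0 j → ¬ B0 j' → ¬ B1 j j' →
      ∑ ω, ν ω * (Y j ω * Y j' ω) ≤ (1 + γ) * T0 / n ^ 2)
    (h3 : ∀ j ∈ I, ∀ j' ∈ I, j ≠ j' → ∑ ω, ν ω * (Y j ω * Y j' ω) ≤ c * T0 / n ^ 2)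
    (h4 : ∀ j ∈ I, ∑ ω, ν ω * Y j ω ≤ c * T0 / n) :
    ∑ ω, ν ω * ind (1 + ζ < ∑ j ∈ I, Y j ω) ≤
      (3 * γ + (3 * c + 2) * β + c * wmax) * T0 / ζ ^ 2 := by
  have hT : 0 ≤ T0 := hT0 ▸ Finset.sum_nonneg fun ω _ => hν ω
  set m := (I.card : ℝ) / n with hm
  have hm0 : 0 ≤ m := by positivity
  have hm1 : m ≤ 1 := (div_le_one hn).mpr hI
  have hIm : (I.card : ℝ) = m * n := by rw [hm]; field_simp
  refine cheb ν hν (fun ω => ∑ j ∈ I, Y j ω) m ζ _ hm1 hζ ?_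
  have e1 : (m - β - γ) * T0 ≤ ∑ ω, ν ω * ∑ j ∈ I, Y j ω := by
    simp only [Finset.mul_sum]
    rw [Finset.sum_comm]
    have a1 : ∀ j ∈ I, (1 - ind (B0 j)) * ((1 - γ) * T0 / n) ≤ ∑ ω, ν ω * Y j ω := by
      intro j hj
      by_cases hb : B0 j
      · rw [ind_pos hb, sub_self, zero_mul]
        exact Finset.sum_nonneg fun ω _ => mul_nonneg (hν ω) (hY0 j ω)
      · rw [ind_neg hb, sub_zero, one_mul]
        exact h1 j hj hb
    refine le_trans ?_ (Finset.sum_le_sum a1)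
    rw [← Finset.sum_mul, Finset.sum_sub_distrib, Finset.sum_const, nsmul_eq_mul, mul_one]
    have a2 : 0 ≤ (1 - γ) * T0 / n := div_nonneg (mul_nonneg (by linarith) hT) hn.le
    have a3 : (m * n - β * n) * ((1 - γ) * T0 / n) ≤
        ((I.card : ℝ) - ∑ j ∈ I, ind (B0 j)) * ((1 - γ) * T0 / n) :=
      mul_le_mul_of_nonneg_right (by linarith) a2
    have a4 : (m * n - β * n) * ((1 - γ) * T0 / n) = (m - β) * (1 - γ) * T0 := by field_simp
    have a5 : m - β - γ ≤ (m - β) * (1 - γ) := by nlinarith [mul_nonneg hβ hγ0]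
    nlinarith [mul_le_mul_of_nonneg_right a5 hT]
  have e2 : ∑ ω, ν ω * (∑ j ∈ I, Y j ω) ^ 2 ≤ ((1 + γ) * m ^ 2 + 3 * c * β + c * wmax) * T0 := by
    have a1 : ∑ ω, ν ω * (∑ j ∈ I, Y j ω) ^ 2 =
        ∑ j ∈ I, ∑ j' ∈ I, ∑ ω, ν ω * (Y j ω * Y j' ω) := by
      have : ∀ j ∈ I, ∑ j' ∈ I, ∑ ω, ν ω * (Y j ω * Y j' ω) =
          ∑ ω, ∑ j' ∈ I, ν ω * (Y j ω * Y j' ω) := fun j _ => Finset.sum_comm
      rw [Finset.sum_congr rfl this, Finset.sum_comm]
      refine Finset.sum_congr rfl fun ω _ => ?_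
      rw [sq, Finset.sum_mul_sum, Finset.mul_sum]
      refine Finset.sum_congr rfl fun j _ => ?_
      rw [Finset.mul_sum]
    have p1 : 0 ≤ (1 + γ) * T0 / n ^ 2 := by positivity
    have p2 : 0 ≤ c * T0 / n ^ 2 := by positivity
    have p3 : 0 ≤ wmax * (c * T0 / n) := by positivity
    have a2 : ∀ j ∈ I, ∀ j' ∈ I, ∑ ω, ν ω * (Y j ω * Y j' ω) ≤
        (1 + γ) * T0 / n ^ 2 + c * T0 / n ^ 2 * (ind (B0 j) + ind (B0 j') + ind (B1 j j')) +
          wmax * (c * T0 / n) * ind (j' = j) := by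
      intro j hj j' hj'
      have i1 := ind_nonneg (B0 j)
      have i2 := ind_nonneg (B0 j')
      have i3 := ind_nonneg (B1 j j')
      have q2 : 0 ≤ c * T0 / n ^ 2 * (ind (B0 j) + ind (B0 j') + ind (B1 j j')) := by positivity
      by_cases hjj : j' = j
      · rw [ind_pos hjj, mul_one, hjj]
        rw [hjj] at q2
        have b1 : ∑ ω, ν ω * (Y j ω * Y j ω) ≤ wmax * ∑ ω, ν ω * Y j ω := by
          rw [Finset.mul_sum]
          refine Finset.sum_le_sum fun ω _ => ?_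
          nlinarith [mul_le_mul_of_nonneg_left (hYw j hj ω) (mul_nonneg (hν ω) (hY0 j ω))]
        have b2 := mul_le_mul_of_nonneg_left (h4 j hj) hw0
        linarith
      · rw [ind_neg hjj, mul_zero, add_zero]
        by_cases hb : ¬ B0 j ∧ ¬ B0 j' ∧ ¬ B1 j j'
        · linarith [h2 j hj j' hj' (Ne.symm hjj) hb.1 hb.2.1 hb.2.2]
        · have b1 : 1 ≤ ind (B0 j) + ind (B0 j') + ind (B1 j j') := by
            by_cases c1 : B0 j
            · rw [ind_pos c1]; linarith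
            · by_cases c2 : B0 j'
              · rw [ind_pos c2]; linarith
              · have c3 : B1 j j' := by
                  by_contra c3
                  exact hb ⟨c1, c2, c3⟩
                rw [ind_pos c3]; linarith
          have b2 := h3 j hj j' hj' (Ne.symm hjj)
          nlinarith [mul_le_mul_of_nonneg_left b1 p2]
    have a3 : ∀ j ∈ I, ∑ j' ∈ I, ∑ ω, ν ω * (Y j ω * Y j' ω) ≤
        m * n * ((1 + γ) * T0 / n ^ 2) + c * T0 / n ^ 2 * (n * ind (B0 j) + 2 * (β * n)) +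
          wmax * (c * T0 / n) := by
      intro j hj
      refine (Finset.sum_le_sum (a2 j hj)).trans ?_
      rw [Finset.sum_add_distrib, Finset.sum_add_distrib, Finset.sum_const, nsmul_eq_mul,
        ← Finset.mul_sum, ← Finset.mul_sum, Finset.sum_add_distrib, Finset.sum_add_distrib,
        Finset.sum_const, nsmul_eq_mul, ← hIm]
      have b1 : ∑ j' ∈ I, ind (j' = j) = 1 := by
        rw [Finset.sum_eq_single j, ind_pos rfl]
        · intro b _ hb
          exact ind_neg hb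
        · intro h
          exact absurd hj h
      rw [b1, mul_one]
      have b2 : (I.card : ℝ) * ind (B0 j) ≤ n * ind (B0 j) :=
        mul_le_mul_of_nonneg_right hI (ind_nonneg _)
      have b3 : (I.card : ℝ) * ind (B0 j) + ∑ j' ∈ I, ind (B0 j') + ∑ j' ∈ I, ind (B1 j j') ≤
          n * ind (B0 j) + 2 * (β * n) := by linarith [hB1 j hj]
      linarith [mul_le_mul_of_nonneg_left b3 p2]
    rw [a1]
    refine (Finset.sum_le_sum a3).trans ?_
    rw [Finset.sum_add_distrib, Finset.sum_add_distrib, Finset.sum_const, nsmul_eq_mul,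
      Finset.sum_const, nsmul_eq_mul, ← Finset.mul_sum, Finset.sum_add_distrib,
      Finset.sum_const, nsmul_eq_mul, ← Finset.mul_sum, hIm]
    have b1 : m * n * (m * n * ((1 + γ) * T0 / n ^ 2)) = (1 + γ) * m ^ 2 * T0 := by field_simp
    have b2 : m * n * (wmax * (c * T0 / n)) = m * (c * wmax * T0) := by field_simp
    have b3 : n * ∑ j ∈ I, ind (B0 j) + m * n * (2 * (β * n)) ≤ 3 * β * n ^ 2 := by
      have := mul_le_mul_of_nonneg_left hB0 hn.le
      have h5 : 0 ≤ β * n ^ 2 := by positivity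
      nlinarith
    have b4 := mul_le_mul_of_nonneg_left b3 p2
    have b5 : c * T0 / n ^ 2 * (3 * β * n ^ 2) = 3 * c * β * T0 := by field_simp
    have b6 : m * (c * wmax * T0) ≤ c * wmax * T0 := mul_le_of_le_one_left (by positivity) hm1
    rw [b1, b2]
    nlinarith
  rw [hT0]
  have f1 := mul_le_mul_of_nonneg_left e1 (by linarith : 0 ≤ 2 * m)
  have f2 : m ^ 2 ≤ 1 := by nlinarith
  have f3 : γ * m ^ 2 * T0 ≤ γ * T0 := by
    have := mul_le_mul_of_nonneg_left f2 (mul_nonneg hγ0 hT)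
    linarith
  have f4 : m * ((β + γ) * T0) ≤ (β + γ) * T0 := mul_le_of_le_one_left (by positivity) hm1
  nlinarith

end Pool.Agent.Lib.MP_f8e628_co
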