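import Mathlib
import Pool.Agent.Lib.MP_f8e628_co.Dimer

set_option autoImplicit false
set_option linter.unusedSectionVars false

open Finset

namespace Pool.Agent.Lib.MP_f8e628_co

section
variable {V : Type*} [DecidableEq V] [Fintype V] {lam : Finset V → ℝ} {Λ : ℝ}

/-- Probability that all vertices of `A` are free, in the model on `T`. -/
noncomputable def qf (lam : Finset V → ℝ) (T A : Finset V) : ℝ := Z lam (T \ A) / Z lam T

noncomputable def pf (lam : Finset V → ℝ) (T : Finset V) (u : V) : ℝ :=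
  ind (u ∈ T) * (Z lam (T.erase u) / Z lam T)

/-- Total weight of short walks from `u` into `X`. -/
noncomputable def infl (lam : Finset V → ℝ) : ℕ → V → Finset V → ℝ
  | 0, u, X => ind (u ∈ X)
  | r + 1, u, X => ind (u ∈ X) + ∑ w ∈ Finset.univ.erase u, lam {u, w} * infl lam r w X

lemma infl_nonneg (h : ∀ p, 0 ≤ lam p) (r : ℕ) (u : V) (X : Finset V) : 0 ≤ infl lam r u X := by
  induction r generalizing u with
  | zero => exact ind_nonneg _
  | succ r ih =>
    exact add_nonneg (ind_nonneg _) (Finset.sum_nonneg fun w _ => mul_nonneg (h _) (ih w))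

lemma ind_le_infl (h : ∀ p, 0 ≤ lam p) (r : ℕ) (u : V) (X : Finset V) :
    ind (u ∈ X) ≤ infl lam r u X := by
  cases r with
  | zero => exact le_rfl
  | succ r =>
    exact le_add_of_nonneg_right
      (Finset.sum_nonneg fun w _ => mul_nonneg (h _) (infl_nonneg h r w X))

lemma infl_union (h : ∀ p, 0 ≤ lam p) (r : ℕ) (u : V) (X Y : Finset V) :
    infl lam r u (X ∪ Y) ≤ infl lam r u X + infl lam r u Y := by
  have h0 : ∀ u, ind (u ∈ X ∪ Y) ≤ ind (u ∈ X) + ind (u ∈ Y) := by
    intro u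
    by_cases hX : u ∈ X
    · rw [ind_pos hX]
      linarith [ind_le_one (u ∈ X ∪ Y), ind_nonneg (u ∈ Y)]
    · rw [ind_neg hX, zero_add]
      exact ind_mono fun hu => (Finset.mem_union.mp hu).resolve_left hX
  induction r generalizing u with
  | zero => exact h0 u
  | succ r ih =>
    simp only [infl]
    have h1 : ∑ w ∈ Finset.univ.erase u, lam {u, w} * infl lam r w (X ∪ Y) ≤
        ∑ w ∈ Finset.univ.erase u, lam {u, w} * infl lam r w X +
        ∑ w ∈ Finset.univ.erase u, lam {u, w} * infl lam r w Y := by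
      rw [← Finset.sum_add_distrib]
      refine Finset.sum_le_sum fun w _ => ?_
      rw [← mul_add]
      exact mul_le_mul_of_nonneg_left (ih w) (h _)
    linarith [h0 u]

lemma infl_empty (r : ℕ) (u : V) : infl lam r u ∅ = 0 := by
  induction r generalizing u with
  | zero => exact ind_neg (by simp)
  | succ r ih => simp [infl, ih, ind]

lemma infl_le_sum (h : ∀ p, 0 ≤ lam p) (r : ℕ) (u : V) (X : Finset V) :
    infl lam r u X ≤ ∑ a ∈ X, infl lam r u {a} := by
  induction X using Finset.induction_on with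
  | empty => simp [infl_empty]
  | insert a X ha ih =>
    rw [Finset.sum_insert ha, Finset.insert_eq]
    linarith [infl_union h r u {a} X]

lemma sum_infl_le (h : ∀ p, 0 ≤ lam p) (hΛ0 : 0 ≤ Λ)
    (hΛ : ∀ u, ∑ w ∈ Finset.univ.erase u, lam {u, w} ≤ Λ) (r : ℕ) (a : V) :
    ∑ u, infl lam r u {a} ≤ (1 + Λ) ^ r := by
  have h0 : ∑ u, ind (u ∈ ({a} : Finset V)) = 1 := by
    rw [sum_ind_eq_card]
    simp [Finset.filter_eq']
  induction r with
  | zero => simp only [infl, pow_zero]; exact h0.le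
  | succ r ih =>
    simp only [infl]
    rw [Finset.sum_add_distrib, h0]
    have h1 : ∑ u, ∑ w ∈ Finset.univ.erase u, lam {u, w} * infl lam r w {a} =
        ∑ w, (∑ u ∈ Finset.univ.erase w, lam {w, u}) * infl lam r w {a} := by
      rw [Finset.sum_comm' (t' := Finset.univ) (s' := fun w => Finset.univ.erase w)
        (by intro x y; simp [eq_comm])]
      refine Finset.sum_congr rfl fun w _ => ?_
      rw [Finset.sum_mul]
      refine Finset.sum_congr rfl fun u _ => ?_
      rw [Finset.pair_comm]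
    have h2 : ∑ w, (∑ u ∈ Finset.univ.erase w, lam {w, u}) * infl lam r w {a} ≤
        ∑ w, Λ * infl lam r w {a} :=
      Finset.sum_le_sum fun w _ => mul_le_mul_of_nonneg_right (hΛ w) (infl_nonneg h r w _)
    rw [← Finset.mul_sum] at h2
    have h3 : (1 : ℝ) ≤ (1 + Λ) ^ r := one_le_pow₀ (by linarith)
    rw [h1, pow_succ]
    nlinarith [mul_le_mul_of_nonneg_left ih hΛ0]

lemma infl_eq_zero {adj : V → V → Prop} (hrefl : ∀ u, adj u u)
    (hadj : ∀ u w, u ≠ w → lam {u, w} ≠ 0 → adj u w) (r : ℕ) (u : V) (X : Finset V)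
    (hX : ∀ y ∈ X, ¬ near adj r u y) : infl lam r u X = 0 := by
  induction r generalizing u with
  | zero => exact ind_neg fun hu => hX u hu rfl
  | succ r ih =>
    simp only [infl]
    rw [ind_neg fun hu => hX u hu (near_refl hrefl _ u), zero_add]
    refine Finset.sum_eq_zero fun w hw => ?_
    by_cases hl : lam {u, w} = 0
    · rw [hl, zero_mul]
    · rw [ih w, mul_zero]
      intro y hy hn
      have := near_trans (near_one (hadj u w (Finset.mem_erase.mp hw).1.symm hl)) hn
      rw [add_comm] at this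
      exact hX y hy this

lemma pf_nonneg (h : ∀ p, 0 ≤ lam p) (T : Finset V) (u : V) : 0 ≤ pf lam T u :=
  mul_nonneg (ind_nonneg _) (div_nonneg (Z_nonneg h _) (Z_nonneg h _))

lemma pf_le_one (h : ∀ p, 0 ≤ lam p) (T : Finset V) (u : V) : pf lam T u ≤ 1 :=
  mul_le_one₀ (ind_le_one _) (div_nonneg (Z_nonneg h _) (Z_nonneg h _))
    ((div_le_one (Z_pos h T)).mpr (Z_mono h (Finset.erase_subset _ _)))

lemma pf_rec (h : ∀ p, 0 ≤ lam p) {T : Finset V} {u : V} (hu : u ∈ T) :
    pf lam T u * (1 + ∑ w ∈ Finset.univ.erase u, lam {u, w} * pf lam (T.erase u) w) = 1 := by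
  have h1 := Z_rec lam hu
  have h2 := Z_pos h T
  have h3 := Z_pos h (T.erase u)
  have h4 : ∑ w ∈ Finset.univ.erase u, lam {u, w} * pf lam (T.erase u) w =
      (∑ w ∈ T.erase u, lam {u, w} * Z lam ((T.erase u).erase w)) / Z lam (T.erase u) := by
    rw [Finset.sum_div]
    symm
    refine Finset.sum_subset_zero_on_sdiff
      (Finset.erase_subset_erase u (Finset.subset_univ T)) ?_ ?_
    · intro w hw
      unfold pf
      rw [ind_neg (Finset.mem_sdiff.mp hw).2, zero_mul, mul_zero]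
    · intro w hw
      unfold pf
      rw [ind_pos hw]
      ring
  rw [h4]
  unfold pf
  rw [ind_pos hu]
  field_simp
  linarith

lemma pf_ge (h : ∀ p, 0 ≤ lam p) (hΛ : ∀ u, ∑ w ∈ Finset.univ.erase u, lam {u, w} ≤ Λ)
    {T : Finset V} {u : V} (hu : u ∈ T) : 1 ≤ (1 + Λ) * pf lam T u := by
  have h1 := pf_rec h hu
  have h2 : ∑ w ∈ Finset.univ.erase u, lam {u, w} * pf lam (T.erase u) w ≤ Λ :=
    le_trans (Finset.sum_le_sum fun w _ => mul_le_of_le_one_right (h _) (pf_le_one h _ _)) (hΛ u)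
  nlinarith [pf_nonneg h T u]

/-- Strong spatial mixing, in weighted form. -/
lemma ssm (h : ∀ p, 0 ≤ lam p) (hΛ0 : 0 ≤ Λ)
    (hΛ : ∀ u, ∑ w ∈ Finset.univ.erase u, lam {u, w} ≤ Λ) (X : Finset V) (r : ℕ) :
    ∀ T T' : Finset V, (∀ y, y ∉ X → (y ∈ T ↔ y ∈ T')) → ∀ u,
      pf lam T u ≤ (1 + (Λ / (1 + Λ)) ^ r * Λ) * pf lam T' u + infl lam r u X := by
  set ρ := Λ / (1 + Λ) with hρ
  have hρ0 : 0 ≤ ρ := div_nonneg hΛ0 (by linarith)
  have triv : ∀ (r : ℕ) (T T' : Finset V), (∀ y, y ∉ X → (y ∈ T ↔ y ∈ T')) → ∀ u,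
      ¬ (u ∉ X ∧ u ∈ T ∧ u ∈ T') →
      pf lam T u ≤ (1 + ρ ^ r * Λ) * pf lam T' u + infl lam r u X := by
    intro r T T' hT u hu
    have h1 : 0 ≤ (1 + ρ ^ r * Λ) * pf lam T' u := mul_nonneg (by positivity) (pf_nonneg h _ _)
    by_cases huX : u ∈ X
    · have h2 := ind_le_infl h r u X
      rw [ind_pos huX] at h2
      linarith [pf_le_one h T u]
    · have huT : u ∉ T := fun huT => hu ⟨huX, huT, (hT u huX).mp huT⟩
      have : pf lam T u = 0 := by unfold pf; rw [ind_neg huT, zero_mul]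
      rw [this]
      linarith [infl_nonneg h r u X]
  induction r with
  | zero =>
    intro T T' hT u
    by_cases hu : u ∉ X ∧ u ∈ T ∧ u ∈ T'
    · have h1 := pf_ge h hΛ hu.2.2
      simp only [pow_zero, one_mul]
      linarith [pf_le_one h T u, infl_nonneg h 0 u X]
    · exact triv 0 T T' hT u hu
  | succ r ih =>
    intro T T' hT u
    by_cases hu : u ∉ X ∧ u ∈ T ∧ u ∈ T'
    swap
    · exact triv _ T T' hT u hu
    obtain ⟨huX, huT, huT'⟩ := hu
    set β := ρ ^ r * Λ with hβ
    have hβ0 : 0 ≤ β := by positivity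
    have hrec := pf_rec h huT
    have hrec' := pf_rec h huT'
    set t := fun w => pf lam (T.erase u) w with ht
    set s := fun w => pf lam (T'.erase u) w with hs
    have hst : ∀ w, s w ≤ (1 + β) * t w + infl lam r w X :=
      ih (T'.erase u) (T.erase u) (fun y hy => by simp only [Finset.mem_erase, hT y hy])
    set St := ∑ w ∈ Finset.univ.erase u, lam {u, w} * t w with hSt
    set Ss := ∑ w ∈ Finset.univ.erase u, lam {u, w} * s w with hSs
    set Sa := ∑ w ∈ Finset.univ.erase u, lam {u, w} * infl lam r w X with hSa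
    set Y := ∑ w ∈ Finset.univ.erase u, lam {u, w} * min (s w) ((1 + β) * t w) with hY
    have hY1 : Y ≤ Λ := le_trans (Finset.sum_le_sum fun w _ =>
      mul_le_of_le_one_right (h _) ((min_le_left _ _).trans (pf_le_one h _ _))) (hΛ u)
    have hY2 : Y ≤ (1 + β) * St := by
      rw [hSt, Finset.mul_sum]
      refine Finset.sum_le_sum fun w _ => ?_
      rw [mul_left_comm]
      exact mul_le_mul_of_nonneg_left (min_le_right _ _) (h _)
    have hY3 : Ss ≤ Y + Sa := by
      rw [hY, hSa, ← Finset.sum_add_distrib]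
      refine Finset.sum_le_sum fun w _ => ?_
      rw [← mul_add]
      refine mul_le_mul_of_nonneg_left ?_ (h _)
      rcases min_choice (s w) ((1 + β) * t w) with h1 | h1
      · rw [h1]; linarith [infl_nonneg h r w X]
      · rw [h1]; exact hst w
    have hSt0 : 0 ≤ St := Finset.sum_nonneg fun w _ => mul_nonneg (h _) (pf_nonneg h _ _)
    have hSa0 : 0 ≤ Sa := Finset.sum_nonneg fun w _ => mul_nonneg (h _) (infl_nonneg h _ _ _)
    have hρ1 : ρ * (1 + Λ) = Λ := by rw [hρ]; field_simp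
    have hρ2 : ρ ≤ 1 := by rw [hρ, div_le_one (by linarith)]; linarith
    have hY4 : 1 + Y ≤ (1 + ρ * β) * (1 + St) := by
      have e1 : Y ≤ ρ * (1 + Y) := by nlinarith
      have e2 : (1 + β) * (1 + Y) ≤ (1 + β) * ((1 + ρ * β) * (1 + St)) := by
        have e3 : (1 + ρ * β) * (1 + β + Y) ≤ (1 + ρ * β) * (1 + β + (1 + β) * St) :=
          mul_le_mul_of_nonneg_left (by linarith) (by positivity)
        nlinarith [mul_le_mul_of_nonneg_left e1 hβ0, mul_nonneg (mul_nonneg hρ0 hβ0) hβ0]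
      exact le_of_mul_le_mul_left e2 (by linarith)
    have p0 := pf_nonneg h T u
    have p1 := pf_le_one h T u
    have p0' := pf_nonneg h T' u
    have p1' := pf_le_one h T' u
    have e4 : ρ ^ (r + 1) * Λ = ρ * β := by rw [hβ]; ring
    simp only [infl]
    rw [e4, ind_neg huX, zero_add, ← hSa]
    have e5 : 1 + Ss ≤ (1 + ρ * β) * (1 + St) + Sa := by linarith
    have e6 := mul_le_mul_of_nonneg_left e5 (mul_nonneg p0 p0')
    have e7 : pf lam T u * pf lam T' u * (1 + Ss) = pf lam T u := by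
      rw [mul_assoc, hrec', mul_one]
    have e8 : pf lam T u * pf lam T' u * ((1 + ρ * β) * (1 + St) + Sa) =
        (1 + ρ * β) * pf lam T' u + pf lam T u * pf lam T' u * Sa := by
      calc _ = (1 + ρ * β) * pf lam T' u * (pf lam T u * (1 + St)) +
            pf lam T u * pf lam T' u * Sa := by ring
        _ = _ := by rw [hrec, mul_one]
    have e9 : pf lam T u * pf lam T' u * Sa ≤ Sa :=
      mul_le_of_le_one_left hSa0 (mul_le_one₀ p1 p0' p1')
    linarith

lemma qf_pos (h : ∀ p, 0 ≤ lam p) (T A : Finset V) : 0 < qf lam T A :=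
  div_pos (Z_pos h _) (Z_pos h _)

lemma qf_le_one (h : ∀ p, 0 ≤ lam p) (T A : Finset V) : qf lam T A ≤ 1 :=
  (div_le_one (Z_pos h T)).mpr (Z_mono h Finset.sdiff_subset)

lemma Z_sdiff (h : ∀ p, 0 ≤ lam p) (T A : Finset V) : Z lam (T \ A) = Z lam T * qf lam T A := by
  unfold qf
  have := (Z_pos h T).ne'
  field_simp

lemma qf_insert (h : ∀ p, 0 ≤ lam p) (T A : Finset V) (u : V) :
    qf lam T (insert u A) = qf lam T A * (Z lam ((T \ A).erase u) / Z lam (T \ A)) := by
  unfold qf
  rw [Finset.sdiff_insert]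
  have := (Z_pos h (T \ A)).ne'
  field_simp

lemma qf_ge (h : ∀ p, 0 ≤ lam p) (hΛ0 : 0 ≤ Λ)
    (hΛ : ∀ u, ∑ w ∈ Finset.univ.erase u, lam {u, w} ≤ Λ) (T A : Finset V) :
    1 ≤ (1 + Λ) ^ A.card * qf lam T A := by
  induction A using Finset.induction_on with
  | empty => simp [qf, (Z_pos h T).ne']
  | insert u A hu ih =>
    rw [qf_insert h, Finset.card_insert_of_notMem hu, pow_succ]
    have h1 : 1 ≤ (1 + Λ) * (Z lam ((T \ A).erase u) / Z lam (T \ A)) := by
      by_cases huT : u ∈ T \ A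
      · have := pf_ge h hΛ huT
        unfold pf at this
        rwa [ind_pos huT, one_mul] at this
      · rw [Finset.erase_eq_of_notMem huT, div_self (Z_pos h _).ne']
        linarith
    calc (1 : ℝ) ≤ ((1 + Λ) ^ A.card * qf lam T A) *
          ((1 + Λ) * (Z lam ((T \ A).erase u) / Z lam (T \ A))) := one_le_mul_of_one_le_of_one_le ih h1
      _ = _ := by ring

lemma qf_cmp (h : ∀ p, 0 ≤ lam p) (hΛ0 : 0 ≤ Λ)
    (hΛ : ∀ u, ∑ w ∈ Finset.univ.erase u, lam {u, w} ≤ Λ) (X : Finset V) (r : ℕ) {γ1 γ2 : ℝ}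
    (hγ1 : γ1 < 1) (hγ0 : 0 ≤ γ1) (hγ2 : (Λ / (1 + Λ)) ^ r * Λ + γ1 * (1 + Λ) ≤ γ2)
    (T T' : Finset V) (hT : ∀ y, y ∉ X → (y ∈ T ↔ y ∈ T')) (A : Finset V)
    (hA : ∀ u ∈ A, infl lam r u X ≤ γ1) :
    qf lam T A ≤ (1 + γ2) ^ A.card * qf lam T' A := by
  have hγ20 : 0 ≤ γ2 := le_trans (by positivity) hγ2
  induction A using Finset.induction_on with
  | empty => simp [qf, (Z_pos h T).ne', (Z_pos h T').ne']
  | insert u A hu ih =>
    have ih' := ih fun x hx => hA x (Finset.mem_insert_of_mem hx)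
    have hu1 := hA u (Finset.mem_insert_self _ _)
    have huX : u ∉ X := by
      intro huX
      have := ind_le_infl h r u X
      rw [ind_pos huX] at this
      linarith
    rw [qf_insert h, qf_insert h, Finset.card_insert_of_notMem hu, pow_succ]
    have h1 : Z lam ((T \ A).erase u) / Z lam (T \ A) ≤
        (1 + γ2) * (Z lam ((T' \ A).erase u) / Z lam (T' \ A)) := by
      by_cases huT : u ∈ T
      · have huT1 : u ∈ T \ A := Finset.mem_sdiff.mpr ⟨huT, hu⟩
        have huT2 : u ∈ T' \ A := Finset.mem_sdiff.mpr ⟨(hT u huX).mp huT, hu⟩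
        have h2 := ssm h hΛ0 hΛ X r (T \ A) (T' \ A)
          (fun y hy => by simp only [Finset.mem_sdiff, hT y hy]) u
        have h3 := pf_ge h hΛ huT2
        have h4 := pf_nonneg h (T' \ A) u
        have h5 : pf lam (T \ A) u ≤ (1 + γ2) * pf lam (T' \ A) u := by
          nlinarith [mul_le_mul_of_nonneg_left h3 hγ0, mul_le_mul_of_nonneg_right hγ2 h4]
        unfold pf at h5
        rwa [ind_pos huT1, ind_pos huT2, one_mul, one_mul] at h5
      · have huT1 : u ∉ T \ A := fun hh => huT (Finset.mem_sdiff.mp hh).1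
        have huT2 : u ∉ T' \ A := fun hh => huT ((hT u huX).mpr (Finset.mem_sdiff.mp hh).1)
        rw [Finset.erase_eq_of_notMem huT1, Finset.erase_eq_of_notMem huT2,
          div_self (Z_pos h _).ne', div_self (Z_pos h _).ne']
        linarith
    calc qf lam T A * (Z lam ((T \ A).erase u) / Z lam (T \ A))
        ≤ ((1 + γ2) ^ A.card * qf lam T' A) *
          ((1 + γ2) * (Z lam ((T' \ A).erase u) / Z lam (T' \ A))) :=
          mul_le_mul ih' h1 (div_nonneg (Z_nonneg h _) (Z_nonneg h _))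
            (mul_nonneg (by positivity) (qf_pos h _ _).le)
      _ = _ := by ring

end

end Pool.Agent.Lib.MP_f8e628_co
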