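import Mathlib
import Pool.Agent.Lib.MP_f8e628_co.Mixing
import Pool.Agent.Lib.MP_f8e628_co.Bite

set_option autoImplicit false
set_option linter.unusedSectionVars false

open Finset

namespace Pool.Agent.Lib.MP_f8e628_co

section
variable {V : Type*} [DecidableEq V] [Fintype V]

/-- `hp e` is the set of marked pairs of the triple `e`: there is at most one. -/
structure Geo (G : Finset (Finset V)) (hp : Finset V → Finset (Finset V)) : Prop where
  card3 : ∀ e ∈ G, e.card = 3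
  pair : ∀ e ∈ G, ∀ p ∈ hp e, p ⊆ e ∧ p.card = 2
  uniq : ∀ e ∈ G, ∀ p ∈ hp e, ∀ q ∈ hp e, p = q

def Uf (hp : Finset V → Finset (Finset V)) (e : Finset V) : Finset V := e \ cov (hp e)

/-- The triple `e` is available: its marked pair is matched and its other vertices are free. -/
def av (hp : Finset V → Finset (Finset V)) (e : Finset V) (M : Finset (Finset V)) : Prop :=
  Ev (hp e) (Uf hp e) M

def Po (hp : Finset V → Finset (Finset V)) (e : Finset V) (v : V) : Finset (Finset V) :=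
  (hp e).filter (fun p => v ∈ p)

def Pr (hp : Finset V → Finset (Finset V)) (e : Finset V) (v : V) : Finset (Finset V) :=
  (hp e).filter (fun p => v ∉ p)

def ob (P : Finset (Finset V)) (v : V) : Finset V := insert v (cov P)

def Js (G : Finset (Finset V)) (hp : Finset V → Finset (Finset V)) (P : Finset (Finset V))
    (v : V) : Finset (Finset V) := G.filter (fun e => v ∈ e ∧ Po hp e v = P)

variable {G : Finset (Finset V)} {hp : Finset V → Finset (Finset V)}

lemma ev_and (P P' : Finset (Finset V)) (U U' : Finset V) (M : Finset (Finset V)) :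
    Ev P U M ∧ Ev P' U' M ↔ Ev (P ∪ P') (U ∪ U') M := by
  unfold Ev
  rw [Finset.union_subset_iff, Finset.disjoint_union_left]
  tauto

lemma Geo.cov_subset (h : Geo G hp) {e : Finset V} (he : e ∈ G) : cov (hp e) ⊆ e := by
  intro x hx
  obtain ⟨p, hp1, hxp⟩ := mem_cov.mp hx
  exact (h.pair e he p hp1).1 hxp

lemma Geo.cov_union_Uf (h : Geo G hp) {e : Finset V} (he : e ∈ G) :
    cov (hp e) ∪ Uf hp e = e := Finset.union_sdiff_of_subset (h.cov_subset he)

lemma Geo.isMat (h : Geo G hp) {e S : Finset V} (he : e ∈ G) (hS : e ⊆ S) : IsMat S (hp e) :=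
  ⟨fun p hp1 => ⟨(h.pair e he p hp1).1.trans hS, (h.pair e he p hp1).2⟩,
    fun p hp1 q hq hne => absurd (h.uniq e he p hp1 q hq) hne⟩

lemma Uf_disjoint (e : Finset V) : Disjoint (Uf hp e) (cov (hp e)) := Finset.sdiff_disjoint

lemma av_Po {S e : Finset V} {M : Finset (Finset V)} (hM : IsMat S M) (ha : av hp e M) {v : V}
    (hv : v ∈ e) : Po hp e v = M.filter (fun p => v ∈ p) := by
  ext p
  simp only [Po, Finset.mem_filter]
  constructor
  · rintro ⟨h1, h2⟩
    exact ⟨ha.1 h1, h2⟩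
  · rintro ⟨h1, h2⟩
    refine ⟨?_, h2⟩
    by_cases hc : v ∈ cov (hp e)
    · obtain ⟨q, hq, hvq⟩ := mem_cov.mp hc
      rwa [hM.eq_of_mem h1 (ha.1 hq) h2 hvq]
    · exact absurd (mem_cov.mpr ⟨p, h1, h2⟩)
        (Finset.disjoint_left.mp ha.2 (Finset.mem_sdiff.mpr ⟨hv, hc⟩))

lemma Po_union_Pr (e : Finset V) (v : V) : Po hp e v ∪ Pr hp e v = hp e :=
  Finset.filter_union_filter_not_eq _ _

lemma wt_hp (lam : Finset V → ℝ) (e : Finset V) (v : V) :
    wt lam (hp e) = wt lam (Po hp e v) * wt lam (Pr hp e v) :=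
  (Finset.prod_filter_mul_prod_filter_not _ _ _).symm

lemma Geo.ob_subset (h : Geo G hp) {e : Finset V} (he : e ∈ G) {v : V} (hv : v ∈ e) :
    ob (Po hp e v) v ⊆ e := by
  refine Finset.insert_subset hv fun x hx => ?_
  obtain ⟨p, hp1, hxp⟩ := mem_cov.mp hx
  exact (h.pair e he p (Finset.mem_filter.mp hp1).1).1 hxp

lemma Geo.card_rest (h : Geo G hp) {e : Finset V} (he : e ∈ G) {v : V} (hv : v ∈ e)
    (P : Finset (Finset V)) : (e \ ob P v).card ≤ 2 := by
  have h1 : e \ ob P v ⊆ e.erase v := by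
    intro x hx
    obtain ⟨h1, h2⟩ := Finset.mem_sdiff.mp hx
    exact Finset.mem_erase.mpr ⟨fun hxv => h2 (hxv ▸ Finset.mem_insert_self _ _), h1⟩
  have h2 := Finset.card_le_card h1
  rw [Finset.card_erase_of_mem hv, h.card3 e he] at h2
  exact h2

lemma Geo.cov_Pr (h : Geo G hp) {e : Finset V} (he : e ∈ G) (v : V) :
    cov (Pr hp e v) ⊆ e \ ob (Po hp e v) v := by
  intro x hx
  obtain ⟨p, hp1, hxp⟩ := mem_cov.mp hx
  obtain ⟨hp2, hp3⟩ := Finset.mem_filter.mp hp1
  refine Finset.mem_sdiff.mpr ⟨(h.pair e he p hp2).1 hxp, fun hx' => ?_⟩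
  rcases Finset.mem_insert.mp hx' with rfl | hx'
  · exact hp3 hxp
  · obtain ⟨q, hq1, -⟩ := mem_cov.mp hx'
    obtain ⟨hq2, hq3⟩ := Finset.mem_filter.mp hq1
    exact hp3 (h.uniq e he p hp2 q hq2 ▸ hq3)

lemma Geo.Pr_disjoint (h : Geo G hp) {e e' : Finset V} (he : e ∈ G) (he' : e' ∈ G) {v : V}
    (hv : v ∈ e) (hv' : v ∈ e') (hne : e ≠ e') : Disjoint (hp e) (Pr hp e' v) := by
  rw [Finset.disjoint_left]
  intro p hp1 hp2
  obtain ⟨hp3, hp4⟩ := Finset.mem_filter.mp hp2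
  have key : ∀ f ∈ G, v ∈ f → p ∈ hp f → f = insert v p := by
    intro f hf hvf hpf
    symm
    apply Finset.eq_of_subset_of_card_le (Finset.insert_subset hvf (h.pair f hf p hpf).1)
    rw [Finset.card_insert_of_notMem hp4, (h.pair f hf p hpf).2, h.card3 f hf]
  exact hne ((key e he hv hp1).trans (key e' he' hv' hp3).symm)

lemma hp_union {e0 e : Finset V} {v : V} (hP : Po hp e v = Po hp e0 v) (Q : Finset (Finset V))
    (hQ : hp e0 ⊆ Q) : Q ∪ hp e = Q ∪ Pr hp e v := by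
  have h1 : Po hp e0 v ⊆ Q := (Finset.filter_subset _ _).trans hQ
  rw [← Po_union_Pr (hp := hp) e v, ← Finset.union_assoc, hP, Finset.union_eq_left.mpr h1]

lemma Geo.sdiff_union (h : Geo G hp) {e0 e : Finset V} (he0 : e0 ∈ G) {v : V} (hv0 : v ∈ e0)
    (S T : Finset V) (hT : e0 ⊆ T) : S \ (T ∪ e) = (S \ T) \ (e \ ob (Po hp e0 v) v) := by
  have h1 := (h.ob_subset he0 hv0).trans hT
  ext x
  simp only [Finset.mem_sdiff, Finset.mem_union]
  constructor
  · rintro ⟨h2, h3⟩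
    exact ⟨⟨h2, fun h4 => h3 (Or.inl h4)⟩, fun h4 => h3 (Or.inr h4.1)⟩
  · rintro ⟨⟨h2, h3⟩, h4⟩
    refine ⟨h2, ?_⟩
    rintro (h5 | h5)
    · exact h3 h5
    · exact h4 ⟨h5, fun h6 => h3 (h1 h6)⟩

variable {lam : Finset V → ℝ}

lemma Geo.mass_one (h : Geo G hp) {e S : Finset V} (he : e ∈ G) (hS : e ⊆ S) :
    ∑ M, md lam S M * ind (av hp e M) = wt lam (hp e) * Z lam (S \ e) := by
  have := ev_exact lam (h.isMat he hS) (Uf_disjoint (hp := hp) e)
  rwa [h.cov_union_Uf he] at this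

lemma Geo.mass_two_le (h : Geo G hp) (hl : ∀ p, 0 ≤ lam p) {e0 e : Finset V} (S : Finset V)
    (he0 : e0 ∈ G) (he : e ∈ G) {v : V} (hv0 : v ∈ e0) (hv : v ∈ e)
    (hP : Po hp e v = Po hp e0 v) (hne : e0 ≠ e) :
    ∑ M, md lam S M * ind (av hp e0 M) * ind (av hp e M) ≤
      wt lam (hp e0) * Z lam (S \ e0) *
        (wt lam (Pr hp e v) * qf lam (S \ e0) (e \ ob (Po hp e0 v) v)) := by
  have h1 := ev_le hl S (Uf hp e0 ∪ Uf hp e) (hp e0 ∪ hp e)
  have h2 : cov (hp e0 ∪ hp e) ∪ (Uf hp e0 ∪ Uf hp e) = e0 ∪ e := by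
    rw [cov_union, Finset.union_union_union_comm, h.cov_union_Uf he0, h.cov_union_Uf he]
  rw [h2, h.sdiff_union he0 hv0 S e0 subset_rfl, Z_sdiff hl] at h1
  have h3 : wt lam (hp e0 ∪ hp e) = wt lam (hp e0) * wt lam (Pr hp e v) := by
    rw [hp_union hP _ subset_rfl]
    exact Finset.prod_union (h.Pr_disjoint he0 he hv0 hv hne)
  rw [h3] at h1
  calc _ = ∑ M, md lam S M * ind (Ev (hp e0 ∪ hp e) (Uf hp e0 ∪ Uf hp e) M) := by
        refine Finset.sum_congr rfl fun M _ => ?_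
        unfold av
        rw [mul_assoc, ← ind_and, ind_congr (ev_and _ _ _ _ M)]
    _ ≤ _ := h1
    _ = _ := by ring

lemma Geo.mass_two_eq (h : Geo G hp) (hl : ∀ p, 0 ≤ lam p) {e0 e S : Finset V}
    (he0 : e0 ∈ G) (he : e ∈ G) {v : V} (hv0 : v ∈ e0) (hv : v ∈ e)
    (hP : Po hp e v = Po hp e0 v) (hne : e0 ≠ e) (hS0 : e0 ⊆ S) (hS : e ⊆ S)
    (hd : Disjoint (e \ ob (Po hp e0 v) v) e0) :
    ∑ M, md lam S M * ind (av hp e0 M) * ind (av hp e M) =
      wt lam (hp e0) * Z lam (S \ e0) *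
        (wt lam (Pr hp e v) * qf lam (S \ e0) (e \ ob (Po hp e0 v) v)) := by
  have hc : cov (Pr hp e v) ⊆ e \ ob (Po hp e0 v) v := hP ▸ h.cov_Pr he v
  have hu := hp_union hP (hp e0) subset_rfl
  have hM : IsMat S (hp e0 ∪ hp e) := by
    rw [hu]
    refine (h.isMat he0 hS0).union (T := e \ ob (Po hp e0 v) v) ?_
      (Finset.sdiff_subset.trans hS) (Finset.disjoint_of_subset_right (h.cov_subset he0) hd)
    refine ⟨fun p hp1 => ⟨fun x hx => hc (mem_cov.mpr ⟨p, hp1, hx⟩),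
      (h.pair e he p (Finset.mem_filter.mp hp1).1).2⟩, ?_⟩
    exact ((h.isMat he hS).subset (Finset.filter_subset _ _)).2
  have hU : Disjoint (Uf hp e0 ∪ Uf hp e) (cov (hp e0 ∪ hp e)) := by
    rw [Finset.disjoint_union_left]
    constructor
    · rw [hu, cov_union, Finset.disjoint_union_right]
      exact ⟨Uf_disjoint e0, Finset.disjoint_of_subset_left Finset.sdiff_subset
        (Finset.disjoint_of_subset_right hc hd.symm)⟩
    · rw [cov_union, Finset.disjoint_union_right]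
      refine ⟨?_, Uf_disjoint e⟩
      rw [← Po_union_Pr (hp := hp) e0 v, cov_union, Finset.disjoint_union_right]
      constructor
      · refine Finset.disjoint_of_subset_right ?_ (Uf_disjoint e)
        rw [← hP, ← Po_union_Pr (hp := hp) e v, cov_union]
        exact Finset.subset_union_left
      · rw [Finset.disjoint_left]
        intro x hx hx'
        obtain ⟨h1, h2⟩ := Finset.mem_sdiff.mp (h.cov_Pr he0 v hx')
        exact Finset.disjoint_left.mp hd
          (Finset.mem_sdiff.mpr ⟨(Finset.mem_sdiff.mp hx).1, h2⟩) h1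
  have h1 := ev_exact lam hM hU
  have h2 : cov (hp e0 ∪ hp e) ∪ (Uf hp e0 ∪ Uf hp e) = e0 ∪ e := by
    rw [cov_union, Finset.union_union_union_comm, h.cov_union_Uf he0, h.cov_union_Uf he]
  rw [h2, h.sdiff_union he0 hv0 S e0 subset_rfl, Z_sdiff hl] at h1
  have h3 : wt lam (hp e0 ∪ hp e) = wt lam (hp e0) * wt lam (Pr hp e v) := by
    rw [hu]
    exact Finset.prod_union (h.Pr_disjoint he0 he hv0 hv hne)
  rw [h3] at h1
  calc _ = ∑ M, md lam S M * ind (Ev (hp e0 ∪ hp e) (Uf hp e0 ∪ Uf hp e) M) := by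
        refine Finset.sum_congr rfl fun M _ => ?_
        unfold av
        rw [mul_assoc, ← ind_and, ind_congr (ev_and _ _ _ _ M)]
    _ = _ := h1
    _ = _ := by ring

lemma Geo.mass_three_le (h : Geo G hp) (hl : ∀ p, 0 ≤ lam p) {e0 e e' : Finset V} (S : Finset V)
    (he0 : e0 ∈ G) (he : e ∈ G) (he' : e' ∈ G) {v : V} (hv0 : v ∈ e0) (hv : v ∈ e)
    (hv' : v ∈ e') (hP : Po hp e v = Po hp e0 v) (hP' : Po hp e' v = Po hp e0 v)
    (hne : e0 ≠ e) (hne' : e0 ≠ e') (hee : e ≠ e') :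
    ∑ M, md lam S M * ind (av hp e0 M) * (ind (av hp e M) * ind (av hp e' M)) ≤
      wt lam (hp e0) * Z lam (S \ e0) *
        (wt lam (Pr hp e v) * qf lam (S \ e0) (e \ ob (Po hp e0 v) v)) *
        (wt lam (Pr hp e' v) *
          qf lam ((S \ e0) \ (e \ ob (Po hp e0 v) v)) (e' \ ob (Po hp e0 v) v)) := by
  have h1 := ev_le hl S (Uf hp e0 ∪ Uf hp e ∪ Uf hp e') (hp e0 ∪ hp e ∪ hp e')
  have h2 : cov (hp e0 ∪ hp e ∪ hp e') ∪ (Uf hp e0 ∪ Uf hp e ∪ Uf hp e') = e0 ∪ e ∪ e' := by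
    rw [cov_union, Finset.union_union_union_comm, cov_union, Finset.union_union_union_comm
      (cov (hp e0)), h.cov_union_Uf he0, h.cov_union_Uf he, h.cov_union_Uf he']
  rw [h2, h.sdiff_union he0 hv0 S (e0 ∪ e) Finset.subset_union_left,
    h.sdiff_union he0 hv0 S e0 subset_rfl, Z_sdiff hl, Z_sdiff hl] at h1
  have h3 : wt lam (hp e0 ∪ hp e ∪ hp e') =
      wt lam (hp e0) * wt lam (Pr hp e v) * wt lam (Pr hp e' v) := by
    rw [hp_union hP' _ Finset.subset_union_left]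
    unfold wt
    rw [Finset.prod_union (Finset.disjoint_union_left.mpr
      ⟨h.Pr_disjoint he0 he' hv0 hv' hne', h.Pr_disjoint he he' hv hv' hee⟩),
      hp_union hP _ subset_rfl, Finset.prod_union (h.Pr_disjoint he0 he hv0 hv hne)]
  rw [h3] at h1
  calc _ = ∑ M, md lam S M *
        ind (Ev (hp e0 ∪ hp e ∪ hp e') (Uf hp e0 ∪ Uf hp e ∪ Uf hp e') M) := by
        refine Finset.sum_congr rfl fun M _ => ?_
        rw [← ind_congr (ev_and _ _ _ _ M), ← ind_congr (and_congr_left fun _ => ev_and _ _ _ _ M),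
          ind_and, ind_and]
        unfold av
        ring
    _ ≤ _ := h1
    _ = _ := by ring

end

end Pool.Agent.Lib.MP_f8e628_co
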