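import Mathlib
import Pool.Agent.Lib.MP_f8e628_co.StageDefs
import Pool.Agent.Lib.MP_f8e628_co.SecondMoment

set_option autoImplicit false
set_option linter.unusedSectionVars false

open Finset

namespace Pool.Agent.Lib.MP_f8e628_co

section
variable {V : Type*} [DecidableEq V] [Fintype V]

noncomputable def we (hp : Finset V → Finset (Finset V)) (lam : Finset V → ℝ) (K : ℝ)
    (e : Finset V) : ℝ := 1 / (K * (wt lam (hp e) * qf lam Finset.univ e))

noncomputable def V1 (hp : Finset V → Finset (Finset V)) (lam : Finset V → ℝ) (K : ℝ)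
    (M : Finset (Finset V)) (e : Finset V) : ℝ := we hp lam K e * ind (av hp e M)

noncomputable def V2 (G : Finset (Finset V)) (hp : Finset V → Finset (Finset V))
    (lam : Finset V → ℝ) (K ζ : ℝ) (M : Finset (Finset V)) (e : Finset V) : ℝ :=
  V1 hp lam K M e * ind (∀ u ∈ e, ¬ (1 + ζ < load G (fun e => e) (V1 hp lam K M) u)) / (1 + ζ)

noncomputable def nob (lam : Finset V → ℝ) (K : ℝ) (P : Finset (Finset V)) (v : V) : ℝ :=
  K * (wt lam P * qf lam Finset.univ (ob P v))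

structure Setup (G : Finset (Finset V)) (hp : Finset V → Finset (Finset V))
    (lam : Finset V → ℝ) (K Λ β0 : ℝ) : Prop where
  geo : Geo G hp
  K_pos : 0 < K
  lam0 : ∀ p, 0 ≤ lam p
  Λ0 : 0 ≤ Λ
  lamΛ : ∀ u, ∑ w ∈ Finset.univ.erase u, lam {u, w} ≤ Λ
  β0_pos : 0 < β0
  n1 : ∀ e ∈ G, ∀ v ∈ e, ((Js G hp (Po hp e v) v).card : ℝ) ≤ nob lam K (Po hp e v) v
  n2 : ∀ e ∈ G, ∀ v ∈ e, ∀ u, u ∉ ob (Po hp e v) v →
    (((Js G hp (Po hp e v) v).filter (fun f => u ∈ f)).card : ℝ) ≤ β0 * nob lam K (Po hp e v) v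
  n3 : ∀ e ∈ G, 1 ≤ β0 * (K * wt lam (hp e))

variable {G : Finset (Finset V)} {hp : Finset V → Finset (Finset V)} {lam : Finset V → ℝ}
  {K Λ β0 : ℝ}

lemma Setup.wt_pos (h : Setup G hp lam K Λ β0) {e : Finset V} (he : e ∈ G) :
    0 < wt lam (hp e) := by
  have h1 := h.n3 e he
  rcases (wt_nonneg h.lam0 (hp e)).eq_or_lt with h2 | h2
  · rw [← h2] at h1
    norm_num at h1
  · exact h2

lemma Setup.we_nonneg (h : Setup G hp lam K Λ β0) (e : Finset V) : 0 ≤ we hp lam K e :=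
  div_nonneg zero_le_one (mul_nonneg h.K_pos.le
    (mul_nonneg (wt_nonneg h.lam0 _) (qf_pos h.lam0 _ _).le))

lemma Setup.we_le' (h : Setup G hp lam K Λ β0) {e : Finset V} (he : e ∈ G) :
    we hp lam K e * (K * wt lam (hp e)) ≤ (1 + Λ) ^ 3 := by
  have h1 := qf_ge h.lam0 h.Λ0 h.lamΛ Finset.univ e
  rw [h.geo.card3 e he] at h1
  have h2 := h.wt_pos he
  have h3 := qf_pos h.lam0 Finset.univ e
  have h4 := h.K_pos
  have h5 : we hp lam K e * (K * wt lam (hp e)) = 1 / qf lam Finset.univ e := by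
    unfold we
    field_simp
  rw [h5, div_le_iff₀ h3]
  exact h1

lemma Setup.we_le (h : Setup G hp lam K Λ β0) {e : Finset V} (he : e ∈ G) :
    we hp lam K e ≤ (1 + Λ) ^ 3 * β0 := by
  have h1 := h.we_le' he
  have h2 := h.n3 e he
  have h3 := h.we_nonneg e
  nlinarith [mul_le_mul_of_nonneg_left h2 h3, mul_le_mul_of_nonneg_left h1 h.β0_pos.le]

lemma Setup.V1_nonneg (h : Setup G hp lam K Λ β0) (M : Finset (Finset V)) (e : Finset V) :
    0 ≤ V1 hp lam K M e := mul_nonneg (h.we_nonneg e) (ind_nonneg _)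

lemma Setup.V1_le (h : Setup G hp lam K Λ β0) (M : Finset (Finset V)) (e : Finset V) :
    V1 hp lam K M e ≤ we hp lam K e := mul_le_of_le_one_right (h.we_nonneg e) (ind_le_one _)

lemma Setup.nob_pos (h : Setup G hp lam K Λ β0) {e : Finset V} (he : e ∈ G) (v : V) :
    0 < nob lam K (Po hp e v) v := by
  have h1 := h.wt_pos he
  rw [wt_hp lam e v] at h1
  have h2 : 0 < wt lam (Po hp e v) :=
    pos_of_mul_pos_left h1 (wt_nonneg h.lam0 _)
  exact mul_pos h.K_pos (mul_pos h2 (qf_pos h.lam0 _ _))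

lemma Setup.we_mul (h : Setup G hp lam K Λ β0) {e : Finset V} (he : e ∈ G) {v : V} (hv : v ∈ e) :
    we hp lam K e * wt lam (Pr hp e v) =
      1 / (nob lam K (Po hp e v) v *
        qf lam (Finset.univ \ ob (Po hp e v) v) (e \ ob (Po hp e v) v)) := by
  have h1 := h.wt_pos he
  have h0 := h1
  rw [wt_hp lam e v] at h1
  have h2 : 0 < wt lam (Po hp e v) := pos_of_mul_pos_left h1 (wt_nonneg h.lam0 _)
  have h3 : 0 < wt lam (Pr hp e v) := pos_of_mul_pos_right h1 (wt_nonneg h.lam0 _)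
  have h4 : qf lam Finset.univ e = qf lam Finset.univ (ob (Po hp e v) v) *
      qf lam (Finset.univ \ ob (Po hp e v) v) (e \ ob (Po hp e v) v) := by
    have h5 : (Finset.univ \ ob (Po hp e v) v) \ (e \ ob (Po hp e v) v) = Finset.univ \ e := by
      have h6 := h.geo.ob_subset he hv
      ext x
      simp only [Finset.mem_sdiff, Finset.mem_univ, true_and]
      constructor
      · rintro ⟨h7, h8⟩ h9
        exact h8 ⟨h9, h7⟩
      · intro h7
        exact ⟨fun h8 => h7 (h6 h8), fun h8 => h7 h8.1⟩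
    unfold qf
    rw [h5]
    have := (Z_pos h.lam0 (Finset.univ \ ob (Po hp e v) v)).ne'
    field_simp
  unfold we nob
  rw [h4, wt_hp lam e v]
  have := (qf_pos h.lam0 Finset.univ (ob (Po hp e v) v)).ne'
  have := (qf_pos h.lam0 (Finset.univ \ ob (Po hp e v) v) (e \ ob (Po hp e v) v)).ne'
  have := h.K_pos.ne'
  field_simp

lemma Setup.count_near (h : Setup G hp lam K Λ β0) {e0 : Finset V} (he0 : e0 ∈ G) {v : V}
    (hv0 : v ∈ e0) (R : ℕ) {γ1 : ℝ} (hγ1 : 0 < γ1) (A : Finset V) (hA : A.card ≤ 2) :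
    ∑ e ∈ Js G hp (Po hp e0 v) v,
      ind (∃ u ∈ e \ ob (Po hp e0 v) v, ∃ a ∈ A, γ1 < infl lam R u {a}) ≤
      2 * (1 + Λ) ^ R / γ1 * β0 * nob lam K (Po hp e0 v) v := by
  set J := Js G hp (Po hp e0 v) v with hJ
  set O := ob (Po hp e0 v) v with hO
  set n := nob lam K (Po hp e0 v) v with hn
  have hn0 : 0 < n := h.nob_pos he0 v
  have h1 : ∀ e ∈ J, ind (∃ u ∈ e \ O, ∃ a ∈ A, γ1 < infl lam R u {a}) ≤
      ∑ a ∈ A, ∑ u, infl lam R u {a} / γ1 * ind (u ∈ e \ O) := by
    intro e _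
    have hnn : ∀ a u, 0 ≤ infl lam R u {a} / γ1 * ind (u ∈ e \ O) := fun a u =>
      mul_nonneg (div_nonneg (infl_nonneg h.lam0 _ _ _) hγ1.le) (ind_nonneg _)
    by_cases hex : ∃ u ∈ e \ O, ∃ a ∈ A, γ1 < infl lam R u {a}
    · rw [ind_pos hex]
      obtain ⟨u, hu, a, ha, hua⟩ := hex
      have h2 := Finset.single_le_sum (f := fun a => ∑ u, infl lam R u {a} / γ1 * ind (u ∈ e \ O))
        (fun a _ => Finset.sum_nonneg fun u _ => hnn a u) ha
      have h3 := Finset.single_le_sum (f := fun u => infl lam R u {a} / γ1 * ind (u ∈ e \ O))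
        (fun u _ => hnn a u) (Finset.mem_univ u)
      simp only [ind_pos hu, mul_one] at h3
      have h4 : 1 ≤ infl lam R u {a} / γ1 := by rw [le_div_iff₀ hγ1]; linarith
      exact h4.trans (h3.trans h2)
    · rw [ind_neg hex]
      exact Finset.sum_nonneg fun a _ => Finset.sum_nonneg fun u _ => hnn a u
  refine (Finset.sum_le_sum h1).trans ?_
  rw [Finset.sum_comm]
  have h2 : ∀ a ∈ A, ∑ e ∈ J, ∑ u, infl lam R u {a} / γ1 * ind (u ∈ e \ O) ≤
      (1 + Λ) ^ R / γ1 * (β0 * n) := by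
    intro a _
    rw [Finset.sum_comm]
    have h3 : ∀ u, ∑ e ∈ J, infl lam R u {a} / γ1 * ind (u ∈ e \ O) ≤
        infl lam R u {a} / γ1 * (β0 * n) := by
      intro u
      rw [← Finset.mul_sum]
      refine mul_le_mul_of_nonneg_left ?_ (div_nonneg (infl_nonneg h.lam0 _ _ _) hγ1.le)
      by_cases huO : u ∈ O
      · rw [Finset.sum_eq_zero fun e _ => ind_neg fun hh => (Finset.mem_sdiff.mp hh).2 huO]
        exact mul_nonneg h.β0_pos.le hn0.le
      · refine le_trans (Finset.sum_le_sum fun e _ =>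
          ind_mono (Q := u ∈ e) fun hh => (Finset.mem_sdiff.mp hh).1) ?_
        rw [sum_ind_eq_card]
        exact h.n2 e0 he0 v hv0 u huO
    refine (Finset.sum_le_sum fun u _ => h3 u).trans ?_
    rw [← Finset.sum_mul, ← Finset.sum_div]
    refine mul_le_mul_of_nonneg_right ?_ (mul_nonneg h.β0_pos.le hn0.le)
    exact div_le_div_of_nonneg_right (sum_infl_le h.lam0 h.Λ0 h.lamΛ R a) hγ1.le
  refine (Finset.sum_le_sum h2).trans ?_
  rw [Finset.sum_const, nsmul_eq_mul]
  have h3 : (A.card : ℝ) ≤ 2 := by exact_mod_cast hA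
  have h4 : 0 ≤ (1 + Λ) ^ R / γ1 * (β0 * n) :=
    mul_nonneg (div_nonneg (pow_nonneg (by linarith [h.Λ0]) _) hγ1.le)
      (mul_nonneg h.β0_pos.le hn0.le)
  calc _ ≤ 2 * ((1 + Λ) ^ R / γ1 * (β0 * n)) := mul_le_mul_of_nonneg_right h3 h4
    _ = _ := by ring

lemma infl_le_of_far (hl : ∀ p, 0 ≤ lam p) (R : ℕ) {γ1 : ℝ} (hγ1 : 0 ≤ γ1) (u : V)
    (A : Finset V) (hA : A.card ≤ 2) (h : ∀ a ∈ A, ¬ γ1 < infl lam R u {a}) :
    infl lam R u A ≤ 2 * γ1 := by
  refine (infl_le_sum hl R u A).trans ?_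
  refine (Finset.sum_le_sum fun a ha => not_lt.mp (h a ha)).trans ?_
  rw [Finset.sum_const, nsmul_eq_mul]
  exact mul_le_mul_of_nonneg_right (by exact_mod_cast hA) hγ1

lemma pow_card_le {x : ℝ} (hx : 0 ≤ x) {A : Finset V} (hA : A.card ≤ 2) :
    (1 + x) ^ A.card ≤ (1 + x) ^ 2 := pow_le_pow_right₀ (by linarith) hA

/-- Conditionally on an available triple, each of its vertices is rarely overloaded. -/
lemma Setup.over (h : Setup G hp lam K Λ β0) {e0 : Finset V} (he0 : e0 ∈ G) {v : V}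
    (hv0 : v ∈ e0) (R : ℕ) {γ1 γ2 γ ζ : ℝ} (hγ1 : 0 < γ1) (hγ1' : 4 * γ1 < 1)
    (hγ2 : (Λ / (1 + Λ)) ^ R * Λ + 4 * γ1 * (1 + Λ) ≤ γ2) (hγ : (1 + γ2) ^ 4 ≤ 1 + γ)
    (hγ' : γ ≤ 1) (hζ : (1 + Λ) ^ 3 * β0 ≤ ζ) (S : Finset V)
    (hS : ∀ e ∈ G, v ∈ e → ∀ u ∈ e, infl lam R u (Finset.univ \ S) = 0) :
    ∑ M, md lam S M * ind (av hp e0 M) *
        ind (1 + 2 * ζ < load G (fun e => e) (V1 hp lam K M) v) ≤
      (3 * γ + (3 * (1 + Λ) ^ 4 + 2) * (2 * (1 + Λ) ^ R / γ1 * β0) +
        (1 + Λ) ^ 4 * ((1 + Λ) ^ 3 * β0)) * (wt lam (hp e0) * Z lam (S \ e0)) / ζ ^ 2 := by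
  have hl := h.lam0
  have hΛ := h.Λ0
  have hβ := h.β0_pos
  have hγ20 : 0 ≤ γ2 := le_trans (by positivity) hγ2
  have hγ0 : 0 ≤ γ := by
    have : (1 : ℝ) ≤ (1 + γ2) ^ 4 := one_le_pow₀ (by linarith)
    linarith
  have hζ0 : 0 < ζ := lt_of_lt_of_le (by positivity) hζ
  have hsub : ∀ e ∈ G, v ∈ e → e ⊆ S := by
    intro e he hv u hu
    by_contra huS
    have h1 := ind_le_infl hl R u (Finset.univ \ S)
    rw [hS e he hv u hu, ind_pos (Finset.mem_sdiff.mpr ⟨Finset.mem_univ _, huS⟩)] at h1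
    linarith
  set P := Po hp e0 v with hP
  set O := ob P v with hO
  set J := Js G hp P v with hJ
  set n := nob lam K P v with hn
  set T0 := wt lam (hp e0) * Z lam (S \ e0) with hT0
  have hn0 : 0 < n := h.nob_pos he0 v
  have hT : 0 ≤ T0 := mul_nonneg (wt_nonneg hl _) (Z_nonneg hl _)
  have hOe0 : O ⊆ e0 := h.geo.ob_subset he0 hv0
  have memI : ∀ e ∈ J.erase e0, e ∈ G ∧ v ∈ e ∧ Po hp e v = P ∧ e0 ≠ e := by
    intro e he
    obtain ⟨h1, h2⟩ := Finset.mem_erase.mp he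
    obtain ⟨h3, h4, h5⟩ := Finset.mem_filter.mp h2
    exact ⟨h3, h4, h5, h1.symm⟩
  have hwe : ∀ e ∈ J.erase e0, we hp lam K e * wt lam (Pr hp e v) =
      1 / (n * qf lam (Finset.univ \ O) (e \ O)) := by
    intro e he
    obtain ⟨h1, h2, h3, -⟩ := memI e he
    have := h.we_mul h1 h2
    rwa [h3] at this
  have hq : ∀ e ∈ J.erase e0, 1 ≤ (1 + Λ) ^ 2 * qf lam (Finset.univ \ O) (e \ O) := by
    intro e he
    obtain ⟨h1, h2, h3, -⟩ := memI e he
    exact (qf_ge hl hΛ h.lamΛ _ _).trans (mul_le_mul_of_nonneg_right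
      (pow_card_le hΛ (h.geo.card_rest h1 h2 P)) (qf_pos hl _ _).le)
  -- the ratio of a conditional probability to its nominal value
  have ratio_le : ∀ e ∈ J.erase e0, ∀ (T : Finset V) (b : ℝ),
      qf lam T (e \ O) ≤ b * qf lam (Finset.univ \ O) (e \ O) →
      we hp lam K e * (wt lam (Pr hp e v) * qf lam T (e \ O)) ≤ b / n := by
    intro e he T b hb
    have h1 := qf_pos hl (Finset.univ \ O) (e \ O)
    rw [← mul_assoc, hwe e he, one_div, inv_mul_eq_div, div_le_div_iff₀ (by positivity) hn0]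
    nlinarith [mul_le_mul_of_nonneg_left hb hn0.le]
  have crude : ∀ e ∈ J.erase e0, ∀ (T : Finset V),
      we hp lam K e * (wt lam (Pr hp e v) * qf lam T (e \ O)) ≤ (1 + Λ) ^ 2 / n :=
    fun e he T => ratio_le e he T _ ((qf_le_one hl _ _).trans (hq e he))
  have agree0 : ∀ y, y ∉ (Finset.univ \ S) ∪ (e0 \ O) → (y ∈ S \ e0 ↔ y ∈ Finset.univ \ O) := by
    intro y hy
    simp only [Finset.mem_union, Finset.mem_sdiff, Finset.mem_univ, true_and, not_or, not_not,
      not_and] at hy ⊢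
    exact ⟨fun h1 h2 => h1.2 (hOe0 h2), fun h1 => ⟨hy.1, fun h2 => h1 (hy.2 h2)⟩⟩
  have far0 : ∀ e ∈ J.erase e0, (¬ ∃ u ∈ e \ O, ∃ a ∈ e0 \ O, γ1 < infl lam R u {a}) →
      ∀ u ∈ e \ O, infl lam R u ((Finset.univ \ S) ∪ (e0 \ O)) ≤ 2 * γ1 := by
    intro e he hb u hu
    obtain ⟨h1, h2, h3, -⟩ := memI e he
    have h4 := infl_union hl R u (Finset.univ \ S) (e0 \ O)
    rw [hS e h1 h2 u (Finset.mem_sdiff.mp hu).1, zero_add] at h4
    exact h4.trans (infl_le_of_far hl R hγ1.le u _ (h.geo.card_rest he0 hv0 P)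
      fun a ha hh => hb ⟨u, hu, a, ha, hh⟩)
  have key := second_moment (fun M => md lam S M * ind (av hp e0 M))
    (fun M => mul_nonneg (md_nonneg hl S M) (ind_nonneg _)) T0
    (h.geo.mass_one he0 (hsub e0 he0 hv0)) (J.erase e0) (fun e M => V1 hp lam K M e)
    (fun e M => h.V1_nonneg M e) (wmax := (1 + Λ) ^ 3 * β0) (n := n)
    (β := 2 * (1 + Λ) ^ R / γ1 * β0) (γ := γ) (c := (1 + Λ) ^ 4) (ζ := ζ)
    (fun e he M => (h.V1_le M e).trans (h.we_le (memI e he).1)) (by positivity) hn0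
    (le_trans (by exact_mod_cast Finset.card_erase_le) (h.n1 e0 he0 v hv0))
    (by positivity) hγ0 hγ' (by positivity) hζ0
    (fun e => ∃ u ∈ e \ O, ∃ a ∈ e0 \ O, γ1 < infl lam R u {a})
    (fun e e' => ∃ u ∈ e' \ O, ∃ a ∈ e \ O, γ1 < infl lam R u {a})
    (le_trans (Finset.sum_le_sum_of_subset_of_nonneg (Finset.erase_subset _ _)
      fun _ _ _ => ind_nonneg _) (h.count_near he0 hv0 R hγ1 _ (h.geo.card_rest he0 hv0 P)))
    (fun e he => le_trans (Finset.sum_le_sum_of_subset_of_nonneg (Finset.erase_subset _ _)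
      fun _ _ _ => ind_nonneg _) (h.count_near he0 hv0 R hγ1 _
        (h.geo.card_rest (memI e he).1 (memI e he).2.1 P)))
    (by
      intro e he hb
      obtain ⟨h1, h2, h3, h4⟩ := memI e he
      have hd : Disjoint (e \ O) e0 := by
        rw [Finset.disjoint_left]
        intro u hu hu0
        refine hb ⟨u, hu, u, Finset.mem_sdiff.mpr ⟨hu0, (Finset.mem_sdiff.mp hu).2⟩, ?_⟩
        have h5 := ind_le_infl hl R u {u}
        rw [ind_pos (Finset.mem_singleton_self u)] at h5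
        linarith
      have h5 := h.geo.mass_two_eq hl he0 h1 hv0 h2 h3 h4 (hsub e0 he0 hv0) (hsub e h1 h2) hd
      have h6 : ∑ M, md lam S M * ind (av hp e0 M) * V1 hp lam K M e =
          we hp lam K e * ∑ M, md lam S M * ind (av hp e0 M) * ind (av hp e M) := by
        rw [Finset.mul_sum]
        refine Finset.sum_congr rfl fun M _ => ?_
        unfold V1
        ring
      rw [h6, h5]
      have h7 := qf_cmp hl hΛ h.lamΛ ((Finset.univ \ S) ∪ (e0 \ O)) R (γ1 := 4 * γ1) hγ1'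
        (by linarith) hγ2 (Finset.univ \ O) (S \ e0) (fun y hy => (agree0 y hy).symm) (e \ O)
        (fun u hu => (far0 e he hb u hu).trans (by linarith))
      have h8 := qf_pos hl (S \ e0) (e \ O)
      have h9 := qf_pos hl (Finset.univ \ O) (e \ O)
      have h10 : (1 + γ2) ^ (e \ O).card ≤ 1 + γ :=
        (pow_le_pow_right₀ (by linarith) ((h.geo.card_rest h1 h2 P).trans (by norm_num))).trans hγ
      have h11 : (1 - γ) * qf lam (Finset.univ \ O) (e \ O) ≤ qf lam (S \ e0) (e \ O) := by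
        have h12 := h7.trans (mul_le_mul_of_nonneg_right h10 h8.le)
        nlinarith [mul_le_mul_of_nonneg_left h12 (by linarith : 0 ≤ 1 - γ),
          mul_nonneg (mul_nonneg hγ0 hγ0) h8.le]
      have h12 : (1 - γ) / n ≤
          we hp lam K e * (wt lam (Pr hp e v) * qf lam (S \ e0) (e \ O)) := by
        rw [← mul_assoc, hwe e he, one_div, inv_mul_eq_div, div_le_div_iff₀ hn0 (by positivity)]
        nlinarith [mul_le_mul_of_nonneg_left h11 hn0.le]
      calc (1 - γ) * T0 / n = T0 * ((1 - γ) / n) := by ring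
        _ ≤ T0 * (we hp lam K e * (wt lam (Pr hp e v) * qf lam (S \ e0) (e \ O))) :=
          mul_le_mul_of_nonneg_left h12 hT
        _ = _ := by ring)
    (by
      intro e he e' he' hne hb hb' hbb
      obtain ⟨h1, h2, h3, h4⟩ := memI e he
      obtain ⟨h1', h2', h3', h4'⟩ := memI e' he'
      have h5 := h.geo.mass_three_le hl S he0 h1 h1' hv0 h2 h2' h3 h3' h4 h4' hne
      have h6 : ∑ M, md lam S M * ind (av hp e0 M) * (V1 hp lam K M e * V1 hp lam K M e') =
          we hp lam K e * we hp lam K e' *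
            ∑ M, md lam S M * ind (av hp e0 M) * (ind (av hp e M) * ind (av hp e' M)) := by
        rw [Finset.mul_sum]
        refine Finset.sum_congr rfl fun M _ => ?_
        unfold V1
        ring
      rw [h6]
      have h7 := qf_cmp hl hΛ h.lamΛ ((Finset.univ \ S) ∪ (e0 \ O)) R (γ1 := 4 * γ1) hγ1'
        (by linarith) hγ2 (S \ e0) (Finset.univ \ O) agree0 (e \ O)
        (fun u hu => (far0 e he hb u hu).trans (by linarith))
      have h7' := qf_cmp hl hΛ h.lamΛ ((Finset.univ \ S) ∪ (e0 \ O) ∪ (e \ O)) R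
        (γ1 := 4 * γ1) hγ1' (by linarith) hγ2 ((S \ e0) \ (e \ O)) (Finset.univ \ O)
        (fun y hy => by
          rw [Finset.mem_union, not_or] at hy
          rw [← agree0 y hy.1, Finset.mem_sdiff]
          exact ⟨fun hh => hh.1, fun hh => ⟨hh, hy.2⟩⟩) (e' \ O)
        (fun u hu => by
          have i1 := infl_union hl R u ((Finset.univ \ S) ∪ (e0 \ O)) (e \ O)
          have i2 := far0 e' he' hb' u hu
          have i3 := infl_le_of_far hl R hγ1.le u _ (h.geo.card_rest h1 h2 P)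
            fun a ha hh => hbb ⟨u, hu, a, ha, hh⟩
          linarith)
      have h8 := ratio_le e he (S \ e0) ((1 + γ2) ^ 2) (h7.trans (mul_le_mul_of_nonneg_right
        (pow_card_le hγ20 (h.geo.card_rest h1 h2 P)) (qf_pos hl _ _).le))
      have h8' := ratio_le e' he' ((S \ e0) \ (e \ O)) ((1 + γ2) ^ 2)
        (h7'.trans (mul_le_mul_of_nonneg_right
        (pow_card_le hγ20 (h.geo.card_rest h1' h2' P)) (qf_pos hl _ _).le))
      have h9 := mul_le_mul h8 h8' (mul_nonneg (h.we_nonneg _)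
        (mul_nonneg (wt_nonneg hl _) (qf_pos hl _ _).le)) (by positivity)
      have h10 : (1 + γ2) ^ 2 / n * ((1 + γ2) ^ 2 / n) ≤ (1 + γ) / n ^ 2 := by
        rw [div_mul_div_comm, ← sq n]
        refine div_le_div_of_nonneg_right ?_ (by positivity)
        calc _ = (1 + γ2) ^ 4 := by ring
          _ ≤ _ := hγ
      refine (mul_le_mul_of_nonneg_left h5 (mul_nonneg (h.we_nonneg _) (h.we_nonneg _))).trans ?_
      calc _ = T0 * (we hp lam K e * (wt lam (Pr hp e v) * qf lam (S \ e0) (e \ O)) *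
            (we hp lam K e' * (wt lam (Pr hp e' v) * qf lam ((S \ e0) \ (e \ O)) (e' \ O)))) := by
            ring
        _ ≤ T0 * ((1 + γ) / n ^ 2) := mul_le_mul_of_nonneg_left (h9.trans h10) hT
        _ = _ := by ring)
    (by
      intro e he e' he' hne
      obtain ⟨h1, h2, h3, h4⟩ := memI e he
      obtain ⟨h1', h2', h3', h4'⟩ := memI e' he'
      have h5 := h.geo.mass_three_le hl S he0 h1 h1' hv0 h2 h2' h3 h3' h4 h4' hne
      have h6 : ∑ M, md lam S M * ind (av hp e0 M) * (V1 hp lam K M e * V1 hp lam K M e') =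
          we hp lam K e * we hp lam K e' *
            ∑ M, md lam S M * ind (av hp e0 M) * (ind (av hp e M) * ind (av hp e' M)) := by
        rw [Finset.mul_sum]
        refine Finset.sum_congr rfl fun M _ => ?_
        unfold V1
        ring
      rw [h6]
      have h9 := mul_le_mul (crude e he (S \ e0)) (crude e' he' ((S \ e0) \ (e \ O)))
        (mul_nonneg (h.we_nonneg _) (mul_nonneg (wt_nonneg hl _) (qf_pos hl _ _).le))
        (by positivity)
      refine (mul_le_mul_of_nonneg_left h5 (mul_nonneg (h.we_nonneg _) (h.we_nonneg _))).trans ?_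
      calc _ = T0 * (we hp lam K e * (wt lam (Pr hp e v) * qf lam (S \ e0) (e \ O)) *
            (we hp lam K e' * (wt lam (Pr hp e' v) * qf lam ((S \ e0) \ (e \ O)) (e' \ O)))) := by
            ring
        _ ≤ T0 * ((1 + Λ) ^ 2 / n * ((1 + Λ) ^ 2 / n)) := mul_le_mul_of_nonneg_left h9 hT
        _ = _ := by ring)
    (by
      intro e he
      obtain ⟨h1, h2, h3, h4⟩ := memI e he
      have h5 := h.geo.mass_two_le hl S he0 h1 hv0 h2 h3 h4
      have h6 : ∑ M, md lam S M * ind (av hp e0 M) * V1 hp lam K M e =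
          we hp lam K e * ∑ M, md lam S M * ind (av hp e0 M) * ind (av hp e M) := by
        rw [Finset.mul_sum]
        refine Finset.sum_congr rfl fun M _ => ?_
        unfold V1
        ring
      rw [h6]
      have h7 : (1 + Λ) ^ 2 / n ≤ (1 + Λ) ^ 4 / n :=
        div_le_div_of_nonneg_right (pow_le_pow_right₀ (by linarith) (by norm_num)) hn0.le
      refine (mul_le_mul_of_nonneg_left h5 (h.we_nonneg _)).trans ?_
      calc _ = T0 * (we hp lam K e * (wt lam (Pr hp e v) * qf lam (S \ e0) (e \ O))) := by ring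
        _ ≤ T0 * ((1 + Λ) ^ 4 / n) :=
          mul_le_mul_of_nonneg_left ((crude e he (S \ e0)).trans h7) hT
        _ = _ := by ring)
  refine le_trans (Finset.sum_le_sum fun M _ => ?_) key
  by_cases hM : IsMat S M ∧ av hp e0 M
  · refine mul_le_mul_of_nonneg_left (ind_mono fun hh => ?_)
      (mul_nonneg (md_nonneg hl S M) (ind_nonneg _))
    have h1 : load G (fun e => e) (V1 hp lam K M) v = ∑ e ∈ J, V1 hp lam K M e := by
      unfold load
      symm
      refine Finset.sum_subset_zero_on_sdiff ?_ ?_ fun _ _ => rfl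
      · intro e he
        obtain ⟨h3, h4, -⟩ := Finset.mem_filter.mp he
        exact Finset.mem_filter.mpr ⟨h3, h4⟩
      · intro e he
        obtain ⟨h3, h4⟩ := Finset.mem_sdiff.mp he
        obtain ⟨h5, h6⟩ := Finset.mem_filter.mp h3
        unfold V1
        rw [ind_neg, mul_zero]
        intro ha
        refine h4 (Finset.mem_filter.mpr ⟨h5, h6, ?_⟩)
        rw [av_Po hM.1 ha h6, hP, av_Po hM.1 hM.2 hv0]
    have h2 : e0 ∈ J := Finset.mem_filter.mpr ⟨he0, hv0, rfl⟩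
    rw [h1, ← Finset.add_sum_erase J _ h2] at hh
    have h3 := (h.V1_le M e0).trans (h.we_le he0)
    linarith
  · have : md lam S M * ind (av hp e0 M) = 0 := by
      unfold md
      rw [mul_assoc, ← ind_and, ind_neg hM, mul_zero]
    simp only [this, zero_mul, le_refl]

end

end Pool.Agent.Lib.MP_f8e628_co
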