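import Mathlib
import Pool.Agent.Lib.MP_f8e628_co.StageOver

set_option autoImplicit false
set_option linter.unusedSectionVars false

open Finset

namespace Pool.Agent.Lib.MP_f8e628_co

section
variable {V : Type*} [DecidableEq V] [Fintype V]
variable {G : Finset (Finset V)} {hp : Finset V → Finset (Finset V)} {lam : Finset V → ℝ}
  {K Λ β0 : ℝ}

/-- The numerical side conditions of the first stage. -/
structure Par (Λ β0 : ℝ) (R : ℕ) (γ1 γ2 γ ζ err : ℝ) : Prop where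
  γ1_pos : 0 < γ1
  γ1_lt : 4 * γ1 < 1
  γ2_ge : (Λ / (1 + Λ)) ^ R * Λ + 4 * γ1 * (1 + Λ) ≤ γ2
  γ_ge : (1 + γ2) ^ 4 ≤ 1 + γ
  γ_le : γ ≤ 1
  ζ_ge : (1 + Λ) ^ 3 * β0 ≤ ζ
  err_ge : (3 * γ + (3 * (1 + Λ) ^ 4 + 2) * (2 * (1 + Λ) ^ R / γ1 * β0) +
    (1 + Λ) ^ 4 * ((1 + Λ) ^ 3 * β0)) / ζ ^ 2 ≤ err
  err_le : 3 * err ≤ 1

variable {R : ℕ} {γ1 γ2 γ ζ err : ℝ}

lemma Setup.ex_V2 (h : Setup G hp lam K Λ β0) (hq : Par Λ β0 R γ1 γ2 γ ζ err) {e0 : Finset V}
    (he0 : e0 ∈ G) (S : Finset V)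
    (hS : ∀ v ∈ e0, ∀ e ∈ G, v ∈ e → ∀ u ∈ e, infl lam R u (Finset.univ \ S) = 0) :
    (1 - 3 * err) / ((1 + γ) * (1 + 2 * ζ) * K) * Z lam S ≤
      ∑ M, md lam S M * V2 G hp lam K (2 * ζ) M e0 := by
  have hl := h.lam0
  have hΛ := h.Λ0
  have hβ := h.β0_pos
  have hK := h.K_pos
  have hγ1 := hq.γ1_pos
  have hγ20 : 0 ≤ γ2 := le_trans (by positivity) hq.γ2_ge
  have hγ0 : 0 ≤ γ := by
    have : (1 : ℝ) ≤ (1 + γ2) ^ 4 := one_le_pow₀ (by linarith)
    linarith [hq.γ_ge]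
  have hζ0 : 0 < ζ := lt_of_lt_of_le (by positivity) hq.ζ_ge
  have hS0 : ∀ u ∈ e0, infl lam R u (Finset.univ \ S) = 0 := fun u hu => hS u hu e0 he0 hu u hu
  have hsub : e0 ⊆ S := by
    intro u hu
    by_contra huS
    have h1 := ind_le_infl hl R u (Finset.univ \ S)
    rw [hS0 u hu, ind_pos (Finset.mem_sdiff.mpr ⟨Finset.mem_univ _, huS⟩)] at h1
    linarith
  set T0 := wt lam (hp e0) * Z lam (S \ e0) with hT0
  have hT : 0 ≤ T0 := mul_nonneg (wt_nonneg hl _) (Z_nonneg hl _)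
  have h1 : ∀ M, md lam S M * (we hp lam K e0 * (ind (av hp e0 M) - ind (av hp e0 M) *
      ∑ u ∈ e0, ind (1 + 2 * ζ < load G (fun e => e) (V1 hp lam K M) u)) / (1 + 2 * ζ)) ≤
      md lam S M * V2 G hp lam K (2 * ζ) M e0 := by
    intro M
    refine mul_le_mul_of_nonneg_left ?_ (md_nonneg hl S M)
    unfold V2
    refine div_le_div_of_nonneg_right ?_ (by linarith)
    have h2 := one_sub_sum_le_ind e0 (fun u => 1 + 2 * ζ < load G (fun e => e) (V1 hp lam K M) u)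
    have h3 := mul_le_mul_of_nonneg_left h2 (h.V1_nonneg M e0)
    refine le_trans (le_of_eq ?_) h3
    unfold V1
    ring
  refine le_trans ?_ (Finset.sum_le_sum fun M _ => h1 M)
  have h2 : ∑ M, md lam S M * (we hp lam K e0 * (ind (av hp e0 M) - ind (av hp e0 M) *
      ∑ u ∈ e0, ind (1 + 2 * ζ < load G (fun e => e) (V1 hp lam K M) u)) / (1 + 2 * ζ)) =
      we hp lam K e0 * (∑ M, md lam S M * ind (av hp e0 M) - ∑ u ∈ e0, ∑ M, md lam S M *
        ind (av hp e0 M) * ind (1 + 2 * ζ < load G (fun e => e) (V1 hp lam K M) u)) /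
        (1 + 2 * ζ) := by
    rw [Finset.sum_comm, ← Finset.sum_sub_distrib, Finset.mul_sum, Finset.sum_div]
    refine Finset.sum_congr rfl fun M _ => ?_
    rw [← Finset.mul_sum]
    ring
  rw [h2, h.geo.mass_one he0 hsub, ← hT0]
  have h3 : ∑ u ∈ e0, ∑ M, md lam S M * ind (av hp e0 M) *
      ind (1 + 2 * ζ < load G (fun e => e) (V1 hp lam K M) u) ≤ 3 * (err * T0) := by
    have h4 : ∀ u ∈ e0, ∑ M, md lam S M * ind (av hp e0 M) *
        ind (1 + 2 * ζ < load G (fun e => e) (V1 hp lam K M) u) ≤ err * T0 := by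
      intro u hu
      refine (h.over he0 hu R hγ1 hq.γ1_lt hq.γ2_ge hq.γ_ge hq.γ_le hq.ζ_ge S (hS u hu)).trans ?_
      rw [← hT0, mul_div_right_comm]
      exact mul_le_mul_of_nonneg_right hq.err_ge hT
    refine (Finset.sum_le_sum h4).trans ?_
    rw [Finset.sum_const, nsmul_eq_mul, h.geo.card3 e0 he0]
    norm_num
  have h4 : Z lam S ≤ (1 + γ) * K * (we hp lam K e0 * T0) := by
    have h5 := qf_cmp hl hΛ h.lamΛ (Finset.univ \ S) R (γ1 := 4 * γ1) hq.γ1_lt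
      (by linarith) hq.γ2_ge Finset.univ S (fun y hy => by simpa using hy) e0
      (fun u hu => by rw [hS0 u hu]; linarith)
    rw [h.geo.card3 e0 he0] at h5
    have h6 : (1 + γ2) ^ 3 ≤ 1 + γ :=
      (pow_le_pow_right₀ (by linarith) (by norm_num)).trans hq.γ_ge
    have h7 := qf_pos hl S e0
    have h8 := qf_pos hl Finset.univ e0
    have h9 := h.wt_pos he0
    have h10 : (1 + γ) * K * (we hp lam K e0 * T0) =
        Z lam S * ((1 + γ) * qf lam S e0 / qf lam Finset.univ e0) := by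
      rw [hT0, Z_sdiff hl]
      unfold we
      field_simp
    rw [h10]
    refine le_mul_of_one_le_right (Z_nonneg hl S) ?_
    rw [le_div_iff₀ h8, one_mul]
    exact h5.trans (mul_le_mul_of_nonneg_right h6 h7.le)
  have h5 : 0 ≤ 1 - 3 * err := by linarith [hq.err_le]
  have h6 := h.we_nonneg e0
  rw [div_mul_eq_mul_div, div_le_div_iff₀ (by positivity) (by positivity)]
  have h7 := mul_le_mul_of_nonneg_left h4 h5
  have h8 : we hp lam K e0 * ((1 - 3 * err) * T0) ≤ we hp lam K e0 * (T0 - ∑ u ∈ e0, ∑ M,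
      md lam S M * ind (av hp e0 M) * ind (1 + 2 * ζ < load G (fun e => e) (V1 hp lam K M) u)) :=
    mul_le_mul_of_nonneg_left (by linarith) h6
  calc (1 - 3 * err) * Z lam S * (1 + 2 * ζ)
      ≤ (1 - 3 * err) * ((1 + γ) * K * (we hp lam K e0 * T0)) * (1 + 2 * ζ) :=
        mul_le_mul_of_nonneg_right h7 (by linarith)
    _ = we hp lam K e0 * ((1 - 3 * err) * T0) * ((1 + γ) * (1 + 2 * ζ) * K) := by ring
    _ ≤ _ := mul_le_mul_of_nonneg_right h8 (by positivity)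

lemma Geo.av_congr (h : Geo G hp) {e : Finset V} (he : e ∈ G) {M M' : Finset (Finset V)}
    (hM : ∀ p, (∃ a ∈ p, a ∈ e) → (p ∈ M ↔ p ∈ M')) : av hp e M ↔ av hp e M' := by
  have key : ∀ M M' : Finset (Finset V), (∀ p, (∃ a ∈ p, a ∈ e) → (p ∈ M ↔ p ∈ M')) →
      av hp e M → av hp e M' := by
    intro M M' hM ha
    constructor
    · intro p hp1
      obtain ⟨h1, h2⟩ := h.pair e he p hp1
      obtain ⟨a, ha1⟩ : p.Nonempty := Finset.card_pos.mp (by omega)
      exact (hM p ⟨a, ha1, h1 ha1⟩).mp (ha.1 hp1)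
    · rw [Finset.disjoint_left]
      intro a ha1 ha2
      obtain ⟨p, hp1, hap⟩ := mem_cov.mp ha2
      exact Finset.disjoint_left.mp ha.2 ha1
        (mem_cov.mpr ⟨p, (hM p ⟨a, hap, (Finset.mem_sdiff.mp ha1).1⟩).mpr hp1, hap⟩)
  exact ⟨key M M' hM, key M' M fun p hp1 => (hM p hp1).symm⟩

variable {adj : V → V → Prop}

lemma Geo.load_V2_local (h : Geo G hp) (hrefl : ∀ u, adj u u)
    (hadj : ∀ e ∈ G, ∀ u ∈ e, ∀ u' ∈ e, adj u u') (v : V) {M M' : Finset (Finset V)}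
    (hM : ∀ p, (∃ a ∈ p, near adj 2 v a) → (p ∈ M ↔ p ∈ M')) :
    load G (fun e => e) (V2 G hp lam K ζ M) v = load G (fun e => e) (V2 G hp lam K ζ M') v := by
  have h1 : ∀ u, near adj 1 v u → ∀ e ∈ G, u ∈ e → V1 hp lam K M e = V1 hp lam K M' e := by
    intro u hu e he hue
    unfold V1
    rw [ind_congr (h.av_congr he fun p ⟨a, ha1, ha2⟩ =>
      hM p ⟨a, ha1, near_step hu (hadj e he u hue a ha2)⟩)]
  have h2 : ∀ u, near adj 1 v u →
      load G (fun e => e) (V1 hp lam K M) u = load G (fun e => e) (V1 hp lam K M') u :=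
    fun u hu => Finset.sum_congr rfl fun e he =>
      h1 u hu e (Finset.mem_filter.mp he).1 (Finset.mem_filter.mp he).2
  refine Finset.sum_congr rfl fun e he => ?_
  obtain ⟨he1, he2⟩ := Finset.mem_filter.mp he
  unfold V2
  rw [h1 v (near_refl hrefl 1 v) e he1 he2]
  congr 2
  apply ind_congr
  refine forall₂_congr fun u hu => ?_
  rw [h2 u (near_one (hadj e he1 v he2 u hu))]

lemma pair_sub_ball (hrefl : ∀ u, adj u u) (hadjl : ∀ u w, u ≠ w → lam {u, w} ≠ 0 → adj u w)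
    {p : Finset V} (hp2 : p.card = 2) (hl : lam p ≠ 0) {y v : V} (hy : y ∈ p) {k : ℕ}
    (hn : near adj k v y) : p ⊆ ball adj (k + 1) v := by
  intro x hx
  refine mem_ball.mpr (near_step hn ?_)
  by_cases hxy : y = x
  · exact hxy ▸ hrefl y
  · refine hadjl y x hxy ?_
    have : ({y, x} : Finset V) = p := by
      apply Finset.eq_of_subset_of_card_le
      · exact Finset.insert_subset hy (Finset.singleton_subset_iff.mpr hx)
      · rw [Finset.card_pair hxy, hp2]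
    rwa [this]

lemma Setup.mean (h : Setup G hp lam K Λ β0) (hq : Par Λ β0 R γ1 γ2 γ ζ err)
    (hrefl : ∀ u, adj u u) (hadj : ∀ e ∈ G, ∀ u ∈ e, ∀ u' ∈ e, adj u u')
    (hadjl : ∀ u w, u ≠ w → lam {u, w} ≠ 0 → adj u w) (v : V) (g : Finset (Finset V) → ℝ)
    (hg0 : ∀ M, 0 ≤ g M)
    (hg : ∀ M M', (∀ p, ¬ p ⊆ ball adj (R + 3) v → (p ∈ M ↔ p ∈ M')) → g M = g M') :
    (1 - 3 * err) / ((1 + γ) * (1 + 2 * ζ) * K) * ((G.filter (fun e => v ∈ e)).card : ℝ) *
        ∑ M, md lam Finset.univ M * g M ≤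
      ∑ M, md lam Finset.univ M * (load G (fun e => e) (V2 G hp lam K (2 * ζ) M) v * g M) := by
  set B := ball adj (R + 3) v with hB
  set κ := (1 - 3 * err) / ((1 + γ) * (1 + 2 * ζ) * K) with hκ
  rw [markov lam B, markov lam B, Finset.mul_sum]
  refine Finset.sum_le_sum fun θ _ => ?_
  by_cases hθ : wt lam θ * ind (IsMat Finset.univ θ ∧ ∀ p ∈ θ, ¬ p ⊆ B) = 0
  · rw [hθ]; simp
  rw [mul_left_comm]
  refine mul_le_mul_of_nonneg_left ?_ (mul_nonneg (wt_nonneg h.lam0 θ) (ind_nonneg _))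
  have hθ1 : ∀ p ∈ θ, lam p ≠ 0 := fun p hp1 h0 =>
    hθ (by rw [show wt lam θ = 0 from Finset.prod_eq_zero hp1 h0, zero_mul])
  have hθ2 : IsMat Finset.univ θ ∧ ∀ p ∈ θ, ¬ p ⊆ B := by
    by_contra hh
    exact hθ (by rw [ind_neg hh, mul_zero])
  have hfar : ∀ p ∈ θ, ∀ y ∈ p, ¬ near adj (R + 2) v y := fun p hp1 y hy hn =>
    hθ2.2 p hp1 (pair_sub_ball hrefl hadjl (hθ2.1.1 p hp1).2 (hθ1 p hp1) hy hn)
  set S := B \ cov θ with hS
  have h1 : ∀ M, md lam S M * g (θ ∪ M) = md lam S M * g θ := by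
    intro M
    by_cases hM : IsMat S M
    · rw [hg (θ ∪ M) θ]
      intro p hpB
      rw [Finset.mem_union]
      exact ⟨fun hh => hh.resolve_right fun hpM =>
        hpB ((hM.1 p hpM).1.trans Finset.sdiff_subset), Or.inl⟩
    · unfold md
      rw [ind_neg hM]; simp
  have h2 : ∀ M, load G (fun e => e) (V2 G hp lam K (2 * ζ) (θ ∪ M)) v =
      load G (fun e => e) (V2 G hp lam K (2 * ζ) M) v := by
    intro M
    refine h.geo.load_V2_local hrefl hadj v fun p ⟨a, ha1, ha2⟩ => ?_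
    rw [Finset.mem_union]
    exact ⟨fun hh => hh.resolve_left fun hpθ =>
      hfar p hpθ a ha1 (near_mono hrefl (by omega) ha2), Or.inr⟩
  have h3 : ∀ M, md lam S M * (load G (fun e => e) (V2 G hp lam K (2 * ζ) (θ ∪ M)) v *
      g (θ ∪ M)) = md lam S M * load G (fun e => e) (V2 G hp lam K (2 * ζ) M) v * g θ := by
    intro M
    rw [h2 M, mul_left_comm, h1 M]
    ring
  simp only [h1, h3]
  rw [← Finset.sum_mul, ← Finset.sum_mul, ← mul_assoc]
  refine mul_le_mul_of_nonneg_right ?_ (hg0 θ)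
  unfold load
  simp only [Finset.mul_sum]
  rw [Finset.sum_comm, ← Finset.mul_sum]
  have h4 : ∀ e0 ∈ G.filter (fun e => v ∈ e),
      κ * Z lam S ≤ ∑ M, md lam S M * V2 G hp lam K (2 * ζ) M e0 := by
    intro e0 he0
    obtain ⟨he1, he2⟩ := Finset.mem_filter.mp he0
    refine h.ex_V2 hq he1 S fun x hx e he hxe u hu => ?_
    refine infl_eq_zero hrefl hadjl R u _ fun y hy hn => ?_
    have h5 : near adj (R + 2) v y := by
      have := near_trans (near_step (near_one (hadj e0 he1 v he2 x hx)) (hadj e he x hxe u hu)) hn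
      rwa [show 1 + 1 + R = R + 2 by omega] at this
    refine (Finset.mem_sdiff.mp hy).2 (Finset.mem_sdiff.mpr ⟨?_, fun hc => ?_⟩)
    · exact mem_ball.mpr (near_mono hrefl (by omega) h5)
    · obtain ⟨p, hp1, hyp⟩ := mem_cov.mp hc
      exact hfar p hp1 y hyp h5
  have h5 := Finset.sum_le_sum h4
  rw [Finset.sum_const, nsmul_eq_mul] at h5
  refine le_trans (le_of_eq ?_) h5
  unfold Z
  ring

end

end Pool.Agent.Lib.MP_f8e628_co
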