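import Mathlib
import Pool.Agent.Lib.MP_f8e628_co.StageOver

set_option autoImplicit false
set_option linter.unusedSectionVars false

open Finset

namespace Pool.Agent.Lib.MP_f8e628_co

section
variable {V : Type*} [DecidableEq V] [Fintype V]
variable {G : Finset (Finset V)} {hp : Finset V → Finset (Finset V)} {lam : Finset V → ℝ}
  {K Λ β0 ζ : ℝ}

noncomputable def rp (p : Finset V) (d : V) : V := if h : p.Nonempty then h.choose else d

/-- The representative of a vertex: the two ends of a matched pair are identified. -/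
noncomputable def rep (M : Finset (Finset V)) (v : V) : V :=
  rp (cov (M.filter (fun p => v ∈ p))) v

lemma rep_free {M : Finset (Finset V)} {v : V} (hv : v ∉ cov M) : rep M v = v := by
  have : M.filter (fun p => v ∈ p) = ∅ :=
    Finset.filter_eq_empty_iff.mpr fun p hp1 hvp => hv (mem_cov.mpr ⟨p, hp1, hvp⟩)
  simp [rep, rp, this]

lemma rep_pair {S : Finset V} {M : Finset (Finset V)} (hM : IsMat S M) {p : Finset V}
    (hp1 : p ∈ M) {v : V} (hv : v ∈ p) : rep M v = (show p.Nonempty from ⟨v, hv⟩).choose := by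
  have : M.filter (fun p => v ∈ p) = {p} := by
    ext q
    simp only [Finset.mem_filter, Finset.mem_singleton]
    exact ⟨fun hq => hM.eq_of_mem hq.1 hp1 hq.2 hv, fun hq => hq ▸ ⟨hp1, hv⟩⟩
  unfold rep rp
  rw [this, cov_singleton, dif_pos ⟨v, hv⟩]

lemma rep_mem {S : Finset V} {M : Finset (Finset V)} (hM : IsMat S M) {p : Finset V}
    (hp1 : p ∈ M) {v : V} (hv : v ∈ p) : rep M v ∈ p := by
  rw [rep_pair hM hp1 hv]
  exact Exists.choose_spec (show p.Nonempty from ⟨v, hv⟩)

lemma rep_eq {S : Finset V} {M : Finset (Finset V)} (hM : IsMat S M) {p : Finset V}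
    (hp1 : p ∈ M) {u v : V} (hu : u ∈ p) (hv : v ∈ p) : rep M u = rep M v := by
  rw [rep_pair hM hp1 hu, rep_pair hM hp1 hv]

lemma rep_rep {S : Finset V} {M : Finset (Finset V)} (hM : IsMat S M) (v : V) :
    rep M (rep M v) = rep M v := by
  by_cases hv : v ∈ cov M
  · obtain ⟨p, hp1, hvp⟩ := mem_cov.mp hv
    exact rep_eq hM hp1 (rep_mem hM hp1 hvp) hvp
  · rw [rep_free hv, rep_free hv]

lemma Geo.closure (h : Geo G hp) {S e : Finset V} {M : Finset (Finset V)} (hM : IsMat S M)
    (he : e ∈ G) (ha : av hp e M) {p : Finset V} (hp1 : p ∈ M) {v : V} (hvp : v ∈ p)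
    (hve : v ∈ e) : p ∈ hp e := by
  have h1 : p ∈ Po hp e v := by
    rw [av_Po hM ha hve]
    exact Finset.mem_filter.mpr ⟨hp1, hvp⟩
  have _ := h.card3 e he
  exact (Finset.mem_filter.mp h1).1

lemma Geo.rep_mem_edge (h : Geo G hp) {S e : Finset V} {M : Finset (Finset V)} (hM : IsMat S M)
    (he : e ∈ G) (ha : av hp e M) {v : V} (hve : v ∈ e) : rep M v ∈ e := by
  by_cases hv : v ∈ cov M
  · obtain ⟨p, hp1, hvp⟩ := mem_cov.mp hv
    exact (h.pair e he p (h.closure hM he ha hp1 hvp hve)).1 (rep_mem hM hp1 hvp)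
  · rwa [rep_free hv]

lemma Geo.image_subset (h : Geo G hp) {S e : Finset V} {M : Finset (Finset V)} (hM : IsMat S M)
    (he : e ∈ G) (ha : av hp e M) : e.image (rep M) ⊆ e := by
  intro x hx
  obtain ⟨a, ha1, rfl⟩ := Finset.mem_image.mp hx
  exact h.rep_mem_edge hM he ha ha1

lemma Geo.rep_mem_image (h : Geo G hp) {S e : Finset V} {M : Finset (Finset V)} (hM : IsMat S M)
    (he : e ∈ G) (ha : av hp e M) (v : V) : rep M v ∈ e.image (rep M) ↔ v ∈ e := by
  refine ⟨fun hv => ?_, fun hv => Finset.mem_image_of_mem _ hv⟩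
  have h1 := h.image_subset hM he ha hv
  by_cases hc : v ∈ cov M
  · obtain ⟨p, hp1, hvp⟩ := mem_cov.mp hc
    exact (h.pair e he p (h.closure hM he ha hp1 (rep_mem hM hp1 hvp) h1)).1 hvp
  · rwa [rep_free hc] at h1

lemma V2_av {M : Finset (Finset V)} {e : Finset V} (h : V2 G hp lam K ζ M e ≠ 0) : av hp e M := by
  by_contra ha
  apply h
  simp [V2, V1, ind_neg ha]

lemma Setup.V2_nonneg (h : Setup G hp lam K Λ β0) (hζ : 0 < ζ) (M : Finset (Finset V))
    (e : Finset V) : 0 ≤ V2 G hp lam K ζ M e :=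
  div_nonneg (mul_nonneg (h.V1_nonneg M e) (ind_nonneg _)) (by linarith)

lemma Setup.V2_le (h : Setup G hp lam K Λ β0) (hζ : 0 < ζ) (M : Finset (Finset V))
    (e : Finset V) : V2 G hp lam K ζ M e ≤ V1 hp lam K M e / (1 + ζ) :=
  div_le_div_of_nonneg_right (mul_le_of_le_one_right (h.V1_nonneg M e) (ind_le_one _))
    (by linarith)

lemma Setup.V2_le_we (h : Setup G hp lam K Λ β0) (hζ : 0 < ζ) (M : Finset (Finset V))
    (e : Finset V) : V2 G hp lam K ζ M e ≤ we hp lam K e :=
  (h.V2_le hζ M e).trans ((div_le_self (h.V1_nonneg M e) (by linarith)).trans (h.V1_le M e))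

lemma Setup.load_V2_le (h : Setup G hp lam K Λ β0) (hζ : 0 < ζ) (M : Finset (Finset V)) (u : V) :
    load G (fun e => e) (V2 G hp lam K ζ M) u ≤ 1 := by
  by_cases hu : 1 + ζ < load G (fun e => e) (V1 hp lam K M) u
  · have : load G (fun e => e) (V2 G hp lam K ζ M) u = 0 := by
      refine Finset.sum_eq_zero fun e he => ?_
      have h1 : ¬ ∀ u ∈ e, ¬ (1 + ζ < load G (fun e => e) (V1 hp lam K M) u) :=
        fun h2 => h2 u (Finset.mem_filter.mp he).2 hu
      simp only [V2, ind_neg h1, mul_zero, zero_div]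
    rw [this]; norm_num
  · have h1 : load G (fun e => e) (V2 G hp lam K ζ M) u ≤
        load G (fun e => e) (V1 hp lam K M) u / (1 + ζ) := by
      unfold load
      rw [Finset.sum_div]
      exact Finset.sum_le_sum fun e _ => h.V2_le hζ M e
    refine h1.trans ?_
    rw [div_le_one (by linarith)]
    exact not_lt.mp hu

open Classical in
/-- The triples that survive the first stage. -/
noncomputable def Es (G : Finset (Finset V)) (hp : Finset V → Finset (Finset V))
    (lam : Finset V → ℝ) (K ζ : ℝ) (M : Finset (Finset V)) : Finset (Finset V) :=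
  G.filter (fun e => V2 G hp lam K ζ M e ≠ 0)

lemma mem_Es {M : Finset (Finset V)} {e : Finset V} :
    e ∈ Es G hp lam K ζ M ↔ e ∈ G ∧ V2 G hp lam K ζ M e ≠ 0 := by
  simp [Es]

lemma Setup.load_Es (h : Setup G hp lam K Λ β0) {M : Finset (Finset V)}
    (hM : IsMat Finset.univ M) (v : V) :
    load (Es G hp lam K ζ M) (fun e => e.image (rep M))
      (fun e => V2 G hp lam K ζ M e * ind (e ∈ G)) (rep M v) =
    load G (fun e => e) (V2 G hp lam K ζ M) v := by
  unfold load
  refine Finset.sum_subset_zero_on_sdiff ?_ ?_ ?_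
  · intro e he
    obtain ⟨h1, h2⟩ := Finset.mem_filter.mp he
    obtain ⟨h3, h4⟩ := mem_Es.mp h1
    exact Finset.mem_filter.mpr ⟨h3, (h.geo.rep_mem_image hM h3 (V2_av h4) v).mp h2⟩
  · intro e he
    obtain ⟨h1, h2⟩ := Finset.mem_sdiff.mp he
    obtain ⟨h3, h4⟩ := Finset.mem_filter.mp h1
    by_contra h5
    exact h2 (Finset.mem_filter.mpr ⟨mem_Es.mpr ⟨h3, h5⟩, Finset.mem_image_of_mem _ h4⟩)
  · intro e he
    rw [ind_pos (mem_Es.mp (Finset.mem_filter.mp he).1).1, mul_one]

lemma Setup.fracM (h : Setup G hp lam K Λ β0) (hζ : 0 < ζ) {M : Finset (Finset V)}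
    (hM : IsMat Finset.univ M) :
    FracM (Es G hp lam K ζ M) (fun e => e.image (rep M))
      (fun e => V2 G hp lam K ζ M e * ind (e ∈ G)) ((1 + Λ) ^ 3 * β0) where
  nonneg := fun e => mul_nonneg (h.V2_nonneg hζ M e) (ind_nonneg _)
  supp := fun e he => by
    by_cases h1 : e ∈ G
    · have : V2 G hp lam K ζ M e = 0 := by
        by_contra h2
        exact he (mem_Es.mpr ⟨h1, h2⟩)
      rw [this, zero_mul]
    · rw [ind_neg h1, mul_zero]
  ne := fun e he => Finset.Nonempty.image
    (Finset.card_pos.mp (by rw [h.geo.card3 e (mem_Es.mp he).1]; norm_num)) _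
  card := fun e he => Finset.card_image_le.trans (h.geo.card3 e (mem_Es.mp he).1).le
  load_le := fun u => by
    refine le_trans ?_ (h.load_V2_le hζ M u)
    unfold load
    refine le_trans (Finset.sum_le_sum fun e _ =>
      mul_le_of_le_one_right (h.V2_nonneg hζ M e) (ind_le_one _)) ?_
    refine Finset.sum_le_sum_of_subset_of_nonneg ?_ fun e _ _ => h.V2_nonneg hζ M e
    intro e he
    obtain ⟨h1, h2⟩ := Finset.mem_filter.mp he
    obtain ⟨h3, h4⟩ := mem_Es.mp h1
    exact Finset.mem_filter.mpr ⟨h3, h.geo.image_subset hM h3 (V2_av h4) h2⟩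
  codeg := fun u u' huu => by
    have hΛ := h.Λ0
    have hβ := h.β0_pos
    set F := (Es G hp lam K ζ M).filter
      (fun e => u ∈ e.image (rep M) ∧ u' ∈ e.image (rep M)) with hF
    have memF : ∀ e ∈ F, e ∈ G ∧ av hp e M ∧ u ∈ e ∧ u' ∈ e ∧ rep M u = u ∧ rep M u' = u' := by
      intro e he
      obtain ⟨h1, h2, h3⟩ := Finset.mem_filter.mp he
      obtain ⟨h4, h5⟩ := mem_Es.mp h1
      refine ⟨h4, V2_av h5, h.geo.image_subset hM h4 (V2_av h5) h2,
        h.geo.image_subset hM h4 (V2_av h5) h3, ?_, ?_⟩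
      · obtain ⟨a, -, rfl⟩ := Finset.mem_image.mp h2
        exact rep_rep hM a
      · obtain ⟨a, -, rfl⟩ := Finset.mem_image.mp h3
        exact rep_rep hM a
    have h1 : ∑ e ∈ F, V2 G hp lam K ζ M e * ind (e ∈ G) ≤ ∑ e ∈ F, we hp lam K e :=
      Finset.sum_le_sum fun e _ =>
        (mul_le_of_le_one_right (h.V2_nonneg hζ M e) (ind_le_one _)).trans (h.V2_le_we hζ M e)
    refine h1.trans ?_
    have single : ∀ x y : V, x ≠ y → x ∈ cov M → (∀ e ∈ F, x ∈ e ∧ y ∈ e ∧ rep M x = x ∧
        rep M y = y) → ∑ e ∈ F, we hp lam K e ≤ (1 + Λ) ^ 3 * β0 := by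
      intro x y hxy hx hall
      obtain ⟨p, hp1, hxp⟩ := mem_cov.mp hx
      have h2 : ∀ e ∈ F, e = insert y p := by
        intro e he
        obtain ⟨h3, h4, -⟩ := memF e he
        obtain ⟨h5, h6, h7, h8⟩ := hall e he
        have h9 := h.geo.pair e h3 p (h.geo.closure hM h3 h4 hp1 hxp h5)
        have h10 : y ∉ p := fun hyp => hxy (by rw [← h7, ← h8]; exact rep_eq hM hp1 hxp hyp)
        symm
        apply Finset.eq_of_subset_of_card_le (Finset.insert_subset h6 h9.1)
        rw [Finset.card_insert_of_notMem h10, h9.2, h.geo.card3 e h3]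
      have h3 : F.card ≤ 1 := Finset.card_le_one.mpr fun e he e' he' => (h2 e he).trans (h2 e' he').symm
      refine (Finset.sum_le_sum fun e he => h.we_le (memF e he).1).trans ?_
      rw [Finset.sum_const, nsmul_eq_mul]
      exact mul_le_of_le_one_left (by positivity) (by exact_mod_cast h3)
    by_cases hu : u ∈ cov M
    · exact single u u' huu hu fun e he => (memF e he).2.2
    by_cases hu' : u' ∈ cov M
    · refine single u' u huu.symm hu' fun e he => ?_
      obtain ⟨-, -, h3, h4, h5, h6⟩ := memF e he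
      exact ⟨h4, h3, h6, h5⟩
    have h2 : ∀ e ∈ F, hp e = ∅ := by
      intro e he
      obtain ⟨h3, h4, h5, h6, -⟩ := memF e he
      refine Finset.eq_empty_of_forall_notMem fun p hp1 => ?_
      obtain ⟨h7, h8⟩ := h.geo.pair e h3 p hp1
      have h9 : u ∉ p := fun hh => hu (mem_cov.mpr ⟨p, h4.1 hp1, hh⟩)
      have h10 : u' ∉ p := fun hh => hu' (mem_cov.mpr ⟨p, h4.1 hp1, hh⟩)
      have h11 : insert u (insert u' p) ⊆ e :=
        Finset.insert_subset h5 (Finset.insert_subset h6 h7)
      have h12 := Finset.card_le_card h11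
      rw [Finset.card_insert_of_notMem (by simp [huu, h9]), Finset.card_insert_of_notMem h10, h8,
        h.geo.card3 e h3] at h12
      omega
    rcases F.eq_empty_or_nonempty with h3 | ⟨e1, he1⟩
    · rw [h3, Finset.sum_empty]
      positivity
    have hPo : ∀ e ∈ F, Po hp e u = ∅ := fun e he => by simp [Po, h2 e he]
    have h3 := h.n2 e1 (memF e1 he1).1 u (memF e1 he1).2.2.1 u' (by
      rw [hPo e1 he1]; simp [ob, huu.symm])
    rw [hPo e1 he1] at h3
    have h4 : F ⊆ (Js G hp ∅ u).filter (fun f => u' ∈ f) := fun e he =>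
      Finset.mem_filter.mpr ⟨Finset.mem_filter.mpr
        ⟨(memF e he).1, (memF e he).2.2.1, hPo e he⟩, (memF e he).2.2.2.1⟩
    have h5 : (F.card : ℝ) ≤ β0 * K := by
      refine le_trans (by exact_mod_cast Finset.card_le_card h4) (h3.trans ?_)
      refine mul_le_mul_of_nonneg_left ?_ hβ.le
      unfold nob
      refine mul_le_of_le_one_right h.K_pos.le ?_
      simpa [wt] using qf_le_one h.lam0 _ _
    have h6 : ∀ e ∈ F, we hp lam K e ≤ (1 + Λ) ^ 3 / K := by
      intro e he
      have h7 := h.we_le' (memF e he).1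
      rw [h2 e he] at h7
      rw [le_div_iff₀ h.K_pos]
      simpa [wt] using h7
    refine (Finset.sum_le_sum h6).trans ?_
    rw [Finset.sum_const, nsmul_eq_mul]
    have hK := h.K_pos
    calc _ ≤ β0 * K * ((1 + Λ) ^ 3 / K) := mul_le_mul_of_nonneg_right h5 (by positivity)
      _ = _ := by field_simp

end

end Pool.Agent.Lib.MP_f8e628_co
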