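import Mathlib
import Pool.Agent.Lib.MP_f8e628_co.Dimer

set_option autoImplicit false
set_option linter.unusedSectionVars false

open Finset

namespace Pool.Agent.Lib.MP_f8e628_co

section
variable {V : Type*} [DecidableEq V] [Fintype V] {lam : Finset V → ℝ}

/-- A three-point inequality for the partition function, with its companion. -/
lemma pluecker (h : ∀ p, 0 ≤ lam p) (n : ℕ) : ∀ S : Finset V, S.card = n →
    ∀ a ∈ S, ∀ b ∈ S, ∀ c ∈ S, a ≠ b → a ≠ c → b ≠ c →
    (Z lam S * Z lam (((S.erase a).erase b).erase c) ≤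
      Z lam (S.erase a) * Z lam ((S.erase b).erase c) +
      Z lam (S.erase b) * Z lam ((S.erase a).erase c) +
      Z lam (S.erase c) * Z lam ((S.erase a).erase b)) ∧
    (Z lam (S.erase a) * Z lam ((S.erase b).erase c) ≤
      Z lam S * Z lam (((S.erase a).erase b).erase c) +
      Z lam (S.erase b) * Z lam ((S.erase a).erase c) +
      Z lam (S.erase c) * Z lam ((S.erase a).erase b)) := by
  induction n with
  | zero =>
    intro S hS a ha
    rw [Finset.card_eq_zero.mp hS] at ha
    simp at ha
  | succ n ih =>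
    intro S hS a ha b hb c hc hab hac hbc
    set T := S.erase a with hT
    have hTn : T.card = n := by rw [hT, Finset.card_erase_of_mem ha, hS]; rfl
    have hbT : b ∈ T := Finset.mem_erase.mpr ⟨hab.symm, hb⟩
    have hcT : c ∈ T := Finset.mem_erase.mpr ⟨hac.symm, hc⟩
    have hcTb : c ∈ T.erase b := Finset.mem_erase.mpr ⟨hbc.symm, hcT⟩
    have hbTc : b ∈ T.erase c := Finset.mem_erase.mpr ⟨hbc, hbT⟩
    set U := (T.erase b).erase c with hU
    have hU' : (T.erase c).erase b = U := Finset.erase_right_comm
    have E0 := Z_rec lam ha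
    rw [← hT, ← Finset.add_sum_erase T _ hbT, ← Finset.add_sum_erase (T.erase b) _ hcTb,
      ← hU] at E0
    have Eb := Z_rec lam (S := S.erase b) (a := a) (Finset.mem_erase.mpr ⟨hab, ha⟩)
    rw [Finset.erase_right_comm (s := S) (a := b) (b := a), ← hT,
      ← Finset.add_sum_erase (T.erase b) _ hcTb, ← hU] at Eb
    have Ec := Z_rec lam (S := S.erase c) (a := a) (Finset.mem_erase.mpr ⟨hac, ha⟩)
    rw [Finset.erase_right_comm (s := S) (a := c) (b := a), ← hT,
      ← Finset.add_sum_erase (T.erase c) _ hbTc, hU'] at Ec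
    have Ebc := Z_rec lam (S := (S.erase b).erase c) (a := a)
      (Finset.mem_erase.mpr ⟨hac, Finset.mem_erase.mpr ⟨hab, ha⟩⟩)
    have e1 : ((S.erase b).erase c).erase a = U := by
      rw [hU, hT]
      ext x
      simp only [Finset.mem_erase]
      tauto
    rw [e1] at Ebc
    have key : ∀ w ∈ U,
        (lam {a, w} * Z lam (T.erase w) * Z lam U ≤
          Z lam T * (lam {a, w} * Z lam (U.erase w)) +
          lam {a, w} * Z lam ((T.erase b).erase w) * Z lam (T.erase c) +
          lam {a, w} * Z lam ((T.erase c).erase w) * Z lam (T.erase b)) ∧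
        (Z lam T * (lam {a, w} * Z lam (U.erase w)) ≤
          lam {a, w} * Z lam (T.erase w) * Z lam U +
          lam {a, w} * Z lam ((T.erase b).erase w) * Z lam (T.erase c) +
          lam {a, w} * Z lam ((T.erase c).erase w) * Z lam (T.erase b)) := by
      intro w hw
      have hwc : w ≠ c := (Finset.mem_erase.mp hw).1
      have hwb : w ≠ b := (Finset.mem_erase.mp (Finset.mem_erase.mp hw).2).1
      have hwT : w ∈ T := (Finset.mem_erase.mp (Finset.mem_erase.mp hw).2).2
      obtain ⟨i1, i2⟩ := ih T hTn w hwT b hbT c hcT hwb hwc hbc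
      have e2 : ((T.erase w).erase b).erase c = U.erase w := by
        rw [hU]
        ext x
        simp only [Finset.mem_erase]
        tauto
      rw [e2, ← hU, Finset.erase_right_comm (s := T) (a := w) (b := c),
        Finset.erase_right_comm (s := T) (a := w) (b := b)] at i1 i2
      have hl := h {a, w}
      constructor
      · nlinarith [mul_le_mul_of_nonneg_left i2 hl]
      · nlinarith [mul_le_mul_of_nonneg_left i1 hl]
    have k1 := Finset.sum_le_sum fun w hw => (key w hw).1
    have k2 := Finset.sum_le_sum fun w hw => (key w hw).2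
    rw [Finset.sum_add_distrib, Finset.sum_add_distrib, ← Finset.sum_mul, ← Finset.sum_mul,
      ← Finset.sum_mul, ← Finset.mul_sum] at k1 k2
    rw [E0, Eb, Ec, Ebc]
    have p1 := mul_nonneg (Z_nonneg h (T.erase b)) (Z_nonneg h (T.erase c))
    have p2 := mul_nonneg (mul_nonneg (h {a, b}) (Z_nonneg h (T.erase b))) (Z_nonneg h U)
    have p3 := mul_nonneg (mul_nonneg (h {a, c}) (Z_nonneg h (T.erase c))) (Z_nonneg h U)
    constructor
    · nlinarith
    · nlinarith

lemma Z_two (h : ∀ p, 0 ≤ lam p) (T : Finset V) {a b : V} (ha : a ∈ T) (hab : a ≠ b) :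
    Z lam (T.erase a) + Z lam (T.erase b) ≤ Z lam T + Z lam ((T.erase a).erase b) := by
  have E0 := Z_rec lam ha
  have Eb := Z_rec lam (S := T.erase b) (a := a) (Finset.mem_erase.mpr ⟨hab, ha⟩)
  rw [Finset.erase_right_comm (s := T) (a := b) (b := a)] at Eb
  have h1 : ∑ w ∈ (T.erase a).erase b, lam {a, w} * Z lam (((T.erase a).erase b).erase w) ≤
      ∑ w ∈ T.erase a, lam {a, w} * Z lam ((T.erase a).erase w) := by
    refine le_trans (Finset.sum_le_sum fun w _ => mul_le_mul_of_nonneg_left
      (Z_mono h (Finset.erase_subset_erase w (Finset.erase_subset b (T.erase a)))) (h _)) ?_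
    exact Finset.sum_le_sum_of_subset_of_nonneg (Finset.erase_subset _ _)
      fun w _ _ => mul_nonneg (h _) (Z_nonneg h _)
  linarith

/-- If every vertex is free with probability more than one third, then every two vertices are
free together with probability bounded below. -/
lemma free_lower (h : ∀ p, 0 ≤ lam p) (S : Finset V) {ε : ℝ} (hε : 0 < ε) (hε1 : ε ≤ 1)
    (hfree : ∀ v ∈ S, (1 / 3 + ε) * Z lam S ≤ Z lam (S.erase v)) {x y : V} (hx : x ∈ S)
    (hy : y ∈ S) (hxy : x ≠ y) : ε / 36 * Z lam S ≤ Z lam ((S.erase x).erase y) := by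
  set T := S.erase x with hT
  set z0 := Z lam T with hz0
  have hz0pos : 0 < z0 := Z_pos h T
  have hZS : 0 < Z lam S := Z_pos h S
  have hz0le : z0 ≤ Z lam S := Z_mono h (Finset.erase_subset _ _)
  have hz0ge : (1 / 3 + ε) * Z lam S ≤ z0 := hfree x hx
  have E0 := Z_rec lam hx
  rw [← hT, ← hz0] at E0
  have Ey : ∀ y ∈ T, Z lam (S.erase y) = Z lam (T.erase y) +
      ∑ w ∈ T, lam {x, w} * (ind (w ≠ y) * Z lam ((T.erase y).erase w)) := by
    intro y hy
    have hyx : y ≠ x := (Finset.mem_erase.mp hy).1
    have h1 := Z_rec lam (S := S.erase y) (a := x) (Finset.mem_erase.mpr ⟨hyx.symm, hx⟩)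
    rw [Finset.erase_right_comm (s := S) (a := y) (b := x), ← hT] at h1
    rw [h1, ← Finset.add_sum_erase T _ hy, ind_neg (not_not.mpr rfl), zero_mul, mul_zero,
      zero_add]
    congr 1
    refine Finset.sum_congr rfl fun w hw => ?_
    rw [ind_pos (Finset.mem_erase.mp hw).1, one_mul]
  have claim1 : ∀ y1 ∈ T, ∀ y2 ∈ T, y1 ≠ y2 → Z lam (T.erase y1) ≤ ε / 2 * z0 →
      Z lam (T.erase y2) ≤ ε / 2 * z0 → False := by
    intro y1 hy1 y2 hy2 hne h1 h2
    have h3 : ∀ w ∈ T, lam {x, w} * (ind (w ≠ y1) * Z lam ((T.erase y1).erase w)) +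
        lam {x, w} * (ind (w ≠ y2) * Z lam ((T.erase y2).erase w)) ≤
        (1 + 3 * (ε / 2)) * (lam {x, w} * Z lam (T.erase w)) := by
      intro w hw
      have hZw := Z_nonneg h (T.erase w)
      have h4 : ind (w ≠ y1) * Z lam ((T.erase y1).erase w) +
          ind (w ≠ y2) * Z lam ((T.erase y2).erase w) ≤ (1 + 3 * (ε / 2)) * Z lam (T.erase w) := by
        have m1 : Z lam ((T.erase y1).erase w) ≤ Z lam (T.erase w) :=
          Z_mono h (Finset.erase_subset_erase w (Finset.erase_subset _ _))
        have m2 : Z lam ((T.erase y2).erase w) ≤ Z lam (T.erase w) :=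
          Z_mono h (Finset.erase_subset_erase w (Finset.erase_subset _ _))
        by_cases hw1 : w = y1
        · rw [ind_neg (not_not.mpr hw1), zero_mul, zero_add, ind_pos (hw1 ▸ hne), one_mul]
          nlinarith
        · by_cases hw2 : w = y2
          · rw [ind_neg (not_not.mpr hw2), zero_mul, add_zero, ind_pos hw1, one_mul]
            nlinarith
          · rw [ind_pos hw1, ind_pos hw2, one_mul, one_mul]
            have h5 := Z_two h (T.erase w) (a := y1) (b := y2)
              (Finset.mem_erase.mpr ⟨Ne.symm hw1, hy1⟩) hne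
            have h6 := (pluecker h _ T rfl w hw y1 hy1 y2 hy2 hw1 hw2 hne).1
            rw [Finset.erase_right_comm (s := T) (a := w) (b := y1),
              Finset.erase_right_comm (s := T) (a := w) (b := y2)] at h5 h6
            have m3 : Z lam ((T.erase y1).erase y2) ≤ Z lam (T.erase y1) :=
              Z_mono h (Finset.erase_subset _ _)
            have n1 := Z_nonneg h (T.erase y1)
            have n2 := Z_nonneg h (T.erase y2)
            have hc : 0 ≤ ε / 2 * z0 := by positivity
            have b1 : Z lam (T.erase w) * Z lam ((T.erase y1).erase y2) ≤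
                Z lam (T.erase w) * (ε / 2 * z0) := mul_le_mul_of_nonneg_left (m3.trans h1) hZw
            have b2 : Z lam (T.erase y1) * Z lam ((T.erase y2).erase w) ≤
                (ε / 2 * z0) * Z lam (T.erase w) := mul_le_mul h1 m2 (Z_nonneg h _) hc
            have b3 : Z lam (T.erase y2) * Z lam ((T.erase y1).erase w) ≤
                (ε / 2 * z0) * Z lam (T.erase w) := mul_le_mul h2 m1 (Z_nonneg h _) hc
            have h7 : z0 * Z lam (((T.erase y1).erase w).erase y2) ≤
                z0 * (3 * (ε / 2) * Z lam (T.erase w)) := by nlinarith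
            have h8 := le_of_mul_le_mul_left h7 hz0pos
            nlinarith
      nlinarith [mul_le_mul_of_nonneg_left h4 (h {x, w})]
    have h5 := Finset.sum_le_sum h3
    rw [Finset.sum_add_distrib, ← Finset.mul_sum] at h5
    have f1 := hfree y1 (Finset.mem_erase.mp hy1).2
    have f2 := hfree y2 (Finset.mem_erase.mp hy2).2
    rw [Ey y1 hy1] at f1
    rw [Ey y2 hy2] at f2
    have h6 : ∑ w ∈ T, lam {x, w} * Z lam (T.erase w) = Z lam S - z0 := by linarith
    rw [h6] at h5
    have h7 : (1 + 3 * (ε / 2)) * (Z lam S - z0) ≤ (1 + 3 * (ε / 2)) * ((2 / 3 - ε) * Z lam S) :=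
      mul_le_mul_of_nonneg_left (by linarith) (by linarith)
    have h8 : ε * z0 ≤ ε * Z lam S := mul_le_mul_of_nonneg_left hz0le hε.le
    nlinarith [mul_pos hε hZS, mul_pos (mul_pos hε hε) hZS]
  have hyT : y ∈ T := Finset.mem_erase.mpr ⟨hxy.symm, hy⟩
  have claim2 : ε / 12 * z0 ≤ Z lam (T.erase y) := by
    by_contra hlt
    push Not at hlt
    have h3 : ∀ w ∈ T, lam {x, w} * (ind (w ≠ y) * Z lam ((T.erase y).erase w)) ≤
        1 / 6 * (lam {x, w} * Z lam (T.erase w)) := by
      intro w hw
      have hZw := Z_nonneg h (T.erase w)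
      have h4 : ind (w ≠ y) * Z lam ((T.erase y).erase w) ≤ 1 / 6 * Z lam (T.erase w) := by
        by_cases hwy : w = y
        · rw [ind_neg (not_not.mpr hwy), zero_mul]
          positivity
        · rw [ind_pos hwy, one_mul]
          have h5 : ε / 2 * z0 < Z lam (T.erase w) := by
            by_contra hle
            push Not at hle
            exact claim1 w hw y hyT hwy hle (by nlinarith [mul_pos hε hz0pos])
          have h6 : Z lam ((T.erase y).erase w) ≤ Z lam (T.erase y) :=
            Z_mono h (Finset.erase_subset _ _)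
          linarith
      nlinarith [mul_le_mul_of_nonneg_left h4 (h {x, w})]
    have h5 := Finset.sum_le_sum h3
    rw [← Finset.mul_sum] at h5
    have f1 := hfree y hy
    rw [Ey y hyT] at f1
    have h6 : ∑ w ∈ T, lam {x, w} * Z lam (T.erase w) = Z lam S - z0 := by linarith
    rw [h6] at h5
    nlinarith [mul_pos hε hZS, mul_le_mul_of_nonneg_right hε1 hz0pos.le]
  nlinarith [mul_le_mul_of_nonneg_left hz0ge hε.le, mul_pos (mul_pos hε hε) hZS]

end

end Pool.Agent.Lib.MP_f8e628_co
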