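import Mathlib
import Pool.Agent.Lib.MP_f8e628_co.Pluecker

set_option autoImplicit false
set_option linter.unusedSectionVars false

open Finset

namespace Pool.Agent.Lib.MP_f8e628_co

section
variable {V : Type*} [DecidableEq V] [Fintype V]

lemma Z_update (lam : Finset V → ℝ) {p : Finset V} (hp : p.card = 2) (t : ℝ) :
    Z (Function.update lam p t) Finset.univ =
      Z lam Finset.univ + (t - lam p) * Z lam (Finset.univ \ p) := by
  have split : ∀ l : Finset V → ℝ, Z l Finset.univ =
      ∑ M, md l Finset.univ M * ind (p ∉ M) + l p * Z l (Finset.univ \ p) := by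
    intro l
    rw [← ev_pair l (Finset.subset_univ p) hp, ← Finset.sum_add_distrib]
    refine Finset.sum_congr rfl fun M _ => ?_
    rw [ind_not]
    ring
  rw [split (Function.update lam p t), split lam, Function.update_self]
  have h1 : Z (Function.update lam p t) (Finset.univ \ p) = Z lam (Finset.univ \ p) := by
    apply Z_congr
    intro q hq hq2
    apply Function.update_of_ne
    rintro rfl
    obtain ⟨v, hv⟩ : q.Nonempty := Finset.card_pos.mp (by omega)
    exact (Finset.mem_sdiff.mp (hq hv)).2 hv
  have h2 : ∑ M, md (Function.update lam p t) Finset.univ M * ind (p ∉ M) =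
      ∑ M, md lam Finset.univ M * ind (p ∉ M) := by
    refine Finset.sum_congr rfl fun M _ => ?_
    by_cases hM : p ∈ M
    · rw [ind_neg (not_not.mpr hM), mul_zero, mul_zero]
    · congr 1
      unfold md wt
      congr 1
      refine Finset.prod_congr rfl fun q hq => Function.update_of_ne ?_ _ _
      rintro rfl
      exact hM hq
  rw [h1, h2]
  ring

lemma continuous_Z (S : Finset V) : Continuous (fun lam : Finset V → ℝ => Z lam S) := by
  unfold Z md wt
  fun_prop

/-- A monomer-dimer measure with prescribed edge marginals and bounded activities. -/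
theorem exists_marginals (x : Finset V → ℝ) (hx0 : ∀ p, 0 ≤ x p) {ε : ℝ} (hε : 0 < ε)
    (hε1 : ε ≤ 1) (hsum : ∀ v, ∑ w ∈ Finset.univ.erase v, x {v, w} ≤ 2 / 3 - ε) :
    ∃ lam : Finset V → ℝ, (∀ p, x p ≤ lam p) ∧ (∀ p, lam p ≤ 72 / ε * x p) ∧
      ∀ p, p.card = 2 → lam p * Z lam (Finset.univ \ p) = x p * Z lam Finset.univ := by
  let f : (Finset V → ℝ) → ℝ := fun lam =>
    Real.log (Z lam Finset.univ) - ∑ p, x p * Real.log (lam p)
  have hC : 1 ≤ 36 / ε := by rw [le_div_iff₀ hε]; linarith
  have hC2 : 72 / ε = 2 * (36 / ε) := by ring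
  have hne : x ∈ Set.Icc x (fun p => 72 / ε * x p) :=
    ⟨le_rfl, fun p => by have := hx0 p; simp only; nlinarith⟩
  have hcont : ContinuousOn f (Set.Icc x (fun p => 72 / ε * x p)) := by
    refine ContinuousOn.sub ?_ (continuousOn_finsetSum _ fun p _ => ?_)
    · refine (continuous_Z _).continuousOn.log fun lam hl => ?_
      exact (Z_pos (fun p => (hx0 p).trans (hl.1 p)) _).ne'
    · by_cases hp : x p = 0
      · simp only [hp, zero_mul]
        exact continuousOn_const
      · refine continuousOn_const.mul ((continuous_apply p).continuousOn.log fun lam hl => ?_)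
        exact (lt_of_lt_of_le (lt_of_le_of_ne (hx0 p) (Ne.symm hp)) (hl.1 p)).ne'
  obtain ⟨lam, hl, hmin⟩ := isCompact_Icc.exists_isMinOn ⟨x, hne⟩ hcont
  have hl0 : ∀ p, 0 ≤ lam p := fun p => (hx0 p).trans (hl.1 p)
  have hZ := Z_pos hl0 Finset.univ
  -- the first-order inequality
  have first : ∀ p, p.card = 2 → 0 < x p → ∀ t : ℝ, 0 < t → x p ≤ t * lam p →
      t * lam p ≤ 72 / ε * x p →
      x p * (1 - t⁻¹) ≤ (t - 1) * (lam p * Z lam (Finset.univ \ p) / Z lam Finset.univ) := by
    intro p hp hxp t ht h1 h2
    have hlp : 0 < lam p := lt_of_lt_of_le hxp (hl.1 p)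
    have hmem : Function.update lam p (t * lam p) ∈ Set.Icc x (fun p => 72 / ε * x p) := by
      constructor
      · intro q
        by_cases hq : q = p
        · subst hq; simpa using h1
        · rw [Function.update_of_ne hq]; exact hl.1 q
      · intro q
        by_cases hq : q = p
        · subst hq; simpa using h2
        · rw [Function.update_of_ne hq]; exact hl.2 q
    have h3 : f lam ≤ f (Function.update lam p (t * lam p)) := hmin hmem
    simp only [f] at h3
    have h4 : ∑ q, x q * Real.log (Function.update lam p (t * lam p) q) =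
        ∑ q, x q * Real.log (lam q) + x p * Real.log t := by
      rw [← Finset.add_sum_erase _ _ (Finset.mem_univ p),
        ← Finset.add_sum_erase _ (fun q => x q * Real.log (lam q)) (Finset.mem_univ p),
        Function.update_self, Real.log_mul ht.ne' hlp.ne']
      have : ∑ q ∈ Finset.univ.erase p, x q * Real.log (Function.update lam p (t * lam p) q) =
          ∑ q ∈ Finset.univ.erase p, x q * Real.log (lam q) :=
        Finset.sum_congr rfl fun q hq => by
          rw [Function.update_of_ne (Finset.mem_erase.mp hq).1]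
      rw [this]
      ring
    set P := lam p * Z lam (Finset.univ \ p) / Z lam Finset.univ with hP
    have h5 : Z (Function.update lam p (t * lam p)) Finset.univ =
        Z lam Finset.univ * (1 + (t - 1) * P) := by
      rw [Z_update lam hp, hP]
      field_simp
    have h6 : 0 < Z (Function.update lam p (t * lam p)) Finset.univ :=
      Z_pos (fun q => (hx0 q).trans (hmem.1 q)) _
    have h7 : 0 < 1 + (t - 1) * P := by
      rw [h5] at h6
      exact (pos_iff_pos_of_mul_pos h6).mp hZ
    rw [h4, h5, Real.log_mul hZ.ne' h7.ne'] at h3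
    have h8 := Real.log_le_sub_one_of_pos h7
    have h9 := Real.one_sub_inv_le_log_of_pos ht
    nlinarith [mul_le_mul_of_nonneg_left h9 hxp.le]
  have upper : ∀ p, p.card = 2 → lam p * Z lam (Finset.univ \ p) ≤ x p * Z lam Finset.univ := by
    intro p hp
    have hB : Z lam (Finset.univ \ p) ≤ Z lam Finset.univ := Z_mono hl0 (Finset.subset_univ _)
    by_cases hxp : x p = 0
    · have : lam p = 0 := le_antisymm (by simpa [hxp] using hl.2 p) (hl0 p)
      simp [this, hxp]
    have hxp' : 0 < x p := lt_of_le_of_ne (hx0 p) (Ne.symm hxp)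
    have hlp : 0 < lam p := lt_of_lt_of_le hxp' (hl.1 p)
    by_contra hlt
    push Not at hlt
    set P := lam p * Z lam (Finset.univ \ p) / Z lam Finset.univ with hP
    have hP1 : x p < P := by rw [hP, lt_div_iff₀ hZ]; exact hlt
    have hP2 : P ≤ lam p := by
      rw [hP, div_le_iff₀ hZ]
      exact mul_le_mul_of_nonneg_left hB hlp.le
    have hP0 : 0 < P := hxp'.trans hP1
    set t := (P + x p) / (2 * P) with ht
    have ht0 : 0 < t := by positivity
    have ht1 : t < 1 := by rw [ht, div_lt_one (by positivity)]; linarith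
    have htP : t * P = (P + x p) / 2 := by rw [ht]; field_simp
    have h1 := first p hp hxp' t ht0 (by nlinarith) (by
      have := hl.2 p
      simp only at this
      nlinarith)
    rw [← hP] at h1
    have h2 : x p * (1 - t⁻¹) * t = x p * (t - 1) := by field_simp
    have h3 := mul_le_mul_of_nonneg_right h1 ht0.le
    rw [h2] at h3
    nlinarith
  have hfree : ∀ v ∈ (Finset.univ : Finset V),
      (1 / 3 + ε) * Z lam Finset.univ ≤ Z lam (Finset.univ.erase v) := by
    intro v hv
    have h1 := Z_rec lam hv
    have h2 : ∑ w ∈ Finset.univ.erase v, lam {v, w} * Z lam ((Finset.univ.erase v).erase w) ≤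
        ∑ w ∈ Finset.univ.erase v, x {v, w} * Z lam Finset.univ := by
      refine Finset.sum_le_sum fun w hw => ?_
      have h3 := upper {v, w} (Finset.card_pair (Finset.mem_erase.mp hw).1.symm)
      have h4 : (Finset.univ.erase v).erase w = Finset.univ \ {v, w} := by
        ext y
        simp only [Finset.mem_erase, Finset.mem_sdiff, Finset.mem_insert, Finset.mem_singleton]
        tauto
      rwa [h4]
    rw [← Finset.sum_mul] at h2
    nlinarith [mul_le_mul_of_nonneg_right (hsum v) hZ.le]
  refine ⟨lam, hl.1, hl.2, fun p hp => le_antisymm (upper p hp) ?_⟩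
  by_cases hxp : x p = 0
  · rw [hxp, zero_mul]
    exact mul_nonneg (hl0 p) (Z_nonneg hl0 _)
  have hxp' : 0 < x p := lt_of_le_of_ne (hx0 p) (Ne.symm hxp)
  have hlp : 0 < lam p := lt_of_lt_of_le hxp' (hl.1 p)
  by_contra hlt
  push Not at hlt
  set P := lam p * Z lam (Finset.univ \ p) / Z lam Finset.univ with hP
  have hP1 : P < x p := by rw [hP, div_lt_iff₀ hZ]; exact hlt
  have hB : ε / 36 * Z lam Finset.univ ≤ Z lam (Finset.univ \ p) := by
    obtain ⟨a, b, hab, rfl⟩ := Finset.card_eq_two.mp hp
    have h3 := free_lower hl0 Finset.univ hε hε1 hfree (Finset.mem_univ a) (Finset.mem_univ b) hab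
    have h4 : (Finset.univ.erase a).erase b = Finset.univ \ {a, b} := by
      ext y
      simp only [Finset.mem_erase, Finset.mem_sdiff, Finset.mem_insert, Finset.mem_singleton]
      tauto
    rwa [h4] at h3
  have hP2 : ε / 36 * lam p ≤ P := by
    rw [hP, le_div_iff₀ hZ]
    nlinarith [mul_le_mul_of_nonneg_left hB hlp.le]
  have hP0 : 0 < P := lt_of_lt_of_le (by positivity) hP2
  have hP3 : lam p ≤ 36 / ε * x p := by
    have : lam p = 36 / ε * (ε / 36 * lam p) := by field_simp
    rw [this]
    exact mul_le_mul_of_nonneg_left (hP2.trans hP1.le) (by positivity)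
  set t := 1 + (x p - P) / (2 * x p) with ht
  have hτ0 : 0 < (x p - P) / (2 * x p) := div_pos (by linarith) (by positivity)
  have hτ1 : (x p - P) / (2 * x p) ≤ 1 := by rw [div_le_one (by positivity)]; linarith
  have ht0 : 0 < t := by linarith
  have ht1 : 1 < t := by linarith
  have htx : (t - 1) * x p = (x p - P) / 2 := by rw [ht]; field_simp; ring
  have h1 := first p hp hxp' t ht0 (by nlinarith [hl.1 p]) (by rw [hC2]; nlinarith)
  rw [← hP] at h1
  have h2 : x p * (1 - t⁻¹) * t = x p * (t - 1) := by field_simp
  have h3 := mul_le_mul_of_nonneg_right h1 ht0.le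
  rw [h2] at h3
  have h4 : x p ≤ P * t := by
    have : (t - 1) * x p ≤ (t - 1) * (P * t) := by linarith
    exact le_of_mul_le_mul_left this (by linarith)
  nlinarith

end

end Pool.Agent.Lib.MP_f8e628_co
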