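import Mathlib
import Pool.Agent.Lib.MP_f8e628_co.StageOver
import Pool.Agent.Lib.MP_f8e628_co.Marginals

set_option autoImplicit false
set_option linter.unusedSectionVars false

open Finset

namespace Pool.Agent.Lib.MP_f8e628_co

section
variable {V : Type*} [DecidableEq V] [Fintype V]

/-- Codegree of a set of vertices. -/
def cdg (H : Finset (Finset V)) (p : Finset V) : ℕ := (H.filter (fun e => p ⊆ e)).card

/-- Heavy pairs of a triple. -/
noncomputable def hvy (H : Finset (Finset V)) (θ : ℝ) (e : Finset V) : Finset (Finset V) :=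
  (Finset.powersetCard 2 e).filter (fun p => θ < (cdg H p : ℝ))

/-- Triples with at most one heavy pair. -/
noncomputable def Hg (H : Finset (Finset V)) (θ : ℝ) : Finset (Finset V) :=
  H.filter (fun e => (hvy H θ e).card ≤ 1)

noncomputable def mu (H : Finset (Finset V)) (θ : ℝ) (p : Finset V) : ℕ :=
  ((Hg H θ).filter (fun e => p ∈ hvy H θ e)).card

/-- Heavy neighbours of a vertex. -/
noncomputable def hn (H : Finset (Finset V)) (θ : ℝ) (v : V) : Finset V :=
  (Finset.univ.erase v).filter (fun w => θ < (cdg H {v, w} : ℝ))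

variable {H : Finset (Finset V)} {θ D ω : ℝ}

lemma mem_hvy {e p : Finset V} : p ∈ hvy H θ e ↔ p ⊆ e ∧ p.card = 2 ∧ θ < (cdg H p : ℝ) := by
  simp [hvy, and_assoc]

lemma mem_hn {v w : V} : w ∈ hn H θ v ↔ w ≠ v ∧ θ < (cdg H {v, w} : ℝ) := by
  simp [hn]

lemma geo_Hg (h3 : ∀ e ∈ H, e.card = 3) : Geo (Hg H θ) (hvy H θ) where
  card3 := fun e he => h3 e (Finset.mem_filter.mp he).1
  pair := fun _ _ _ hp => ⟨(mem_hvy.mp hp).1, (mem_hvy.mp hp).2.1⟩
  uniq := fun _ he => Finset.card_le_one.mp (Finset.mem_filter.mp he).2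

lemma card_hn_le (h3 : ∀ e ∈ H, e.card = 3) (hD : 0 < D) (hω : 0 < ω)
    (hdeg : ∀ v, ((H.filter (fun e => v ∈ e)).card : ℝ) ≤ D) (v : V) :
    ((hn H (D / ω) v).card : ℝ) ≤ 2 * ω := by
  have h1 : ∑ w ∈ Finset.univ.erase v, (cdg H {v, w} : ℝ) ≤ 2 * D := by
    have h2 : ∀ w ∈ Finset.univ.erase v, (cdg H {v, w} : ℝ) =
        ∑ e ∈ H.filter (fun e => v ∈ e), ind (w ∈ e) := by
      intro w _
      rw [sum_ind_eq_card, Finset.filter_filter]
      unfold cdg
      congr 2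
      ext e
      simp [Finset.insert_subset_iff]
    rw [Finset.sum_congr rfl h2, Finset.sum_comm]
    have h4 : ∀ e ∈ H.filter (fun e => v ∈ e), ∑ w ∈ Finset.univ.erase v, ind (w ∈ e) = 2 := by
      intro e he
      obtain ⟨h5, h6⟩ := Finset.mem_filter.mp he
      rw [sum_ind_eq_card]
      have : (Finset.univ.erase v).filter (fun w => w ∈ e) = e.erase v := by
        ext w
        simp
      rw [this, Finset.card_erase_of_mem h6, h3 e h5]
      norm_num
    rw [Finset.sum_congr rfl h4, Finset.sum_const, nsmul_eq_mul]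
    linarith [hdeg v]
  have h2 : ((hn H (D / ω) v).card : ℝ) * (D / ω) ≤ 2 * D := by
    refine le_trans ?_ h1
    rw [← nsmul_eq_mul, ← Finset.sum_const]
    refine le_trans (Finset.sum_le_sum fun w hw => (mem_hn.mp hw).2.le) ?_
    exact Finset.sum_le_sum_of_subset_of_nonneg (Finset.filter_subset _ _)
      fun _ _ _ => Nat.cast_nonneg _
  have h4 : ((hn H (D / ω) v).card : ℝ) * D ≤ 2 * ω * D := by
    have := mul_le_mul_of_nonneg_right h2 hω.le
    rw [mul_assoc, div_mul_cancel₀ _ hω.ne'] at this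
    linarith
  exact le_of_mul_le_mul_right h4 hD

lemma two_pairs {e p q : Finset V} (he : e.card = 3) (hp : p ⊆ e) (hq : q ⊆ e) (hp2 : p.card = 2)
    (hq2 : q.card = 2) (hne : p ≠ q) : ∃ a ∈ p, ∃ c, c ∉ p ∧ q = {a, c} ∧ e = insert c p := by
  have h1 : ¬ q ⊆ p := fun h => hne (Finset.eq_of_subset_of_card_le h (by omega)).symm
  obtain ⟨c, hcq, hcp⟩ := Finset.not_subset.mp h1
  have h2 : e = insert c p := by
    symm
    apply Finset.eq_of_subset_of_card_le (Finset.insert_subset (hq hcq) hp)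
    rw [Finset.card_insert_of_notMem hcp, hp2, he]
  obtain ⟨a, ha⟩ := Finset.card_eq_one.mp
    (show (q.erase c).card = 1 by rw [Finset.card_erase_of_mem hcq, hq2])
  have h3 : a ∈ q.erase c := ha ▸ Finset.mem_singleton_self a
  obtain ⟨h4, h5⟩ := Finset.mem_erase.mp h3
  refine ⟨a, ?_, c, hcp, ?_, h2⟩
  · have := hq h5
    rw [h2] at this
    exact (Finset.mem_insert.mp this).resolve_left h4
  · rw [← Finset.insert_erase hcq, ha, Finset.pair_comm]

lemma pair_eq {p : Finset V} (hp2 : p.card = 2) {a : V} (ha : a ∈ p) :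
    ∃ b, b ≠ a ∧ p = {a, b} := by
  obtain ⟨b, hb⟩ := Finset.card_eq_one.mp
    (show (p.erase a).card = 1 by rw [Finset.card_erase_of_mem ha, hp2])
  have h3 : b ∈ p.erase a := hb ▸ Finset.mem_singleton_self b
  exact ⟨b, (Finset.mem_erase.mp h3).1, by rw [← Finset.insert_erase ha, hb]⟩

lemma deg_le_good (h3 : ∀ e ∈ H, e.card = 3) (hD : 0 < D) (hω : 0 < ω)
    (hdeg : ∀ v, ((H.filter (fun e => v ∈ e)).card : ℝ) ≤ D) (v : V) :
    ((H.filter (fun e => v ∈ e)).card : ℝ) ≤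
      (((Hg H (D / ω)).filter (fun e => v ∈ e)).card : ℝ) + 8 * ω ^ 2 := by
  set θ := D / ω with hθ
  have h1 : H.filter (fun e => v ∈ e) ⊆ (Hg H θ).filter (fun e => v ∈ e) ∪
      (hn H θ v).biUnion (fun a => (hn H θ v ∪ hn H θ a).image (fun c => {v, a, c})) := by
    intro e he
    obtain ⟨h4, h5⟩ := Finset.mem_filter.mp he
    by_cases hg : (hvy H θ e).card ≤ 1
    · exact Finset.mem_union_left _
        (Finset.mem_filter.mpr ⟨Finset.mem_filter.mpr ⟨h4, hg⟩, h5⟩)
    refine Finset.mem_union_right _ ?_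
    obtain ⟨p, hp, q, hq, hne⟩ := Finset.one_lt_card.mp (not_le.mp hg)
    obtain ⟨p1, p2, p3⟩ := mem_hvy.mp hp
    obtain ⟨q1, q2, q3⟩ := mem_hvy.mp hq
    obtain ⟨a, ha, c, hc, rfl, rfl⟩ := two_pairs (h3 e h4) p1 q1 p2 q2 hne
    obtain ⟨b, hb, rfl⟩ := pair_eq p2 ha
    have hca : c ≠ a := fun h => hc (by simp [h])
    simp only [Finset.mem_biUnion, Finset.mem_image, Finset.mem_union, mem_hn]
    simp only [Finset.mem_insert, Finset.mem_singleton] at h5
    rcases h5 with rfl | rfl | rfl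
    · exact ⟨a, ⟨hca.symm, by rwa [Finset.pair_comm]⟩, b, Or.inr ⟨hb, p3⟩, rfl⟩
    · refine ⟨b, ⟨hb, p3⟩, c, Or.inl ⟨hca, q3⟩, ?_⟩
      ext x
      simp only [Finset.mem_insert, Finset.mem_singleton]
      tauto
    · refine ⟨a, ⟨hb.symm, by rwa [Finset.pair_comm]⟩, c, Or.inr ⟨hca, q3⟩, ?_⟩
      ext x
      simp only [Finset.mem_insert, Finset.mem_singleton]
      tauto
  have h2 := (Finset.card_le_card h1).trans (Finset.card_union_le _ _)
  have h4 : (((hn H θ v).biUnion (fun a => (hn H θ v ∪ hn H θ a).image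
      (fun c => ({v, a, c} : Finset V)))).card : ℝ) ≤ 8 * ω ^ 2 := by
    refine le_trans (by exact_mod_cast Finset.card_biUnion_le :
      _ ≤ ∑ a ∈ hn H θ v, (((hn H θ v ∪ hn H θ a).image
        (fun c => ({v, a, c} : Finset V))).card : ℝ)) ?_
    have h5 : ∀ a ∈ hn H θ v, (((hn H θ v ∪ hn H θ a).image
        (fun c => ({v, a, c} : Finset V))).card : ℝ) ≤ 4 * ω := by
      intro a _
      have h6 : (((hn H θ v ∪ hn H θ a).image (fun c => ({v, a, c} : Finset V))).card : ℝ) ≤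
          ((hn H θ v).card : ℝ) + ((hn H θ a).card : ℝ) := by
        exact_mod_cast Finset.card_image_le.trans (Finset.card_union_le _ _)
      linarith [card_hn_le h3 hD hω hdeg v, card_hn_le h3 hD hω hdeg a]
    refine (Finset.sum_le_sum h5).trans ?_
    rw [Finset.sum_const, nsmul_eq_mul]
    nlinarith [card_hn_le h3 hD hω hdeg v]
  have h5 : ((H.filter (fun e => v ∈ e)).card : ℝ) ≤
      (((Hg H θ).filter (fun e => v ∈ e)).card : ℝ) + (((hn H θ v).biUnion
        (fun a => (hn H θ v ∪ hn H θ a).image (fun c => ({v, a, c} : Finset V)))).card : ℝ) := by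
    exact_mod_cast h2
  linarith

lemma mu_ge (h3 : ∀ e ∈ H, e.card = 3) (hD : 0 < D) (hω : 0 < ω)
    (hdeg : ∀ v, ((H.filter (fun e => v ∈ e)).card : ℝ) ≤ D) {p : Finset V} (hp2 : p.card = 2)
    (hp : D / ω < (cdg H p : ℝ)) : D / ω - 4 * ω ≤ (mu H (D / ω) p : ℝ) := by
  set θ := D / ω with hθ
  have h1 : H.filter (fun e => p ⊆ e) ⊆ (Hg H θ).filter (fun e => p ∈ hvy H θ e) ∪
      (p.biUnion (fun a => hn H θ a)).image (fun c => insert c p) := by
    intro e he
    obtain ⟨h4, h5⟩ := Finset.mem_filter.mp he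
    have h6 : p ∈ hvy H θ e := mem_hvy.mpr ⟨h5, hp2, hp⟩
    by_cases hg : (hvy H θ e).card ≤ 1
    · exact Finset.mem_union_left _
        (Finset.mem_filter.mpr ⟨Finset.mem_filter.mpr ⟨h4, hg⟩, h6⟩)
    refine Finset.mem_union_right _ ?_
    obtain ⟨q, hq, hne⟩ := Finset.exists_mem_ne (not_le.mp hg) p
    obtain ⟨q1, q2, q3⟩ := mem_hvy.mp hq
    obtain ⟨a, ha, c, hc, rfl, rfl⟩ := two_pairs (h3 e h4) h5 q1 hp2 q2 hne.symm
    refine Finset.mem_image.mpr ⟨c, Finset.mem_biUnion.mpr ⟨a, ha, mem_hn.mpr ⟨?_, q3⟩⟩, rfl⟩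
    exact fun h => hc (h ▸ ha)
  have h2 := (Finset.card_le_card h1).trans (Finset.card_union_le _ _)
  have h4 : (((p.biUnion (fun a => hn H θ a)).image (fun c => insert c p)).card : ℝ) ≤ 4 * ω := by
    refine le_trans (by exact_mod_cast Finset.card_image_le.trans Finset.card_biUnion_le :
      _ ≤ ∑ a ∈ p, ((hn H θ a).card : ℝ)) ?_
    refine (Finset.sum_le_sum fun a _ => card_hn_le h3 hD hω hdeg a).trans ?_
    rw [Finset.sum_const, nsmul_eq_mul, hp2]
    push_cast
    linarith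
  have h5 : (cdg H p : ℝ) ≤ (mu H θ p : ℝ) +
      (((p.biUnion (fun a => hn H θ a)).image (fun c => insert c p)).card : ℝ) := by
    exact_mod_cast h2
  linarith

lemma light_add_heavy (h3 : ∀ e ∈ H, e.card = 3) (v : V) :
    ((Js (Hg H θ) (hvy H θ) ∅ v).card : ℝ) + ∑ w ∈ Finset.univ.erase v, (mu H θ {v, w} : ℝ) ≤
      ((H.filter (fun e => v ∈ e)).card : ℝ) := by
  have hg := geo_Hg (θ := θ) h3
  have h1 : ((Js (Hg H θ) (hvy H θ) ∅ v).card : ℝ) =
      ∑ e ∈ Hg H θ, ind (v ∈ e ∧ Po (hvy H θ) e v = ∅) := by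
    rw [sum_ind_eq_card]; rfl
  have h2 : ∑ w ∈ Finset.univ.erase v, (mu H θ {v, w} : ℝ) =
      ∑ e ∈ Hg H θ, ∑ w ∈ Finset.univ.erase v, ind ({v, w} ∈ hvy H θ e) := by
    rw [Finset.sum_comm]
    refine Finset.sum_congr rfl fun w _ => ?_
    rw [sum_ind_eq_card]; rfl
  rw [h1, h2, ← Finset.sum_add_distrib, ← sum_ind_eq_card]
  refine le_trans (Finset.sum_le_sum (g := fun e => ind (v ∈ e)) fun e he => ?_)
    (Finset.sum_le_sum_of_subset_of_nonneg (Finset.filter_subset _ _) fun _ _ _ => ind_nonneg _)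
  by_cases hex : ∃ w ∈ Finset.univ.erase v, {v, w} ∈ hvy H θ e
  · obtain ⟨w, hw, hwe⟩ := hex
    have h4 : v ∈ e := (mem_hvy.mp hwe).1 (by simp)
    have h5 : ¬ (v ∈ e ∧ Po (hvy H θ) e v = ∅) := by
      intro hh
      have h6 : {v, w} ∈ Po (hvy H θ) e v := Finset.mem_filter.mpr ⟨hwe, by simp⟩
      rw [hh.2] at h6
      exact Finset.notMem_empty _ h6
    rw [ind_neg h5, zero_add, ind_pos h4, Finset.sum_eq_single w, ind_pos hwe]
    · intro w' hw' hne
      refine ind_neg fun hh => hne ?_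
      have h6 := hg.uniq e he _ hh _ hwe
      have h7 : w' ∈ ({v, w} : Finset V) := h6 ▸ (by simp)
      simp only [Finset.mem_insert, Finset.mem_singleton] at h7
      exact h7.resolve_left (Finset.mem_erase.mp hw').1
    · intro hh
      exact absurd hw hh
  · rw [Finset.sum_eq_zero fun w hw => ind_neg fun hh => hex ⟨w, hw, hh⟩, add_zero]
    exact ind_mono fun hh => hh.1

theorem heavy_setup (h3 : ∀ e ∈ H, e.card = 3) (hD : 0 < D) (hω : 0 < ω)
    (hdeg : ∀ v, ((H.filter (fun e => v ∈ e)).card : ℝ) ≤ D) {ε K β0 : ℝ} (hε : 0 < ε)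
    (hε1 : ε ≤ 1) (hK0 : 0 < K) (hK : D ≤ (2 / 3 - ε) * K) (hβ0 : 0 < β0)
    (hβ1 : 1 ≤ β0 * (D / ω - 4 * ω)) (hβ2 : D / ω ≤ β0 * (K - D)) (hβ3 : 1 ≤ β0 * K) :
    ∃ lam : Finset V → ℝ, Setup (Hg H (D / ω)) (hvy H (D / ω)) lam K (72 / ε) β0 ∧
      ∀ u w, lam {u, w} ≠ 0 → ∃ e ∈ H, u ∈ e ∧ w ∈ e := by
  set θ := D / ω with hθ
  have hg := geo_Hg (θ := θ) h3
  have hsum0 : ∀ v, ∑ w ∈ Finset.univ.erase v, (mu H θ {v, w} : ℝ) ≤ D := fun v => by
    have h1 := light_add_heavy (θ := θ) h3 v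
    have h2 : (0 : ℝ) ≤ (Js (Hg H θ) (hvy H θ) ∅ v).card := Nat.cast_nonneg _
    linarith [hdeg v]
  have hsum : ∀ v, ∑ w ∈ Finset.univ.erase v, (mu H θ {v, w} : ℝ) / K ≤ 2 / 3 - ε := fun v => by
    rw [← Finset.sum_div, div_le_iff₀ hK0]
    exact (hsum0 v).trans hK
  obtain ⟨lam, hl1, hl2, hl3⟩ := exists_marginals (fun p => (mu H θ p : ℝ) / K)
    (fun p => by positivity) hε hε1 hsum
  have hl0 : ∀ p, 0 ≤ lam p := fun p => le_trans (by positivity) (hl1 p)
  have hZ := Z_pos hl0 Finset.univ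
  have hPo : ∀ e ∈ Hg H θ, ∀ v, Po (hvy H θ) e v = ∅ ∨
      ∃ p ∈ hvy H θ e, v ∈ p ∧ Po (hvy H θ) e v = {p} := by
    intro e he v
    rcases (Po (hvy H θ) e v).eq_empty_or_nonempty with h1 | ⟨p, h1⟩
    · exact Or.inl h1
    · obtain ⟨h4, h5⟩ := Finset.mem_filter.mp h1
      refine Or.inr ⟨p, h4, h5, Finset.eq_singleton_iff_unique_mem.mpr ⟨h1, fun q hq => ?_⟩⟩
      exact hg.uniq e he q (Finset.mem_filter.mp hq).1 p h4
  have nob1 : ∀ p v, p.card = 2 → v ∈ p → nob lam K {p} v = (mu H θ p : ℝ) := by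
    intro p v hp2 hv
    have h1 := hl3 p hp2
    unfold nob qf ob wt
    rw [cov_singleton, Finset.insert_eq_of_mem hv, Finset.prod_singleton, ← mul_div_assoc, h1]
    field_simp
  have nob0 : ∀ v, nob lam K ∅ v = K - ∑ w ∈ Finset.univ.erase v, (mu H θ {v, w} : ℝ) := by
    intro v
    have h1 := Z_rec lam (Finset.mem_univ v)
    have h2 : ∑ w ∈ Finset.univ.erase v, lam {v, w} * Z lam ((Finset.univ.erase v).erase w) =
        ∑ w ∈ Finset.univ.erase v, (mu H θ {v, w} : ℝ) / K * Z lam Finset.univ := by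
      refine Finset.sum_congr rfl fun w hw => ?_
      have h4 : (Finset.univ.erase v).erase w = Finset.univ \ {v, w} := by
        ext y
        simp only [Finset.mem_erase, Finset.mem_sdiff, Finset.mem_insert, Finset.mem_singleton]
        tauto
      rw [h4]
      exact hl3 {v, w} (Finset.card_pair (Finset.mem_erase.mp hw).1.symm)
    rw [h2, ← Finset.sum_mul, ← Finset.sum_div] at h1
    unfold nob qf ob wt
    rw [cov_empty, Finset.prod_empty, one_mul, Finset.insert_empty,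
      Finset.sdiff_singleton_eq_erase]
    have h4 : Z lam (Finset.univ.erase v) = Z lam Finset.univ *
        (1 - (∑ w ∈ Finset.univ.erase v, (mu H θ {v, w} : ℝ)) / K) := by linarith
    rw [h4]
    field_simp
  have hmu : ∀ e, ∀ p ∈ hvy H θ e, 1 ≤ β0 * (mu H θ p : ℝ) := by
    intro e p hp
    obtain ⟨-, h1, h2⟩ := mem_hvy.mp hp
    exact hβ1.trans (mul_le_mul_of_nonneg_left (mu_ge h3 hD hω hdeg h1 h2) hβ0.le)
  refine ⟨lam, ⟨hg, hK0, hl0, by positivity, fun u => ?_, hβ0, ?_, ?_, ?_⟩, ?_⟩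
  · refine (Finset.sum_le_sum fun w _ => hl2 {u, w}).trans ?_
    rw [← Finset.mul_sum]
    exact mul_le_of_le_one_right (by positivity) ((hsum u).trans (by linarith))
  · intro e he v hv
    rcases hPo e he v with h1 | ⟨p, h1, h2, h4⟩
    · rw [h1, nob0]
      have h5 := light_add_heavy (θ := θ) h3 v
      nlinarith [hdeg v]
    · rw [h4, nob1 p v (mem_hvy.mp h1).2.1 h2]
      refine Nat.cast_le.mpr (Finset.card_le_card fun f hf => ?_)
      obtain ⟨h5, -, h6⟩ := Finset.mem_filter.mp hf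
      have h7 : p ∈ Po (hvy H θ) f v := h6 ▸ Finset.mem_singleton_self p
      exact Finset.mem_filter.mpr ⟨h5, (Finset.mem_filter.mp h7).1⟩
  · intro e he v hv u hu
    rcases hPo e he v with h1 | ⟨p, h1, h2, h4⟩
    · rw [h1] at hu ⊢
      rw [nob0]
      have huv : u ≠ v := fun hh => hu (by simp [ob, hh])
      have h5 : β0 * (K - D) ≤ β0 * (K - ∑ w ∈ Finset.univ.erase v, (mu H θ {v, w} : ℝ)) :=
        mul_le_mul_of_nonneg_left (by linarith [hsum0 v]) hβ0.le
      refine le_trans ?_ (hβ2.trans h5)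
      rcases ((Js (Hg H θ) (hvy H θ) ∅ v).filter (fun f => u ∈ f)).eq_empty_or_nonempty with
        h6 | ⟨f, hf⟩
      · rw [h6]
        simp only [Finset.card_empty, Nat.cast_zero]
        positivity
      · obtain ⟨h6, h7⟩ := Finset.mem_filter.mp hf
        obtain ⟨h8, h9, h10⟩ := Finset.mem_filter.mp h6
        have h11 : (cdg H {v, u} : ℝ) ≤ θ := by
          by_contra hh
          have h12 : {v, u} ∈ Po (hvy H θ) f v := Finset.mem_filter.mpr ⟨mem_hvy.mpr
            ⟨Finset.insert_subset h9 (Finset.singleton_subset_iff.mpr h7),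
              Finset.card_pair huv.symm, not_le.mp hh⟩, by simp⟩
          rw [h10] at h12
          exact Finset.notMem_empty _ h12
        refine le_trans (Nat.cast_le.mpr (Finset.card_le_card fun f' hf' => ?_)) h11
        obtain ⟨h12, h13⟩ := Finset.mem_filter.mp hf'
        obtain ⟨h14, h15, -⟩ := Finset.mem_filter.mp h12
        exact Finset.mem_filter.mpr ⟨(Finset.mem_filter.mp h14).1,
          Finset.insert_subset h15 (Finset.singleton_subset_iff.mpr h13)⟩
    · rw [h4] at hu ⊢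
      rw [nob1 p v (mem_hvy.mp h1).2.1 h2]
      refine le_trans ?_ (hmu e p h1)
      have hup : u ∉ p := fun hh => hu (by simp [ob, hh])
      have h5 : ∀ f ∈ (Js (Hg H θ) (hvy H θ) {p} v).filter (fun f => u ∈ f), f = insert u p := by
        intro f hf
        obtain ⟨h6, h7⟩ := Finset.mem_filter.mp hf
        obtain ⟨h8, -, h10⟩ := Finset.mem_filter.mp h6
        have h11 : p ∈ Po (hvy H θ) f v := h10 ▸ Finset.mem_singleton_self p
        have h12 := hg.pair f h8 p (Finset.mem_filter.mp h11).1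
        symm
        apply Finset.eq_of_subset_of_card_le (Finset.insert_subset h7 h12.1)
        rw [Finset.card_insert_of_notMem hup, h12.2, hg.card3 f h8]
      exact_mod_cast Finset.card_le_one.mpr fun f hf f' hf' => (h5 f hf).trans (h5 f' hf').symm
  · intro e he
    rcases (hvy H θ e).eq_empty_or_nonempty with h1 | ⟨p, h1⟩
    · rw [h1]
      simpa [wt] using hβ3
    · have h2 : hvy H θ e = {p} :=
        Finset.eq_singleton_iff_unique_mem.mpr ⟨h1, fun q hq => hg.uniq e he q hq p h1⟩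
      rw [h2]
      refine (hmu e p h1).trans (mul_le_mul_of_nonneg_left ?_ hβ0.le)
      have h4 := hl1 p
      simp only [wt, Finset.prod_singleton]
      rw [div_le_iff₀ hK0] at h4
      linarith
  · intro u w hl
    have h1 : mu H θ {u, w} ≠ 0 := by
      intro h0
      have h2 := hl2 {u, w}
      simp only [h0, Nat.cast_zero, zero_div, mul_zero] at h2
      exact hl (le_antisymm h2 (hl0 _))
    obtain ⟨e, he⟩ := Finset.card_pos.mp (Nat.pos_of_ne_zero h1)
    obtain ⟨h2, h4⟩ := Finset.mem_filter.mp he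
    have h5 := (mem_hvy.mp h4).1
    exact ⟨e, (Finset.mem_filter.mp h2).1, h5 (by simp), h5 (by simp)⟩

end

end Pool.Agent.Lib.MP_f8e628_co
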