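import Mathlib
import Pool.Agent.Lib.MP_f8e628_co.Heavy
import Pool.Agent.Lib.MP_f8e628_co.StageMean
import Pool.Agent.Lib.MP_f8e628_co.StageOut
import Pool.Agent.Lib.MP_f8e628_co.Nibble

set_option autoImplicit false
set_option linter.unusedSectionVars false

open Finset

namespace Pool.Agent.Lib.MP_f8e628_co

lemma par_exists {Λ η γ0 : ℝ} (hΛ : 0 ≤ Λ) (hη : 0 < η) (hη1 : η ≤ 1) (hγ0 : 0 < γ0) :
    ∃ (β0 : ℝ) (R : ℕ) (γ1 γ2 γ : ℝ), 0 < β0 ∧ Par Λ β0 R γ1 γ2 γ (η / 6) (η / 9) ∧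
      0 ≤ γ ∧ γ ≤ η / 3 ∧ (1 + Λ) ^ 3 * β0 ≤ γ0 := by
  set γ := η ^ 3 / 1944 with hγ
  have hη3 : η ^ 3 ≤ η := by
    have : η ^ 3 ≤ η ^ 1 := pow_le_pow_of_le_one hη.le hη1 (by norm_num)
    simpa using this
  have hγp : 0 < γ := by positivity
  have hγle : γ ≤ η / 3 := by rw [hγ]; linarith
  set γ2 := γ / 15 with hγ2
  have hγ2p : 0 < γ2 := by positivity
  have hγ2le : γ2 ≤ 1 := by rw [hγ2]; linarith
  set γ1 := γ2 / (8 * (1 + Λ)) with hγ1
  have hγ1p : 0 < γ1 := by positivity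
  have hγ1e : 4 * γ1 * (1 + Λ) = γ2 / 2 := by rw [hγ1]; field_simp; ring
  obtain ⟨R, hR⟩ := exists_pow_lt_of_lt_one (x := γ2 / (2 * (1 + Λ))) (y := Λ / (1 + Λ))
    (by positivity) (by rw [div_lt_one (by linarith)]; linarith)
  set A := (3 * (1 + Λ) ^ 4 + 2) * (2 * (1 + Λ) ^ R / γ1) + (1 + Λ) ^ 7 with hA
  have hAp : 0 < A := by positivity
  set β0 := min (η ^ 3 / 648 / A) (min (η / 6 / (1 + Λ) ^ 3) (γ0 / (1 + Λ) ^ 3)) with hβ0
  have hβp : 0 < β0 := by positivity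
  have hβ1 : β0 ≤ η ^ 3 / 648 / A := min_le_left _ _
  have hβ2 : β0 ≤ η / 6 / (1 + Λ) ^ 3 := (min_le_right _ _).trans (min_le_left _ _)
  have hβ3 : β0 ≤ γ0 / (1 + Λ) ^ 3 := (min_le_right _ _).trans (min_le_right _ _)
  rw [le_div_iff₀ (by positivity)] at hβ1 hβ2 hβ3
  refine ⟨β0, R, γ1, γ2, γ, hβp, ⟨hγ1p, ?_, ?_, ?_, by linarith, by linarith, ?_, by linarith⟩,
    hγp.le, hγle, by linarith⟩
  · nlinarith [mul_nonneg hγ1p.le hΛ]
  · rw [hγ1e]
    rw [lt_div_iff₀ (by positivity)] at hR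
    have : 0 ≤ (Λ / (1 + Λ)) ^ R := by positivity
    nlinarith
  · have h1 : γ = 15 * γ2 := by rw [hγ2]; ring
    have h2 : γ2 ^ 2 ≤ γ2 := by nlinarith
    have h3 : γ2 ^ 3 ≤ γ2 := by nlinarith
    have h4 : γ2 ^ 4 ≤ γ2 := by nlinarith
    rw [h1]
    nlinarith
  · rw [div_le_iff₀ (by positivity)]
    have h1 : (3 * (1 + Λ) ^ 4 + 2) * (2 * (1 + Λ) ^ R / γ1 * β0) +
        (1 + Λ) ^ 4 * ((1 + Λ) ^ 3 * β0) = β0 * A := by rw [hA]; ring
    have h2 : η / 9 * (η / 6) ^ 2 = η ^ 3 / 324 := by ring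
    rw [add_assoc, h1, h2, hγ]
    linarith

lemma num_mean {η γ K w d dg : ℝ} (hη : 0 < η) (hη1 : η ≤ 1) (hγp : 0 ≤ γ) (hγ : γ ≤ η / 3)
    (hK0 : 0 < K) (hw : w ≤ η * K) (hdg : 0 ≤ dg) (h2 : d ≤ dg + w) :
    (1 - η) * d / K - η ≤ (1 - 3 * (η / 9)) / ((1 + γ) * (1 + 2 * (η / 6)) * K) * dg := by
  have h4 : (1 - η) / K ≤ (1 - 3 * (η / 9)) / ((1 + γ) * (1 + 2 * (η / 6)) * K) := by
    rw [div_le_div_iff₀ hK0 (by positivity)]
    have h5 : (1 + γ) * (1 + 2 * (η / 6)) ≤ (1 + η / 3) ^ 2 := by nlinarith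
    have h6 : (1 - η) * ((1 + γ) * (1 + 2 * (η / 6))) ≤ 1 - 3 * (η / 9) := by
      have := mul_le_mul_of_nonneg_left h5 (by linarith : 0 ≤ 1 - η)
      nlinarith [pow_pos hη 2, pow_pos hη 3]
    nlinarith [mul_le_mul_of_nonneg_right h6 hK0.le]
  refine le_trans ?_ (mul_le_mul_of_nonneg_right h4 hdg)
  rw [div_mul_eq_mul_div, sub_le_iff_le_add, div_add' _ _ _ hK0.ne']
  refine div_le_div_of_nonneg_right ?_ hK0.le
  have h6 := mul_le_mul_of_nonneg_left (h2.trans (add_le_add_right hw dg)) (by linarith : 0 ≤ 1 - η)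
  nlinarith [mul_pos hη (mul_pos hη hK0)]

lemma num_final {η K a s c d X Y N : ℝ} (hη : 0 < η) (hη1 : η ≤ 1) (ha : 0 ≤ a) (hc : 0 ≤ c)
    (hs : c ≤ s) (h2 : (1 - η) / K * d - c * η - a ≤ X) (h1 : (1 - η) * X - N * a ≤ Y) :
    (1 - η) ^ 2 / K * d - η * s - (N + 1) * a ≤ Y := by
  have h5 := mul_le_mul_of_nonneg_left h2 (by linarith : 0 ≤ 1 - η)
  have h6 : (1 - η) * (c * η) ≤ η * s := by
    nlinarith [mul_nonneg (mul_nonneg hη.le hη.le) hc]
  have h7 : (1 - η) ^ 2 / K * d = (1 - η) * ((1 - η) / K * d) := by ring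
  rw [h7]
  nlinarith [mul_nonneg hη.le ha]

/-- Many simple triple systems of bounded degree on one vertex set: one matching from each,
covering every vertex about as often as the bound `3 / 2` allows. -/
theorem many (ε η : ℝ) (hε : 0 < ε) (hη : 0 < η) (hη1 : η ≤ 1) : ∃ (k N : ℕ) (D0 : ℝ),
    ∀ {V C : Type} [Fintype V] [DecidableEq V] [Fintype C] [DecidableEq C]
    (H : C → Finset (Finset V)) (D : ℝ) (_ : D0 ≤ D) (_ : ∀ c, ∀ e ∈ H c, e.card = 3)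
    (_ : ∀ c v, (((H c).filter (fun e => v ∈ e)).card : ℝ) ≤ D)
    (adj : V → V → Prop) (_ : ∀ u, adj u u) (_ : ∀ u v, adj u v → adj v u)
    (_ : ∀ c, ∀ e ∈ H c, ∀ u ∈ e, ∀ u' ∈ e, adj u u') (Δ : ℝ) (_ : 1 ≤ Δ)
    (_ : ∀ u, ((ball adj 1 u).card : ℝ) ≤ Δ)
    (s : ℝ) (_ : 0 < s) (_ : (Fintype.card C : ℝ) ≤ s) (a : ℝ) (_ : 0 ≤ a)
    (_ : 4 * Real.exp (-(a ^ 2 / (2 * s))) * Δ ^ k ≤ 1),
    ∃ P : C → Finset (Finset V), (∀ c, P c ⊆ H c) ∧
      (∀ c, ∀ e ∈ P c, ∀ e' ∈ P c, e ≠ e' → Disjoint e e') ∧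
      ∀ v, (1 - η) ^ 2 / ((3 / 2 + ε) * D) * ∑ c, (((H c).filter (fun e => v ∈ e)).card : ℝ) -
        η * s - (N + 1) * a ≤ ∑ c, ind (∃ e ∈ P c, v ∈ e) := by
  obtain ⟨γ0, N, hγ0, hnib⟩ := nibble η hη
  set ε' := 2 / 3 - 1 / (3 / 2 + ε) with hε'
  have hε'0 : 0 < ε' := by
    have : 1 / (3 / 2 + ε) < 2 / 3 := by rw [div_lt_iff₀ (by linarith)]; linarith
    linarith
  have hε'1 : ε' ≤ 1 := by
    have : 0 < 1 / (3 / 2 + ε) := by positivity
    linarith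
  obtain ⟨β0, R, γ1, γ2, γ, hβ0, hq, hγp, hγ, hγ0'⟩ :=
    par_exists (Λ := 72 / ε') (by positivity) hη hη1 hγ0
  set ω := 2 / β0 with hω
  have hωp : 0 < ω := by positivity
  refine ⟨R + 7, N, ω * (1 / β0 + 4 * ω) + 1 / β0 + 8 * ω ^ 2 / η, ?_⟩
  intro V C _ _ _ _ H D hD h3 hdeg adj hrefl hsymm hadj Δ hΔ1 hΔ s hs0 hs a ha hnum
  have t1 : 0 < ω * (1 / β0 + 4 * ω) := by positivity
  have t2 : 0 < 1 / β0 := by positivity
  have t3 : 0 < 8 * ω ^ 2 / η := by positivity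
  have hD0 : 0 < D := by linarith
  set K := (3 / 2 + ε) * D with hK
  have hK0 : 0 < K := by positivity
  have hKD : D / 2 ≤ K - D := by rw [hK]; nlinarith
  have hβ1 : 1 ≤ β0 * (D / ω - 4 * ω) := by
    have h1 : 1 / β0 + 4 * ω ≤ D / ω := by rw [le_div_iff₀ hωp]; linarith
    have h2 : β0 * (1 / β0) = 1 := by field_simp
    nlinarith
  have hβ2 : D / ω ≤ β0 * (K - D) := by
    have h1 : D / ω = β0 * (D / 2) := by rw [hω]; field_simp
    rw [h1]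
    exact mul_le_mul_of_nonneg_left hKD hβ0.le
  have hβ3 : 1 ≤ β0 * K := by
    have h2 : β0 * (1 / β0) = 1 := by field_simp
    have h1 : 1 / β0 ≤ K := by linarith
    nlinarith
  have hω2 : 8 * ω ^ 2 ≤ η * K := by
    have h1 : 8 * ω ^ 2 / η ≤ K := by linarith
    rwa [div_le_iff₀ hη, mul_comm K] at h1
  have hKε : D ≤ (2 / 3 - ε') * K := by
    have : (2 / 3 - ε') * K = D := by rw [hε', hK]; field_simp; ring
    exact this.ge
  choose lam hset hlam using fun c =>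
    heavy_setup (h3 c) hD0 hωp (hdeg c) hε'0 hε'1 hK0 hKε hβ0 hβ1 hβ2 hβ3
  have hadjG : ∀ c, ∀ e ∈ Hg (H c) (D / ω), ∀ u ∈ e, ∀ u' ∈ e, adj u u' :=
    fun c e he => hadj c e (Finset.mem_filter.mp he).1
  have hadjl : ∀ c u w, u ≠ w → lam c {u, w} ≠ 0 → adj u w := by
    intro c u w _ hl
    obtain ⟨e, he, hu, hw⟩ := hlam c u w hl
    exact hadj c e he u hu w hw
  have hnum' : ∀ j ≤ R + 7, 4 * Real.exp (-(a ^ 2 / (2 * s))) * Δ ^ j ≤ 1 := fun j hj =>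
    le_trans (mul_le_mul_of_nonneg_left (pow_le_pow_right₀ hΔ1 hj) (by positivity)) hnum
  have hζ : 0 < 2 * (η / 6) := by positivity
  obtain ⟨M, hM, hX⟩ := lc (C := C) (J := V) (Ω := Finset (Finset V))
    (fun c M => md (lam c) Finset.univ M / Z (lam c) Finset.univ)
    (fun c M => div_nonneg (md_nonneg (hset c).lam0 _ _) (Z_nonneg (hset c).lam0 _))
    (fun c => by
      rw [← Finset.sum_div]
      exact div_self (Z_pos (hset c).lam0 _).ne')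
    (fun _ => Finset.univ) s hs0 (fun _ => by simpa using hs)
    (fun v c M => load (Hg (H c) (D / ω)) (fun e => e)
      (V2 (Hg (H c) (D / ω)) (hvy (H c) (D / ω)) (lam c) K (2 * (η / 6)) M) v)
    (fun v c M _ => ⟨load_nonneg ((hset c).V2_nonneg hζ M) v, (hset c).load_V2_le hζ M v⟩)
    (fun v c => (1 - η) / K * (((H c).filter (fun e => v ∈ e)).card : ℝ) - η)
    (fun v c M M' => ∀ p, ¬ p ⊆ ball adj (R + 3) v → (p ∈ M ↔ p ∈ M'))
    (fun v => ball adj (R + 5) v) (Δ ^ (R + 5)) (card_ball_le hΔ _) (one_le_pow₀ hΔ1)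
    (by
      intro v v' hv' c _ _ M M' hR
      refine (hset c).geo.load_V2_local hrefl (hadjG c) v' fun p ⟨x, hx1, hx2⟩ =>
        hR p fun hsub => hv' ?_
      have h1 : near adj (R + 3 + 2) v v' :=
        near_trans (mem_ball.mp (hsub hx1)) (near_symm hsymm hx2)
      exact mem_ball.mpr h1)
    (by
      intro v c _ g hg0 hg
      have h1 := (hset c).mean hq hrefl (hadjG c) (hadjl c) v g hg0 hg
      have hZ := Z_pos (hset c).lam0 Finset.univ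
      simp only [div_mul_eq_mul_div]
      rw [← Finset.sum_div, ← Finset.sum_div, ← mul_div_assoc]
      refine div_le_div_of_nonneg_right (le_trans (mul_le_mul_of_nonneg_right ?_
        (Finset.sum_nonneg fun M _ => mul_nonneg (md_nonneg (hset c).lam0 _ _) (hg0 M))) h1) hZ.le
      exact num_mean hη hη1 hγp hγ hK0 hω2 (Nat.cast_nonneg _)
        (deg_le_good (h3 c) hD0 hωp (hdeg c) v))
    a ha (hnum' _ (by omega))
  have hM1 : ∀ c, IsMat Finset.univ (M c) := by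
    intro c
    by_contra hh
    exact hM c (by simp [md, ind_neg hh])
  have hM2 : ∀ c, ∀ p ∈ M c, lam c p ≠ 0 := by
    intro c p hp h0
    have : wt (lam c) (M c) = 0 := Finset.prod_eq_zero hp h0
    exact hM c (by simp [md, this])
  obtain ⟨P, hP1, hP2, hP3⟩ := hnib adj hrefl hsymm Δ hΔ1 hΔ
    (fun c => Es (Hg (H c) (D / ω)) (hvy (H c) (D / ω)) (lam c) K (2 * (η / 6)) (M c))
    (fun c e => e.image (rep (M c))) (fun c v => rep (M c) v)
    (by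
      intro c e he u hu u' hu'
      obtain ⟨h1, h2⟩ := mem_Es.mp he
      have h4 := (hset c).geo.image_subset (hM1 c) h1 (V2_av h2)
      exact hadjG c e h1 u (h4 hu) u' (h4 hu'))
    (by
      intro c v
      by_cases hv : v ∈ cov (M c)
      · obtain ⟨p, hp, hvp⟩ := mem_cov.mp hv
        have h1 := pair_sub_ball hrefl (hadjl c) ((hM1 c).1 p hp).2 (hM2 c p hp) hvp
          (show near adj 0 v v from rfl) (rep_mem (hM1 c) hp hvp)
        obtain ⟨w, hw1, hw2⟩ := mem_ball.mp h1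
        exact (show v = w from hw1) ▸ hw2
      · rw [rep_free hv]
        exact hrefl v)
    s hs0 hs a ha (hnum' 7 (by omega))
    (fun c e => V2 (Hg (H c) (D / ω)) (hvy (H c) (D / ω)) (lam c) K (2 * (η / 6)) (M c) e *
      ind (e ∈ Hg (H c) (D / ω)))
    (fun c =>
      have h1 := (hset c).fracM hζ (hM1 c)
      ⟨h1.nonneg, h1.supp, h1.ne, h1.card, h1.load_le,
        fun u u' huu => (h1.codeg u u' huu).trans hγ0'⟩)
  refine ⟨P, fun c e he => (Finset.mem_filter.mp (mem_Es.mp (hP1 c e he)).1).1, ?_, fun v => ?_⟩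
  · intro c e he e' he' hne
    have h1 := hP2 c e he e' he' hne
    rw [Finset.disjoint_left] at h1 ⊢
    intro x hx hx'
    exact h1 (Finset.mem_image_of_mem _ hx) (Finset.mem_image_of_mem _ hx')
  · have h1 := hP3 v
    have h2 := hX v
    simp only [fun c => (hset c).load_Es (ζ := 2 * (η / 6)) (hM1 c) v] at h1
    have h4 : ∑ c, ind (∃ e ∈ P c, rep (M c) v ∈ e.image (rep (M c))) ≤
        ∑ c, ind (∃ e ∈ P c, v ∈ e) := by
      refine Finset.sum_le_sum fun c _ => ind_mono fun ⟨e, he, hv⟩ => ⟨e, he, ?_⟩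
      obtain ⟨h5, h6⟩ := mem_Es.mp (hP1 c e he)
      exact ((hset c).geo.rep_mem_image (hM1 c) h5 (V2_av h6) v).mp hv
    rw [Finset.sum_sub_distrib, ← Finset.mul_sum, Finset.sum_const, nsmul_eq_mul,
      Finset.card_univ] at h2
    exact num_final hη hη1 ha (Nat.cast_nonneg _) hs h2 (h1.trans h4)

end Pool.Agent.Lib.MP_f8e628_co
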