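import Mathlib
import Pool.Agent.Lib.MP_f8e628_co.Many

set_option autoImplicit false
set_option linter.unusedSectionVars false

open Finset

namespace Pool.Agent.Lib.MP_f8e628_co

section
variable {V : Type} [DecidableEq V] [Fintype V]

/-- Two vertices are close if they are equal or lie in a common edge. -/
def hadj (H : Finset (Finset V)) (u w : V) : Prop := u = w ∨ ∃ e ∈ H, u ∈ e ∧ w ∈ e

lemma hadj_refl (H : Finset (Finset V)) (u : V) : hadj H u u := Or.inl rfl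

lemma hadj_symm (H : Finset (Finset V)) (u w : V) (h : hadj H u w) : hadj H w u := by
  rcases h with h | ⟨e, he, h1, h2⟩
  · exact Or.inl h.symm
  · exact Or.inr ⟨e, he, h2, h1⟩

lemma card_ball_hadj {H : Finset (Finset V)} (h3 : ∀ e ∈ H, e.card = 3) {t : ℝ}
    (hdeg : ∀ v, ((H.filter (fun e => v ∈ e)).card : ℝ) ≤ t) (u : V) :
    ((ball (hadj H) 1 u).card : ℝ) ≤ 3 * t + 1 := by
  have h1 : ball (hadj H) 1 u ⊆ insert u ((H.filter (fun e => u ∈ e)).biUnion id) := by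
    intro w hw
    obtain ⟨x, hx1, hx2⟩ := mem_ball.mp hw
    have hx : u = x := hx1
    subst hx
    rcases hx2 with h | ⟨e, he, h1, h2⟩
    · exact h ▸ Finset.mem_insert_self _ _
    · exact Finset.mem_insert_of_mem
        (Finset.mem_biUnion.mpr ⟨e, Finset.mem_filter.mpr ⟨he, h1⟩, h2⟩)
  have h2 : ((H.filter (fun e => u ∈ e)).biUnion id).card ≤
      (H.filter (fun e => u ∈ e)).card * 3 :=
    Finset.card_biUnion_le_card_mul _ _ _ fun e he => (h3 e (Finset.mem_filter.mp he).1).le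
  have h4 := (Finset.card_le_card h1).trans (Finset.card_insert_le _ _)
  have h5 : ((ball (hadj H) 1 u).card : ℝ) ≤ ((H.filter (fun e => u ∈ e)).card : ℝ) * 3 + 1 := by
    exact_mod_cast h4.trans (Nat.add_le_add_right h2 1)
  linarith [hdeg u]

lemma partition {H : Finset (Finset V)} {t Δ a : ℝ} (ht : 0 < t)
    (hdeg : ∀ v, ((H.filter (fun e => v ∈ e)).card : ℝ) ≤ t) (hΔ1 : 1 ≤ Δ)
    (hΔ : ∀ u, ((ball (hadj H) 1 u).card : ℝ) ≤ Δ) {s : ℕ} (hs : 0 < s) (ha : 0 ≤ a)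
    (hnum : 4 * Real.exp (-(a ^ 2 / (2 * t))) * (Δ * s) ≤ 1) :
    ∃ col : Finset V → Fin s, ∀ c v,
      (((H.filter (fun e => col e = c)).filter (fun e => v ∈ e)).card : ℝ) ≤ t / s + a := by
  have hs' : (0 : ℝ) < s := by exact_mod_cast hs
  have hs1 : (1 : ℝ) ≤ s := by exact_mod_cast hs
  obtain ⟨col, -, hcol⟩ := lc (C := Finset V) (J := V × Fin s) (Ω := Fin s)
    (fun _ _ => 1 / (s : ℝ)) (fun _ _ => by positivity)
    (fun _ => by simp; field_simp)
    (fun j => H.filter (fun e => j.1 ∈ e)) t ht (fun j => hdeg j.1)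
    (fun j _ ω => 1 - ind (ω = j.2))
    (fun j _ ω _ => ⟨by linarith [ind_le_one (ω = j.2)], by linarith [ind_nonneg (ω = j.2)]⟩)
    (fun _ _ => 1 - 1 / (s : ℝ)) (fun _ _ _ _ => True)
    (fun j => ball (hadj H) 1 j.1 ×ˢ Finset.univ) (Δ * s)
    (fun j => by
      rw [Finset.card_product, Finset.card_univ, Fintype.card_fin]
      push_cast
      exact mul_le_mul_of_nonneg_right (hΔ j.1) hs'.le)
    (one_le_mul_of_one_le_of_one_le hΔ1 hs1)
    (by
      intro j j' hj' e he he' _ _ _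
      have h1 : hadj H j.1 j'.1 := Or.inr ⟨e, (Finset.mem_filter.mp he).1,
        (Finset.mem_filter.mp he).2, (Finset.mem_filter.mp he').2⟩
      exact absurd (Finset.mem_product.mpr ⟨mem_ball.mpr (near_one h1), Finset.mem_univ _⟩) hj')
    (by
      intro j e _ g _ hg
      have h1 : ∀ ω, g ω = g j.2 := fun ω => hg ω j.2 trivial
      have h2 : ∑ ω : Fin s, ind (ω = j.2) = 1 := by
        rw [Finset.sum_eq_single j.2, ind_pos rfl]
        · intro b _ hb
          exact ind_neg hb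
        · simp
      rw [Finset.sum_congr rfl fun ω _ => by rw [h1 ω],
        Finset.sum_congr rfl fun ω _ =>
          show 1 / (s : ℝ) * ((1 - ind (ω = j.2)) * g ω) =
            1 / (s : ℝ) * g j.2 * (1 - ind (ω = j.2)) by rw [h1 ω]; ring,
        ← Finset.mul_sum Finset.univ (fun ω => 1 - ind (ω = j.2)), Finset.sum_sub_distrib, h2]
      simp only [Finset.sum_const, Finset.card_univ, Fintype.card_fin, nsmul_eq_mul, mul_one]
      apply le_of_eq
      field_simp)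
    a ha hnum
  refine ⟨col, fun c v => ?_⟩
  have h1 := hcol (v, c)
  simp only [Finset.sum_sub_distrib, Finset.sum_const, nsmul_eq_mul, mul_one] at h1
  rw [sum_ind_eq_card] at h1
  rw [Finset.filter_comm]
  have h2 : ((H.filter (fun e => v ∈ e)).card : ℝ) * (1 / s) ≤ t / s := by
    rw [mul_one_div]
    exact div_le_div_of_nonneg_right (hdeg v) hs'.le
  linarith

end

lemma ev_small {c : ℝ} (hc : 0 < c) (k : ℕ) : ∃ S0 : ℕ, ∀ s : ℕ, S0 ≤ s →
    4 * Real.exp (-(c * s)) * (3 * ((s : ℝ) + 1) ^ 4) ^ k ≤ 1 := by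
  have h1 := Real.tendsto_pow_mul_exp_neg_atTop_nhds_zero (4 * k)
  have h2 : Filter.Tendsto (fun s : ℕ => c * ((s : ℝ) + 1)) Filter.atTop Filter.atTop :=
    Filter.Tendsto.const_mul_atTop hc
      (Filter.tendsto_atTop_add_const_right _ _ tendsto_natCast_atTop_atTop)
  have h3 := (h1.comp h2).const_mul (4 * 3 ^ k * Real.exp c / c ^ (4 * k))
  rw [mul_zero] at h3
  obtain ⟨S0, hS0⟩ := Filter.eventually_atTop.mp (h3.eventually (ge_mem_nhds one_pos))
  refine ⟨S0, fun s hs => le_trans (le_of_eq ?_) (hS0 s hs)⟩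
  simp only [Function.comp]
  have h4 : Real.exp (-(c * s)) = Real.exp c * Real.exp (-(c * ((s : ℝ) + 1))) := by
    rw [← Real.exp_add]
    congr 1
    ring
  rw [h4, mul_pow, mul_pow, ← pow_mul]
  field_simp

lemma num_round {ε α η s t d Y : ℝ} (hε : 0 < ε) (hη : 0 < η) (hη1 : η ≤ 1 / 4)
    (hη2 : 5 * η ≤ 1 / (3 / 2 + ε) - 1 / α) (hs : 0 < s) (ht : 0 < t) (hd : (1 - η) * t ≤ d)
    (h : (1 - η) ^ 2 / ((3 / 2 + ε) * (t / s + η * t / s)) * d - η * s - η * s ≤ Y) :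
    s / α ≤ Y := by
  refine le_trans ?_ h
  have h1 : (1 - η) ^ 2 / ((3 / 2 + ε) * (t / s + η * t / s)) * ((1 - η) * t) ≤
      (1 - η) ^ 2 / ((3 / 2 + ε) * (t / s + η * t / s)) * d :=
    mul_le_mul_of_nonneg_left hd (by positivity)
  have h2 : (1 - η) ^ 2 / ((3 / 2 + ε) * (t / s + η * t / s)) * ((1 - η) * t) =
      (1 - η) ^ 3 / (1 + η) * (1 / (3 / 2 + ε)) * s := by
    field_simp
  have h3 : 1 - 4 * η ≤ (1 - η) ^ 3 / (1 + η) := by
    rw [le_div_iff₀ (by linarith)]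
    nlinarith [pow_pos hη 2, pow_pos hη 3]
  have h4 : 1 / (3 / 2 + ε) ≤ 2 / 3 := by rw [div_le_iff₀ (by linarith)]; linarith
  have h5 : 0 < 1 / (3 / 2 + ε) := by positivity
  have h6 : 1 / α + 2 * η ≤ (1 - η) ^ 3 / (1 + η) * (1 / (3 / 2 + ε)) := by
    nlinarith [mul_le_mul_of_nonneg_right h3 h5.le, mul_le_mul_of_nonneg_left h4 hη.le]
  have h7 := mul_le_mul_of_nonneg_right h6 hs.le
  have h8 : s / α = 1 / α * s := by ring
  rw [h8]
  linarith

/-- One round: a few matchings whose removal lowers the maximum degree at the rate `1 / α`. -/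
theorem round (α : ℝ) (hα : 3 / 2 < α) : ∃ T : ℕ, ∀ t : ℕ, T ≤ t →
    ∀ {V : Type} [Fintype V] [DecidableEq V] (H : Finset (Finset V)),
    (∀ e ∈ H, e.card = 3) → (∀ v, (H.filter (fun e => v ∈ e)).card ≤ t) →
    ∃ (s t' : ℕ), t' < t ∧ (s : ℝ) ≤ α * ((t : ℝ) - t') ∧ ∃ P : Fin s → Finset (Finset V),
      (∀ c, ∀ e ∈ P c, ∀ e' ∈ P c, e ≠ e' → Disjoint e e') ∧
      ∀ v, ((H \ Finset.univ.biUnion P).filter (fun e => v ∈ e)).card ≤ t' := by
  set ε := (α - 3 / 2) / 2 with hε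
  have hε0 : 0 < ε := by rw [hε]; linarith
  have hgap : 0 < 1 / (3 / 2 + ε) - 1 / α := by
    have : 1 / α < 1 / (3 / 2 + ε) :=
      one_div_lt_one_div_of_lt (by linarith) (by rw [hε]; linarith)
    linarith
  obtain ⟨η, hη0, hη1, hη2⟩ : ∃ η : ℝ, 0 < η ∧ η ≤ 1 / 4 ∧ 5 * η ≤ 1 / (3 / 2 + ε) - 1 / α :=
    ⟨min (1 / 4) ((1 / (3 / 2 + ε) - 1 / α) / 5), by positivity, min_le_left _ _, by
      have := min_le_right (1 / 4 : ℝ) ((1 / (3 / 2 + ε) - 1 / α) / 5)
      linarith⟩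
  obtain ⟨k, N, D0, hmany⟩ := many ε η hε0 hη0 (by linarith)
  obtain ⟨S0, hS0⟩ := ev_small (c := η ^ 2 / (2 * ((N : ℝ) + 1) ^ 2)) (by positivity) (k + 2)
  obtain ⟨S1, hS1⟩ := exists_nat_ge (max D0 (1 / η))
  refine ⟨(S0 + S1 + 1) ^ 4, fun t ht V _ _ H h3 hdeg => ?_⟩
  set s := Nat.sqrt (Nat.sqrt t) with hs
  have hs1 : S0 + S1 + 1 ≤ s := by
    rw [hs, Nat.le_sqrt', Nat.le_sqrt']
    calc _ = (S0 + S1 + 1) ^ 4 := by ring
      _ ≤ t := ht
  have hs2 : s ^ 4 ≤ t := by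
    calc s ^ 4 = (s ^ 2) ^ 2 := by ring
      _ ≤ (Nat.sqrt t) ^ 2 := Nat.pow_le_pow_left (Nat.sqrt_le' _) 2
      _ ≤ t := Nat.sqrt_le' t
  have hs3 : t < (s + 1) ^ 4 := by
    calc t < (Nat.sqrt t + 1) ^ 2 := Nat.lt_succ_sqrt' t
      _ ≤ ((s + 1) ^ 2) ^ 2 := Nat.pow_le_pow_left (Nat.lt_succ_sqrt' _) 2
      _ = _ := by ring
  have hs0 : 0 < s := by omega
  have r0 : (1 : ℝ) ≤ s := by exact_mod_cast hs0
  have r1 : (S1 : ℝ) ≤ s := by exact_mod_cast (by omega : S1 ≤ s)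
  have r2 : (s : ℝ) ^ 4 ≤ t := by exact_mod_cast hs2
  have r3 : (t : ℝ) + 1 ≤ ((s : ℝ) + 1) ^ 4 := by exact_mod_cast hs3
  have r4 : (s : ℝ) ^ 2 ≤ (s : ℝ) ^ 4 := pow_le_pow_right₀ r0 (by norm_num)
  have r5 : (s : ℝ) ^ 3 ≤ (s : ℝ) ^ 4 := pow_le_pow_right₀ r0 (by norm_num)
  have ht0 : (0 : ℝ) < t := lt_of_lt_of_le (by positivity) r2
  have hsη : (s : ℝ) ≤ η * t := by
    have h1 : 1 / η ≤ s := ((le_max_right _ _).trans hS1).trans r1
    rw [div_le_iff₀ hη0] at h1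
    nlinarith [mul_le_mul_of_nonneg_left (r4.trans r2) hη0.le]
  have hdeg' : ∀ v, ((H.filter (fun e => v ∈ e)).card : ℝ) ≤ t := fun v => by
    exact_mod_cast hdeg v
  set Δ := 3 * ((s : ℝ) + 1) ^ 4 with hΔ
  have hΔ1 : 1 ≤ Δ := by linarith
  have hΔs : (s : ℝ) ≤ Δ := by nlinarith
  have hΔb : ∀ u, ((ball (hadj H) 1 u).card : ℝ) ≤ Δ := fun u =>
    (card_ball_hadj h3 hdeg' u).trans (by linarith)
  have hnum := hS0 s (by omega)
  rw [← hΔ] at hnum
  have hN : (1 : ℝ) ≤ (N : ℝ) + 1 := by linarith [Nat.cast_nonneg (α := ℝ) N]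
  obtain ⟨col, hcol⟩ := partition (a := η * t / s) ht0 hdeg' hΔ1 hΔb hs0 (by positivity) (by
    refine le_trans (mul_le_mul ?_ ?_ (by positivity) (by positivity)) hnum
    · refine mul_le_mul_of_nonneg_left (Real.exp_le_exp.mpr (neg_le_neg ?_)) (by norm_num)
      have e1 : (η * t / s) ^ 2 / (2 * t) = η ^ 2 / 2 * (t / s ^ 2) := by field_simp
      have e2 : (s : ℝ) ≤ t / s ^ 2 := by
        rw [le_div_iff₀ (by positivity)]
        nlinarith
      have e3 : η ^ 2 / (2 * ((N : ℝ) + 1) ^ 2) ≤ η ^ 2 / 2 :=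
        div_le_div_of_nonneg_left (by positivity) (by norm_num) (by nlinarith)
      rw [e1]
      exact mul_le_mul e3 e2 (by positivity) (by positivity)
    · calc Δ * s ≤ Δ ^ 2 := by nlinarith
        _ ≤ Δ ^ (k + 2) := pow_le_pow_right₀ hΔ1 (by omega))
  obtain ⟨P, hP1, hP2, hP3⟩ := hmany (C := Fin s) (fun c => H.filter (fun e => col e = c))
    (t / s + η * t / s)
    (by
      have h1 : D0 ≤ s := ((le_max_left _ _).trans hS1).trans r1
      have h2 : (s : ℝ) ≤ t / s := by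
        rw [le_div_iff₀ (by positivity)]
        nlinarith
      have h4 : 0 ≤ η * t / s := by positivity
      linarith)
    (fun c e he => h3 e (Finset.mem_filter.mp he).1) hcol (hadj H) (hadj_refl H) (hadj_symm H)
    (fun c e he u hu u' hu' => Or.inr ⟨e, (Finset.mem_filter.mp he).1, hu, hu'⟩) Δ hΔ1 hΔb
    s (by positivity) (by simp) (η * s / (N + 1)) (by positivity) (by
      refine le_trans (mul_le_mul (le_of_eq ?_) (pow_le_pow_right₀ hΔ1 (by omega))
        (by positivity) (by positivity)) hnum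
      congr 3
      field_simp)
  have hα0 : 0 < α := by linarith
  have hce : ⌈(s : ℝ) / α⌉₊ ≤ s := by
    rw [Nat.ceil_le, div_le_iff₀ hα0]
    nlinarith
  have hce0 : 0 < ⌈(s : ℝ) / α⌉₊ := Nat.ceil_pos.mpr (by positivity)
  have hst : s ≤ t := le_trans (Nat.le_self_pow (by norm_num) s) hs2
  refine ⟨s, t - ⌈(s : ℝ) / α⌉₊, by omega, ?_, P, hP2, fun v => ?_⟩
  · rw [Nat.cast_sub (hce.trans hst), sub_sub_cancel, ← div_le_iff₀' hα0]
    exact Nat.le_ceil _
  by_cases hv : (H.filter (fun e => v ∈ e)).card ≤ t - s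
  · refine le_trans (Finset.card_le_card (Finset.filter_subset_filter _ Finset.sdiff_subset)) ?_
    omega
  have h1 : (1 - η) * t ≤ ((H.filter (fun e => v ∈ e)).card : ℝ) := by
    have h2 : ((t - s : ℕ) : ℝ) ≤ ((H.filter (fun e => v ∈ e)).card : ℝ) := by
      exact_mod_cast (not_le.mp hv).le
    rw [Nat.cast_sub hst] at h2
    linarith
  have h2 : ∑ c, (((H.filter (fun e => col e = c)).filter (fun e => v ∈ e)).card : ℝ) =
      ((H.filter (fun e => v ∈ e)).card : ℝ) := by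
    rw [Finset.card_eq_sum_card_fiberwise (f := col) (s := H.filter (fun e => v ∈ e))
      (t := Finset.univ) (fun _ _ => Finset.mem_univ _)]
    push_cast
    refine Finset.sum_congr rfl fun c _ => ?_
    rw [Finset.filter_comm]
  have h4 := hP3 v
  rw [h2, mul_div_cancel₀ _ (by linarith)] at h4
  have h5 := num_round hε0 hη0 hη1 hη2 (by positivity) ht0 h1 h4
  set F := (Finset.univ.biUnion P).filter (fun e => v ∈ e) with hF
  have h6 : ∑ c, ind (∃ e ∈ P c, v ∈ e) ≤ (F.card : ℝ) := by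
    rw [Finset.card_eq_sum_card_fiberwise (f := col) (s := F) (t := Finset.univ)
      (fun _ _ => Finset.mem_univ _)]
    push_cast
    refine Finset.sum_le_sum fun c _ => ?_
    by_cases hc : ∃ e ∈ P c, v ∈ e
    · rw [ind_pos hc]
      obtain ⟨e, he, hve⟩ := hc
      have h7 : e ∈ F.filter (fun e => col e = c) := Finset.mem_filter.mpr ⟨Finset.mem_filter.mpr
        ⟨Finset.mem_biUnion.mpr ⟨c, Finset.mem_univ _, he⟩, hve⟩,
        (Finset.mem_filter.mp (hP1 c he)).2⟩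
      exact_mod_cast Finset.card_pos.mpr ⟨e, h7⟩
    · rw [ind_neg hc]
      positivity
  have h7 : ⌈(s : ℝ) / α⌉₊ ≤ F.card := Nat.ceil_le.mpr (h5.trans h6)
  have h8 : F ⊆ H.filter (fun e => v ∈ e) := by
    intro e he
    obtain ⟨h9, h10⟩ := Finset.mem_filter.mp he
    obtain ⟨c, -, hc⟩ := Finset.mem_biUnion.mp h9
    exact Finset.mem_filter.mpr ⟨(Finset.mem_filter.mp (hP1 c hc)).1, h10⟩
  have h9 : (H \ Finset.univ.biUnion P).filter (fun e => v ∈ e) =
      H.filter (fun e => v ∈ e) \ F := by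
    ext e
    simp only [hF, Finset.mem_filter, Finset.mem_sdiff]
    tauto
  rw [h9, Finset.card_sdiff_of_subset h8]
  have := hdeg v
  omega

end Pool.Agent.Lib.MP_f8e628_co
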