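import Mathlib
import Pool.Agent.Lib.MP_f8e628_co.Round

set_option autoImplicit false
set_option linter.unusedSectionVars false

open Finset

namespace Pool.Agent.Lib.MP_f8e628_co

lemma greedy {V : Type} [DecidableEq V] (t : ℕ) (H : Finset (Finset V))
    (h3 : ∀ e ∈ H, e.card = 3) (hdeg : ∀ v, (H.filter (fun e => v ∈ e)).card ≤ t) :
    ∃ c : Finset V → ℕ, (∀ e ∈ H, c e ≤ 3 * t) ∧
      ∀ e ∈ H, ∀ f ∈ H, e ≠ f → c e = c f → Disjoint e f := by
  have key : ∀ A : Finset (Finset V), A ⊆ H → ∃ c : Finset V → ℕ, (∀ e ∈ A, c e ≤ 3 * t) ∧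
      ∀ e ∈ A, ∀ f ∈ A, e ≠ f → c e = c f → Disjoint e f := by
    intro A
    induction A using Finset.induction_on with
    | empty => intro _; exact ⟨fun _ => 0, by simp, by simp⟩
    | insert e A he ih =>
      intro hA
      obtain ⟨c, hc1, hc2⟩ := ih ((Finset.subset_insert _ _).trans hA)
      have heH : e ∈ H := hA (Finset.mem_insert_self _ _)
      set N := e.biUnion (fun v => H.filter (fun f => v ∈ f)) with hN
      have h1 : N.card ≤ 3 * t := by
        have := Finset.card_biUnion_le_card_mul e (fun v => H.filter (fun f => v ∈ f)) t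
          fun v _ => hdeg v
        rwa [h3 e heH] at this
      have h2 : (N.image c).card < (Finset.range (3 * t + 1)).card := by
        rw [Finset.card_range]
        exact Nat.lt_succ_of_le (Finset.card_image_le.trans h1)
      obtain ⟨x, hx1, hx2⟩ := Finset.exists_mem_notMem_of_card_lt_card h2
      have hmix : ∀ f ∈ A, x = c f → Disjoint e f := by
        intro f hf hxf
        rw [Finset.disjoint_left]
        intro v hve hvf
        refine hx2 (Finset.mem_image.mpr ⟨f, Finset.mem_biUnion.mpr ⟨v, hve, ?_⟩, hxf.symm⟩)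
        exact Finset.mem_filter.mpr ⟨hA (Finset.mem_insert_of_mem hf), hvf⟩
      have hne : ∀ f ∈ A, f ≠ e := fun f hf h => he (h ▸ hf)
      refine ⟨Function.update c e x, fun f hf => ?_, fun f hf g hg hfg hc => ?_⟩
      · rcases Finset.mem_insert.mp hf with rfl | hf
        · rw [Function.update_self]
          exact Nat.lt_succ_iff.mp (Finset.mem_range.mp hx1)
        · rw [Function.update_of_ne (hne f hf)]
          exact hc1 f hf
      · rcases Finset.mem_insert.mp hf with hf1 | hf1 <;>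
          rcases Finset.mem_insert.mp hg with hg1 | hg1
        · exact absurd (hf1.trans hg1.symm) hfg
        · rw [hf1, Function.update_self, Function.update_of_ne (hne g hg1)] at hc
          exact hf1 ▸ hmix g hg1 hc
        · rw [hg1, Function.update_self, Function.update_of_ne (hne f hf1)] at hc
          exact hg1 ▸ (hmix f hf1 hc.symm).symm
        · rw [Function.update_of_ne (hne f hf1), Function.update_of_ne (hne g hg1)] at hc
          exact hc2 f hf1 g hg1 hfg hc
  exact key H subset_rfl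

theorem colouring (α : ℝ) (hα : 3 / 2 < α) : ∃ T : ℕ, ∀ t : ℕ,
    ∀ {V : Type} [Fintype V] [DecidableEq V] (H : Finset (Finset V)),
    (∀ e ∈ H, e.card = 3) → (∀ v, (H.filter (fun e => v ∈ e)).card ≤ t) →
    ∃ c : Finset V → ℕ, (∀ e ∈ H, (c e : ℝ) ≤ α * t + T) ∧
      ∀ e ∈ H, ∀ f ∈ H, e ≠ f → c e = c f → Disjoint e f := by
  obtain ⟨T, hT⟩ := round α hα
  refine ⟨3 * T, fun t => ?_⟩
  induction t using Nat.strong_induction_on with
  | _ t ih =>
    intro V _ _ H h3 hdeg
    have hα0 : 0 < α := by linarith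
    by_cases ht : t < T
    · obtain ⟨c, hc1, hc2⟩ := greedy t H h3 hdeg
      refine ⟨c, fun e he => ?_, hc2⟩
      have h1 : (c e : ℝ) ≤ ((3 * T : ℕ) : ℝ) := by
        exact_mod_cast (hc1 e he).trans (by omega)
      have h2 : 0 ≤ α * t := by positivity
      linarith
    obtain ⟨s, t', ht', hs, P, hP1, hP2⟩ := hT t (not_lt.mp ht) H h3 hdeg
    obtain ⟨c, hc1, hc2⟩ := ih t' ht' (H \ Finset.univ.biUnion P)
      (fun e he => h3 e (Finset.mem_sdiff.mp he).1) hP2
    let c' : Finset V → ℕ := fun e => if h : ∃ i, e ∈ P i then (h.choose : ℕ) else s + c e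
    have hin : ∀ e (h : ∃ i, e ∈ P i), c' e = (h.choose : ℕ) := fun e h => dif_pos h
    have hout : ∀ e, (¬ ∃ i, e ∈ P i) → c' e = s + c e := fun e h => dif_neg h
    have hmem : ∀ e ∈ H, (¬ ∃ i, e ∈ P i) → e ∈ H \ Finset.univ.biUnion P := by
      intro e he h
      refine Finset.mem_sdiff.mpr ⟨he, fun hh => h ?_⟩
      obtain ⟨i, -, hi⟩ := Finset.mem_biUnion.mp hh
      exact ⟨i, hi⟩
    refine ⟨c', fun e he => ?_, fun e he f hf hef hc => ?_⟩
    · by_cases h : ∃ i, e ∈ P i
      · rw [hin e h]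
        have h1 : ((h.choose : ℕ) : ℝ) ≤ s := by exact_mod_cast h.choose.2.le
        have h2 : 0 ≤ α * t' := by positivity
        have h4 : (0 : ℝ) ≤ ((3 * T : ℕ) : ℝ) := Nat.cast_nonneg _
        linarith
      · rw [hout e h, Nat.cast_add]
        have h1 := hc1 e (hmem e he h)
        linarith
    · by_cases h : ∃ i, e ∈ P i <;> by_cases h' : ∃ i, f ∈ P i
      · rw [hin e h, hin f h'] at hc
        have h1 : h.choose = h'.choose := Fin.ext hc
        exact hP1 _ e h.choose_spec f (h1 ▸ h'.choose_spec) hef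
      · rw [hin e h, hout f h'] at hc
        have := h.choose.2
        omega
      · rw [hout e h, hin f h'] at hc
        have := h'.choose.2
        omega
      · rw [hout e h, hout f h'] at hc
        exact hc2 e (hmem e he h) f (hmem f hf h') hef (by omega)

theorem alon_kim_three :
    ∀ ε : ℝ, 0 < ε → ∃ T : ℕ, ∀ t : ℕ, T ≤ t →
      ∀ (V : Type) [Fintype V] [DecidableEq V] (H : Finset (Finset V)),
        (∀ e ∈ H, e.card = 3) →
        (∀ v : V, (H.filter (fun e => v ∈ e)).card ≤ t) →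
        ∃ k : ℕ, (k : ℝ) ≤ (3 / 2 + ε) * (t : ℝ) ∧
          ∃ c : Finset V → Fin k,
            ∀ e ∈ H, ∀ f ∈ H, e ≠ f → c e = c f → Disjoint e f := by
  intro ε hε
  obtain ⟨T, hT⟩ := colouring (3 / 2 + ε / 2) (by linarith)
  obtain ⟨T1, hT1⟩ := exists_nat_ge (2 * ((T : ℝ) + 1) / ε)
  refine ⟨T1, fun t ht V _ _ H h3 hdeg => ?_⟩
  obtain ⟨c, hc1, hc2⟩ := hT t H h3 hdeg
  have h1 : (T : ℝ) + 1 ≤ ε / 2 * t := by
    have h2 : (T1 : ℝ) ≤ t := by exact_mod_cast ht
    have h4 := hT1.trans h2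
    rw [div_le_iff₀ hε] at h4
    linarith
  have h0 : 0 ≤ (3 / 2 + ε / 2) * (t : ℝ) + T := by positivity
  set k := ⌊(3 / 2 + ε / 2) * (t : ℝ) + T⌋₊ with hk
  have h2 : ∀ e ∈ H, c e ≤ k := fun e he => Nat.le_floor (hc1 e he)
  refine ⟨k + 1, ?_, fun e => ⟨min (c e) k, Nat.lt_succ_of_le (min_le_right _ _)⟩,
    fun e he f hf hef hc => hc2 e he f hf hef ?_⟩
  · have := Nat.floor_le h0
    push_cast
    linarith
  · have h4 : min (c e) k = min (c f) k := congrArg Fin.val hc
    rwa [min_eq_left (h2 e he), min_eq_left (h2 f hf)] at h4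

end Pool.Agent.Lib.MP_f8e628_co
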